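import Mathlib

/-!
Definitions and interface statements for the counterexample on crossing numbers after deleting
one edge.
-/

namespace Pool.Agent.P.MP_324c94_co

/-- The numbers of crossings of drawings of `H` (the set of the frozen statement). -/
def crSet {V : Type} (H : SimpleGraph V) : Set ℕ :=
  {k : ℕ | ∃ (φ : V → ℂ) (γ : Sym2 V → ℝ → ℂ),
      Function.Injective φ ∧
      (∀ e : Sym2 V, e ∈ H.edgeSet →
        ContinuousOn (γ e) (Set.Icc (0 : ℝ) 1) ∧
        Set.InjOn (γ e) (Set.Icc (0 : ℝ) 1) ∧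
        (∃ u v : V, e = s(u, v) ∧ γ e 0 = φ u ∧ γ e 1 = φ v) ∧
        ∀ t : ℝ, 0 < t → t < 1 → ∀ w : V, γ e t ≠ φ w) ∧
      Set.encard {p : Sym2 V × Sym2 V × ℂ | p.1 ∈ H.edgeSet ∧ p.2.1 ∈ H.edgeSet ∧
        p.1 ≠ p.2.1 ∧
        (∃ s : ℝ, 0 < s ∧ s < 1 ∧ γ p.1 s = p.2.2) ∧
        (∃ t : ℝ, 0 < t ∧ t < 1 ∧ γ p.2.1 t = p.2.2)}
        = 2 * (k : ℕ∞)}

/-- The crossing number. -/
noncomputable def cr {V : Type} (H : SimpleGraph V) : ℕ := sInf (crSet H)

/-- Vertices of the graph obtained from a weighted digraph by replacing an edge `b` of weight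
`w b` by `w b` paths of length two. -/
abbrev SV (BV BE : Type) (w : BE → ℕ) : Type := BV ⊕ (Σ b : BE, Fin (w b))

/-- The graph obtained from a weighted digraph by replacing an edge `b` of weight `w b` by
`w b` paths of length two. -/
def subG {BV BE : Type} (tl hd : BE → BV) (w : BE → ℕ) : SimpleGraph (SV BV BE w) :=
  SimpleGraph.fromRel fun x y =>
    ∃ (b : BE) (k : Fin (w b)), y = Sum.inr ⟨b, k⟩ ∧ (x = Sum.inl (tl b) ∨ x = Sum.inl (hd b))

/-- Two edges of a digraph have no common end. -/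
def EndsDisj {BV BE : Type} (tl hd : BE → BV) (b b' : BE) : Prop :=
  tl b ≠ tl b' ∧ tl b ≠ hd b' ∧ hd b ≠ tl b' ∧ hd b ≠ hd b'

open Classical in
/-- Weighted number of ordered pairs of edges without common end whose sets meet. -/
noncomputable def wcross {BV BE : Type} [Fintype BE] (tl hd : BE → BV) (w : BE → ℕ)
    (I : BE → Set ℂ) : ℕ :=
  ∑ b : BE, ∑ b' : BE, if EndsDisj tl hd b b' ∧ (I b ∩ I b').Nonempty then w b * w b' else 0

/-- Van Kampen obstruction for the complete bipartite graph on three plus three vertices. -/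
def K33Stmt : Prop :=
  ∀ (a b : Fin 3 → ℂ) (S : Fin 3 → Fin 3 → Set ℂ), (∀ i j, JoinedIn (S i j) (a i) (b j)) →
    ∃ i j k l, i ≠ k ∧ j ≠ l ∧ (S i j ∩ S k l).Nonempty

/-- Van Kampen obstruction for the complete graph on five vertices. -/
def K5Stmt : Prop :=
  ∀ (a : Fin 5 → ℂ) (S : Fin 5 → Fin 5 → Set ℂ), (∀ i j, i < j → JoinedIn (S i j) (a i) (a j)) →
    ∃ i j k l, i < j ∧ k < l ∧ i ≠ k ∧ i ≠ l ∧ j ≠ k ∧ j ≠ l ∧ (S i j ∩ S k l).Nonempty

/-- Straight-line drawings: the number of crossings is at most the number of pairs of edges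
without common end whose open segments meet. -/
def SLStmt : Prop :=
  ∀ (V : Type) [Finite V] (H : SimpleGraph V) (φ : V → ℂ), Function.Injective φ →
    (∀ u v, H.Adj u v → ∀ x, φ x ∉ openSegment ℝ (φ u) (φ v)) →
    ∀ (Q : Finset (Sym2 V × Sym2 V)) (n : ℕ), Q.card ≤ 2 * n →
      (∀ u v u' v', H.Adj u v → H.Adj u' v' → u ≠ u' → u ≠ v' → v ≠ u' → v ≠ v' →
        (openSegment ℝ (φ u) (φ v) ∩ openSegment ℝ (φ u') (φ v')).Nonempty →
        (s(u, v), s(u', v')) ∈ Q) →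
      ∃ k ∈ crSet H, k ≤ n

/-- Every finite graph has a drawing with finitely many crossings. -/
def NEStmt : Prop :=
  ∀ (V : Type) [Finite V] (H : SimpleGraph V), (crSet H).Nonempty

/-- Selection of one copy of every weighted edge. -/
def SELStmt : Prop :=
  ∀ (BV BE : Type) [Fintype BE] (tl hd : BE → BV) (w : BE → ℕ), (∀ b, 0 < w b) →
    ∀ k ∈ crSet (subG tl hd w), ∃ (P : BV → ℂ) (I : BE → Set ℂ),
      (∀ b, IsPathConnected (I b) ∧ P (tl b) ∈ I b ∧ P (hd b) ∈ I b) ∧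
      wcross tl hd w I ≤ 2 * k

/-! The tile.  Local vertices `0 .. 21`:
`s, sg, om, p, tL, q, a1, a2, a4, a5, pp, tR, qq, b1, b2, b4, b5, v, m, u, w, t`. -/

/-- Tails of the edges of the tile. -/
def ltl : Fin 41 → Fin 22 :=
  ![0, 3, 4, 5, 0, 1, 6, 7, 4, 8, 9, 2, 0, 10, 11, 12, 1, 13, 14, 11, 15, 16,
    6, 17, 17, 17, 13, 1, 15, 18, 18, 8, 7, 5, 14, 12, 3, 19, 19, 10, 20]

/-- Heads of the edges of the tile. -/
def lhd : Fin 41 → Fin 22 :=
  ![3, 4, 5, 21, 1, 6, 7, 4, 8, 9, 2, 21, 10, 11, 12, 21, 13, 14, 11, 15, 16, 2,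
    17, 7, 2, 14, 17, 18, 18, 16, 9, 18, 3, 8, 10, 15, 19, 5, 20, 20, 12]

/-- Weights of the edges of the tile. -/
def lw : Fin 41 → ℕ :=
  ![3000, 3000, 3000, 3000, 6083, 3022, 3001, 3000, 3000, 3000, 3021, 6083,
    3000, 3000, 3000, 3000, 3021, 3000, 3000, 3000, 3001, 3022,
    21, 1, 40, 1, 21, 40, 1, 21, 21, 1, 2, 1, 1, 2, 2, 1, 1, 1, 2]

/-- Vertices of the cyclic chain of `T` tiles. -/
abbrev BV (T : ℕ) : Type := ZMod T × Fin 21

/-- Edges of the cyclic chain of `T` tiles. -/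
abbrev BE (T : ℕ) : Type := ZMod T × Fin 41

/-- The vertex of the chain given by a local vertex of tile `j`; the last local vertex of a tile
is the first vertex of the next tile. -/
def emb {T : ℕ} (j : ZMod T) (x : Fin 22) : BV T :=
  if h : x.val < 21 then (j, ⟨x.val, h⟩) else (j + 1, 0)

/-- Tail of an edge of the chain. -/
def btl {T : ℕ} (b : BE T) : BV T := emb b.1 (ltl b.2)

/-- Head of an edge of the chain. -/
def bhd {T : ℕ} (b : BE T) : BV T := emb b.1 (lhd b.2)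

/-- Weight of an edge of the chain. -/
def bw {T : ℕ} (b : BE T) : ℕ := lw b.2

/-- The graphs of the counterexample. -/
def GT (T : ℕ) : SimpleGraph (SV (BV T) (BE T) bw) := subG btl bhd bw

/-- The lower bound at the level of the weighted chain. -/
def LBStmt : Prop :=
  ∀ (T : ℕ) [NeZero T], 2 ≤ T → ∀ (P : BV T → ℂ) (I : BE T → Set ℂ),
    (∀ b, IsPathConnected (I b) ∧ P (btl b) ∈ I b ∧ P (bhd b) ∈ I b) →
    2 * (T * 13051) ≤ wcross btl bhd bw I

/-- The upper bound after deleting any edge. -/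
def UBStmt : Prop :=
  ∃ C : ℕ, ∀ (T : ℕ) [NeZero T], 2 ≤ T → ∀ e ∈ (GT T).edgeSet,
    ∃ k ∈ crSet ((GT T).deleteEdges {e}), k ≤ T * 13050 + C

end Pool.Agent.P.MP_324c94_co
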