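import Pool.Agent.P.MP_324c94_co.Zones

/-!
The straight-line drawing of the chain with one edge removed.
-/

namespace Pool.Agent.P.MP_324c94_co

namespace UB

open Tile

/-- Vertices of the subdivided chain. -/
abbrev VV (T : ℕ) : Type := SV (BV T) (BE T) bw

/-- Parameters of the drawing. -/
structure Par (T : ℕ) where
  j0 : ZMod T
  c0 : LC
  s0 : Bool
  ι : VV T → ℕ
  M : ℕ
  L : ℝ
  δ : ℝ
  hT : 2 ≤ T
  ι_inj : Function.Injective ι
  ι_lt : ∀ x, ι x < M
  hL : 1001000 * (T : ℝ) ^ 2 < L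
  hδ : 0 < δ
  hδL : δ * (L + M) ^ 2 < 1

variable {T : ℕ} (p : Par T)

/-- Position of a tile in the drawing. -/
def rr (j : ZMod T) : ℕ := (j - p.j0).val

/-- Vertical offset. -/
def off (r : ℕ) : ℂ := ⟨0, 1000 * (r : ℝ)⟩

/-- Abscissa of a vertex of the special tile. -/
noncomputable def absc (b : Bool) (i : ℕ) : ℝ := if b then -p.L - i else i / p.M

/-- Points of the parabola. -/
noncomputable def spos (b : Bool) (i : ℕ) : ℂ := ⟨absc p b i, p.δ * absc p b i ^ 2⟩

/-- Parameter of a copy. -/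
noncomputable def par (e : Fin 41) (k : ℕ) : ℝ := (k : ℝ) / lw e

/-- The positions of the vertices. -/
noncomputable def φ : VV T → ℂ
  | .inl (j, x) =>
    if rr p j = 0 then
      (if x = 0 then ⟨0, 1000 * (T : ℝ)⟩ else spos p (inA p.c0.1 x.castSucc) (p.ι (.inl (j, x))))
    else if x = 19 then ⟨-(1001 * (rr p j : ℝ) + 501), 1000 * (rr p j : ℝ) + 500⟩
    else if x = 20 then ⟨1001 * (rr p j : ℝ) + 501, 1000 * (rr p j : ℝ) + 500⟩
    else lp x.castSucc + off (rr p j)
  | .inr ⟨(j, e), k⟩ =>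
    if rr p j = 0 then spos p (midA p.c0 p.s0 ⟨e, k⟩) (p.ι (.inr ⟨(j, e), k⟩))
    else if e = 38 then ⟨0, -((rr p j : ℝ) + 1)⟩
    else lm e (par e k.val) + off (rr p j)

/-- The kind of a vertex. -/
def vtag : VV T → VT
  | .inl (j, x) =>
    if rr p j = 0 then
      (if x = 0 then .top else if inA p.c0.1 x.castSucc then .A else .B)
    else if x = 19 then .U (rr p j)
    else if x = 20 then .W (rr p j)
    else .core (rr p j)
  | .inr ⟨(j, e), k⟩ =>
    if rr p j = 0 then (if midA p.c0 p.s0 ⟨e, k⟩ then .A else .B)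
    else if e = 38 then .F (rr p j)
    else .core (rr p j)

theorem par_bound (e : Fin 41) (k : Fin (lw e)) : 0 ≤ par e k.val ∧ par e k.val < 1 := by
  have h : (k.val : ℝ) < lw e := by exact_mod_cast k.2
  have h0 : (0 : ℝ) ≤ k.val := by positivity
  have h1 : (0 : ℝ) < lw e := lt_of_le_of_lt h0 h
  exact ⟨div_nonneg h0 h1.le, (div_lt_one h1).2 h⟩

theorem par_inj (e : Fin 41) (k k' : Fin (lw e)) (h : par e k.val = par e k'.val) : k = k' := by
  have h1 : (k.val : ℝ) < lw e := by exact_mod_cast k.2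
  have h0 : (0 : ℝ) ≤ k.val := by positivity
  have h2 : (lw e : ℝ) ≠ 0 := (lt_of_le_of_lt h0 h1).ne'
  unfold par at h
  rw [div_left_inj' h2] at h
  exact Fin.ext (by exact_mod_cast h)

section

variable [NeZero T]

theorem rr_lt (j : ZMod T) : rr p j < T := ZMod.val_lt _

theorem rr_inj {j j' : ZMod T} (h : rr p j = rr p j') : j = j' := by
  have := ZMod.val_injective T h
  simpa using this

omit [NeZero T] in
theorem rr_zero {j : ZMod T} : rr p j = 0 ↔ j = p.j0 := by
  unfold rr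
  rw [ZMod.val_eq_zero, sub_eq_zero]

theorem rr_succ (j : ZMod T) : rr p (j + 1) = (rr p j + 1) % T := by
  have hT := p.hT
  have : Fact (1 < T) := ⟨by omega⟩
  unfold rr
  rw [show j + 1 - p.j0 = (j - p.j0) + 1 by ring, ZMod.val_add, ZMod.val_one]

theorem rr_real {j : ZMod T} (h : rr p j ≠ 0) :
    (1 : ℝ) ≤ rr p j ∧ (rr p j : ℝ) + 1 ≤ T := by
  have h1 := rr_lt p j
  constructor
  · exact_mod_cast Nat.one_le_iff_ne_zero.2 h
  · exact_mod_cast h1

end

include p in
theorem T_real : (2 : ℝ) ≤ T := by exact_mod_cast p.hT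

theorem L_pos : 0 < p.L := by
  have h := p.hL
  have := T_real p
  nlinarith

theorem psi_neg {z : ℂ} (h1 : z.im ≤ 1000 * (T : ℝ) - 1) (h2 : -(1001 * (T : ℝ)) ≤ z.re) :
    psi T p.L z < 0 := by
  have hL := p.hL
  have hT := T_real p
  have hL0 := L_pos p
  unfold psi
  have a1 : p.L * z.im ≤ p.L * (1000 * (T : ℝ) - 1) := mul_le_mul_of_nonneg_left h1 hL0.le
  have a2 : 1000 * (T : ℝ) * (-(1001 * (T : ℝ))) ≤ 1000 * (T : ℝ) * z.re :=
    mul_le_mul_of_nonneg_left h2 (by positivity)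
  nlinarith

theorem spos_A {i : ℕ} (hi : i < p.M) : ZV T p.L p.δ .A (spos p true i) := by
  have hL0 := L_pos p
  have hT := T_real p
  have hi' : (i : ℝ) < p.M := by exact_mod_cast hi
  have hi0 : (0 : ℝ) ≤ i := by positivity
  have hδ := p.hδ
  have hδL := p.hδL
  simp only [ZV, spos, absc, if_true, psi, hgt]
  refine ⟨by linarith, by positivity, ?_, ?_, by ring⟩
  · have : (-p.L - i) ^ 2 ≤ (p.L + p.M) ^ 2 := by nlinarith
    nlinarith
  · have : 0 ≤ p.L * (p.δ * (-p.L - i) ^ 2) := by positivity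
    nlinarith

theorem spos_B {i : ℕ} (hi : i < p.M) : ZV T p.L p.δ .B (spos p false i) := by
  have hL0 := L_pos p
  have hT := T_real p
  have hi' : (i : ℝ) < p.M := by exact_mod_cast hi
  have hi0 : (0 : ℝ) ≤ i := by positivity
  have hM : (0 : ℝ) < p.M := by linarith
  have hM1 : (1 : ℝ) ≤ p.M := by
    have : 1 ≤ p.M := by omega
    exact_mod_cast this
  have hδ := p.hδ
  have hδL := p.hδL
  have h0 : (0 : ℝ) ≤ i / p.M := by positivity
  have h1 : (i : ℝ) / p.M ≤ 1 := (div_le_one hM).2 hi'.le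
  simp only [ZV, spos, absc, hgt]
  refine ⟨by simpa using h0, by simpa using h1, by positivity, ?_, by ring⟩
  have : ((i : ℝ) / p.M) ^ 2 ≤ (p.L + p.M) ^ 2 := by nlinarith
  simp only [Bool.false_eq_true, if_false]
  nlinarith

theorem absc_inj {b : Bool} {i i' : ℕ} (hi : i < p.M) (h : absc p b i = absc p b i') : i = i' := by
  have hM : (p.M : ℝ) ≠ 0 := by
    have : p.M ≠ 0 := by omega
    exact_mod_cast this
  cases b
  · simp only [absc, Bool.false_eq_true, if_false] at h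
    rw [div_left_inj' hM] at h
    exact_mod_cast h
  · simp only [absc, if_true] at h
    have : (i : ℝ) = i' := by linarith
    exact_mod_cast this

theorem castSucc_ne {x : Fin 21} : (x ≠ 19 → x.castSucc ≠ 19) ∧ (x ≠ 20 → x.castSucc ≠ 20) ∧
    x.castSucc ≠ 21 ∧ (x ≠ 0 → x.castSucc ≠ 0) := by
  revert x; decide

variable [NeZero T]

theorem zv_mem (x : VV T) : ZV T p.L p.δ (vtag p x) (φ p x) := by
  have hT := T_real p
  rcases x with ⟨j, x⟩ | ⟨⟨j, e⟩, k⟩
  · simp only [vtag, φ]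
    split_ifs with h0 h1 h2 h3 h4
    · simp only [ZV, psi]
      exact ⟨trivial, trivial, by linarith⟩
    · rw [h2]; exact spos_A p (p.ι_lt _)
    · rw [Bool.not_eq_true] at h2
      rw [h2]; exact spos_B p (p.ι_lt _)
    · obtain ⟨r1, r2⟩ := rr_real p h0
      exact ⟨r1, r2, rfl, rfl, psi_neg p (by simp only; linarith) (by simp only; linarith)⟩
    · obtain ⟨r1, r2⟩ := rr_real p h0
      exact ⟨r1, r2, rfl, rfl, psi_neg p (by simp only; linarith) (by simp only; linarith)⟩
    · obtain ⟨r1, r2⟩ := rr_real p h0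
      obtain ⟨b1, b2, b3, b4, b5⟩ := lp_bound (castSucc_ne.1 h3) (castSucc_ne.2.1 h4)
      have b6 := b5 castSucc_ne.2.2.1
      have e1 : (lp x.castSucc + off (rr p j)).re = (lp x.castSucc).re := by simp [off]
      have e2 : (lp x.castSucc + off (rr p j)).im = (lp x.castSucc).im + 1000 * (rr p j : ℝ) := by
        simp [off]
      exact ⟨r1, r2, by linarith, by linarith, by linarith, by linarith,
        psi_neg p (by linarith) (by linarith)⟩
  · simp only [vtag, φ]
    split_ifs with h0 h2 h3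
    · rw [h2]; exact spos_A p (p.ι_lt _)
    · rw [Bool.not_eq_true] at h2
      rw [h2]; exact spos_B p (p.ι_lt _)
    · obtain ⟨r1, r2⟩ := rr_real p h0
      exact ⟨r1, r2, rfl, rfl, psi_neg p (by simp only; linarith) (by simp only; linarith)⟩
    · obtain ⟨r1, r2⟩ := rr_real p h0
      obtain ⟨t0, t1⟩ := par_bound e k
      obtain ⟨b1, b2, b3, b4⟩ := lm_bound e t0 t1.le
      have e1 : (lm e (par e k.val) + off (rr p j)).re = (lm e (par e k.val)).re := by simp [off]
      have e2 : (lm e (par e k.val) + off (rr p j)).im =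
          (lm e (par e k.val)).im + 1000 * (rr p j : ℝ) := by simp [off]
      exact ⟨r1, r2, by linarith, by linarith, by linarith, by linarith,
        psi_neg p (by linarith) (by linarith)⟩

omit [NeZero T] in
theorem tag_A {x : VV T} (h : vtag p x = .A) : φ p x = spos p true (p.ι x) := by
  rcases x with ⟨j, x⟩ | ⟨⟨j, e⟩, k⟩
  · simp only [vtag, φ] at h ⊢
    split_ifs at h ⊢ with h0 h1 h2
    rw [h2]
  · simp only [vtag, φ] at h ⊢
    split_ifs at h ⊢ with h0 h2
    rw [h2]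

omit [NeZero T] in
theorem tag_B {x : VV T} (h : vtag p x = .B) : φ p x = spos p false (p.ι x) := by
  rcases x with ⟨j, x⟩ | ⟨⟨j, e⟩, k⟩
  · simp only [vtag, φ] at h ⊢
    split_ifs at h ⊢ with h0 h1 h2
    rw [Bool.not_eq_true] at h2
    rw [h2]
  · simp only [vtag, φ] at h ⊢
    split_ifs at h ⊢ with h0 h2
    rw [Bool.not_eq_true] at h2
    rw [h2]

omit [NeZero T] in
theorem tag_top {x : VV T} (h : vtag p x = .top) : x = .inl (p.j0, 0) := by
  rcases x with ⟨j, x⟩ | ⟨⟨j, e⟩, k⟩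
  · simp only [vtag] at h
    split_ifs at h with h0 h1 h2
    rw [(rr_zero p).1 h0, h1]
  · simp only [vtag] at h
    split_ifs at h

omit [NeZero T] in
theorem tag_U {x : VV T} {r : ℕ} (h : vtag p x = .U r) : ∃ j, rr p j = r ∧ x = .inl (j, 19) := by
  rcases x with ⟨j, x⟩ | ⟨⟨j, e⟩, k⟩
  · simp only [vtag] at h
    split_ifs at h with h0 h1 h2 h3
    exact ⟨j, by injection h, by rw [h3]⟩
  · simp only [vtag] at h
    split_ifs at h

omit [NeZero T] in
theorem tag_W {x : VV T} {r : ℕ} (h : vtag p x = .W r) : ∃ j, rr p j = r ∧ x = .inl (j, 20) := by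
  rcases x with ⟨j, x⟩ | ⟨⟨j, e⟩, k⟩
  · simp only [vtag] at h
    split_ifs at h with h0 h1 h2 h3 h4
    exact ⟨j, by injection h, by rw [h4]⟩
  · simp only [vtag] at h
    split_ifs at h

theorem lw38 : lw 38 = 1 := by decide +kernel

omit [NeZero T] in
theorem tag_F {x : VV T} {r : ℕ} (h : vtag p x = .F r) :
    ∃ j, rr p j = r ∧ x = .inr ⟨(j, 38), ⟨0, lt_of_lt_of_eq Nat.one_pos lw38.symm⟩⟩ := by
  rcases x with ⟨j, x⟩ | ⟨⟨j, e⟩, k⟩
  · simp only [vtag] at h
    split_ifs at h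
  · simp only [vtag] at h
    split_ifs at h with h0 h1 h2
    subst h2
    refine ⟨j, by injection h, ?_⟩
    have hk : k.val < 1 := lt_of_lt_of_eq k.2 lw38
    have : k = ⟨0, lt_of_lt_of_eq Nat.one_pos lw38.symm⟩ := Fin.ext (by simp only; omega)
    rw [this]

omit [NeZero T] in
theorem tag_core {x : VV T} {r : ℕ} (h : vtag p x = .core r) :
    (∃ j a, rr p j = r ∧ x = .inl (j, a) ∧ φ p x = lp a.castSucc + off r) ∨
    (∃ j e, ∃ k : Fin (lw e), rr p j = r ∧ x = .inr ⟨(j, e), k⟩ ∧ e ≠ 38 ∧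
      φ p x = lm e (par e k.val) + off r) := by
  rcases x with ⟨j, x⟩ | ⟨⟨j, e⟩, k⟩
  · simp only [vtag, φ] at h ⊢
    split_ifs at h ⊢ with h0 h1 h2 h3 h4
    have hr : rr p j = r := by injection h
    exact Or.inl ⟨j, x, hr, rfl, by rw [hr]⟩
  · simp only [vtag, φ] at h ⊢
    split_ifs at h ⊢ with h0 h1 h2
    have hr : rr p j = r := by injection h
    exact Or.inr ⟨j, e, k, hr, rfl, h2, by rw [hr]⟩

theorem φ_inj : Function.Injective (φ p) := by
  intro x y hxy
  have hT := T_real p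
  have ht : vtag p x = vtag p y :=
    zvv (by linarith) (zv_mem p x) (hxy ▸ zv_mem p y)
  rcases hx : vtag p x with r | r | r | r | _ | _ | _ <;> rw [hx] at ht
  · rcases tag_core p hx with ⟨j, a, h1, h2, h3⟩ | ⟨j, e, k, h1, h2, he, h3⟩ <;>
      rcases tag_core p ht.symm with ⟨j', a', h1', h2', h3'⟩ | ⟨j', e', k', h1', h2', he', h3'⟩ <;>
      obtain rfl : j = j' := rr_inj p (h1.trans h1'.symm) <;>
      rw [h3, h3', add_left_inj] at hxy
    · have := lp_inj hxy
      rw [h2, h2', Fin.castSucc_injective _ this]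
    · exact absurd hxy.symm (lm_ne_lp he' _ (par_bound e' k').1 (par_bound e' k').2)
    · exact absurd hxy (lm_ne_lp he _ (par_bound e k).1 (par_bound e k).2)
    · obtain ⟨rfl, h⟩ := lm_inj he he' (par_bound e k).1 (par_bound e k).2 (par_bound e' k').1
        (par_bound e' k').2 hxy
      rw [h2, h2', par_inj e k k' h]
  · obtain ⟨j, h1, h2⟩ := tag_U p hx
    obtain ⟨j', h1', h2'⟩ := tag_U p ht.symm
    rw [h2, h2', rr_inj p (h1.trans h1'.symm)]
  · obtain ⟨j, h1, h2⟩ := tag_W p hx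
    obtain ⟨j', h1', h2'⟩ := tag_W p ht.symm
    rw [h2, h2', rr_inj p (h1.trans h1'.symm)]
  · obtain ⟨j, h1, h2⟩ := tag_F p hx
    obtain ⟨j', h1', h2'⟩ := tag_F p ht.symm
    obtain rfl : j = j' := rr_inj p (h1.trans h1'.symm)
    rw [h2, h2']
  · rw [tag_A p hx, tag_A p ht.symm] at hxy
    exact p.ι_inj (absc_inj p (b := true) (p.ι_lt _) (congrArg Complex.re hxy))
  · rw [tag_B p hx, tag_B p ht.symm] at hxy
    exact p.ι_inj (absc_inj p (b := false) (p.ι_lt _) (congrArg Complex.re hxy))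
  · rw [tag_top p hx, tag_top p ht.symm]

end UB

end Pool.Agent.P.MP_324c94_co
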