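import Pool.Agent.P.MP_324c94_co.Draw

/-!
Zones of the edges of the straight-line drawing.
-/

namespace Pool.Agent.P.MP_324c94_co

namespace UB

open Tile

variable {T : ℕ} (p : Par T)

/-- The base end of a half edge. -/
def ea (j : ZMod T) (c : LC) (s : Bool) : VV T := .inl (emb j (apex c.1 s))

/-- The subdividing end of a half edge. -/
def em (j : ZMod T) (c : LC) : VV T := .inr ⟨(j, c.1), c.2⟩

/-- The kind of a half edge. -/
def etag (j : ZMod T) (c : LC) (s : Bool) : ET :=
  if rr p j = 0 then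
    (if inA p.c0.1 (apex c.1 s) = midA p.c0 p.s0 c then
      (if midA p.c0 p.s0 c then .out else .inn) else .cut)
  else if c.1 = 38 then (if s then .LR (rr p j) else .LL (rr p j))
  else if apex c.1 s = 19 then .WL (rr p j)
  else if apex c.1 s = 20 then .WR (rr p j)
  else .core (rr p j)

theorem emb_cases (j : ZMod T) (x : Fin 22) :
    (x = 21 ∧ emb j x = (j + 1, 0)) ∨ ∃ a : Fin 21, x = a.castSucc ∧ emb j x = (j, a) := by
  unfold emb
  split_ifs with h
  · exact Or.inr ⟨⟨x.val, h⟩, Fin.ext rfl, rfl⟩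
  · exact Or.inl ⟨Fin.ext (by have := x.2; change x.val = 21; omega), rfl⟩

theorem lp_zero : lp 0 = 0 := by
  have : lpz 0 = (0, 0) := by decide +kernel
  apply Complex.ext <;> simp [Tile.lp, toC, this]

theorem lp_last : lp 21 = ⟨0, 1000⟩ := by
  have : lpz 21 = (0, 1000) := by decide +kernel
  apply Complex.ext <;> simp [Tile.lp, toC, this]

theorem lp_last_cases (x : Fin 22) : x ≠ 21 ∨ lp x = ⟨0, 1000⟩ := by
  by_cases h : x = 21
  · right; rw [h, lp_last]
  · left; exact h

theorem φ_em_norm {j : ZMod T} (h0 : rr p j ≠ 0) {c : LC} (hc : c.1 ≠ 38) :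
    φ p (em j c) = lm c.1 (par c.1 c.2.val) + off (rr p j) := by
  simp only [em, φ, if_neg h0, if_neg hc]

theorem φ_em_loop {j : ZMod T} (h0 : rr p j ≠ 0) {c : LC} (hc : c.1 = 38) :
    φ p (em j c) = ⟨0, -((rr p j : ℝ) + 1)⟩ := by
  simp only [em, φ, if_neg h0, if_pos hc]

theorem φ_em_sp {j : ZMod T} (h0 : rr p j = 0) (c : LC) :
    φ p (em j c) = spos p (midA p.c0 p.s0 c) (p.ι (em j c)) := by
  simp only [em, φ, if_pos h0]

theorem φ_U {j : ZMod T} (h0 : rr p j ≠ 0) : φ p (.inl (emb j 19)) =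
    ⟨-(1001 * (rr p j : ℝ) + 501), 1000 * (rr p j : ℝ) + 500⟩ := by
  have : emb j 19 = (j, 19) := rfl
  simp only [this, φ, if_neg h0, if_true]

theorem φ_W {j : ZMod T} (h0 : rr p j ≠ 0) : φ p (.inl (emb j 20)) =
    ⟨1001 * (rr p j : ℝ) + 501, 1000 * (rr p j : ℝ) + 500⟩ := by
  have : emb j 20 = (j, 20) := rfl
  have h : ¬ ((20 : Fin 21) = 19) := by decide
  simp only [this, φ, if_neg h0, if_neg h, if_true]

theorem φ_top {j : ZMod T} (h0 : rr p j = 0) : φ p (.inl (emb j 0)) = ⟨0, 1000 * (T : ℝ)⟩ := by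
  have : emb j 0 = (j, 0) := rfl
  simp only [this, φ, if_pos h0, if_true]

theorem φ_sp {j : ZMod T} (h0 : rr p j = 0) {x : Fin 22} (h1 : x ≠ 0) (h2 : x ≠ 21) :
    φ p (.inl (emb j x)) = spos p (inA p.c0.1 x) (p.ι (.inl (emb j x))) := by
  rcases emb_cases j x with ⟨h, -⟩ | ⟨a, rfl, h⟩
  · exact absurd h h2
  · have ha : a ≠ 0 := by rintro rfl; exact h1 rfl
    simp only [h, φ, if_pos h0, if_neg ha]

variable [NeZero T]

omit [NeZero T] in
theorem φ_zero_norm {j : ZMod T} (h0 : rr p j ≠ 0) : φ p (.inl (j, 0)) = off (rr p j) := by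
  have h1 : ¬ ((0 : Fin 21) = 19) := by decide
  have h2 : ¬ ((0 : Fin 21) = 20) := by decide
  simp only [φ, if_neg h0, if_neg h1, if_neg h2]
  have : (0 : Fin 21).castSucc = 0 := rfl
  rw [this, lp_zero, zero_add]

theorem φ_core {j : ZMod T} (h0 : rr p j ≠ 0) {x : Fin 22} (h1 : x ≠ 19) (h2 : x ≠ 20) :
    φ p (.inl (emb j x)) = lp x + off (rr p j) := by
  rcases emb_cases j x with ⟨rfl, h⟩ | ⟨a, rfl, h⟩
  · rw [h, lp_last]
    have hs := rr_succ p j
    have hlt := rr_lt p j
    by_cases hT : rr p j + 1 = T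
    · have h3 : rr p (j + 1) = 0 := by rw [hs, hT, Nat.mod_self]
      have h4 : (T : ℝ) = rr p j + 1 := by exact_mod_cast hT.symm
      simp only [φ, if_pos h3, if_true]
      apply Complex.ext
      · simp [off]
      · simp only [off, Complex.add_im]; rw [h4]; ring
    · have h3 : rr p (j + 1) = rr p j + 1 := by rw [hs, Nat.mod_eq_of_lt (by omega)]
      rw [φ_zero_norm p (by omega), h3]
      apply Complex.ext
      · simp [off]
      · simp only [off, Complex.add_im]; push_cast; ring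
  · have ha : a ≠ 19 := by rintro rfl; exact h1 rfl
    have hb : a ≠ 20 := by rintro rfl; exact h2 rfl
    simp only [h, φ, if_neg h0, if_neg ha, if_neg hb]

theorem φ_bot {j : ZMod T} (h0 : rr p j = 0) : φ p (.inl (emb j 21)) = ⟨0, 1000⟩ := by
  have h : emb j 21 = (j + 1, 0) := rfl
  have hT := p.hT
  have h3 : rr p (j + 1) = 1 := by rw [rr_succ, h0, Nat.mod_eq_of_lt (by omega)]
  rw [h, φ_zero_norm p (by omega), h3]
  apply Complex.ext <;> simp [off]

omit [NeZero T] in
theorem os_aff {a b z : ℂ} (hz : z ∈ openSegment ℝ a b) :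
    ∃ α β : ℝ, 0 < α ∧ 0 < β ∧ α + β = 1 ∧ z.re = α * a.re + β * b.re ∧
      z.im = α * a.im + β * b.im := by
  obtain ⟨α, β, h1, h2, h3, rfl⟩ := hz
  exact ⟨α, β, h1, h2, h3, by simp, by simp⟩

omit [NeZero T] in
theorem psi_os {T L : ℝ} {a b z : ℂ} (hz : z ∈ openSegment ℝ a b) :
    (psi T L a ≤ 0 → psi T L b < 0 → psi T L z < 0) ∧
    (0 ≤ psi T L a → 0 ≤ psi T L b → 0 ≤ psi T L z) := by
  obtain ⟨α, β, h1, h2, h3, e1, e2⟩ := os_aff hz
  have key : psi T L z = α * psi T L a + β * psi T L b := by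
    unfold psi
    rw [e1, e2]
    linear_combination (1000 * T * L) * h3
  constructor
  · intro ha hb
    rw [key]
    nlinarith [mul_nonneg h1.le (neg_nonneg.2 ha), mul_pos h2 (neg_pos.2 hb)]
  · intro ha hb
    rw [key]
    positivity

omit [NeZero T] in
theorem hgt_os {δ : ℝ} (hδ : 0 < δ) {a b z : ℂ} (hz : z ∈ openSegment ℝ a b) (ha : 0 ≤ hgt δ a)
    (hb : 0 ≤ hgt δ b) (hab : 0 < hgt δ a ∨ a.re ≠ b.re) : 0 < hgt δ z := by
  obtain ⟨α, β, h1, h2, h3, e1, e2⟩ := os_aff hz
  have key : hgt δ z = α * hgt δ a + β * hgt δ b + δ * α * β * (a.re - b.re) ^ 2 := by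
    unfold hgt
    rw [e1, e2]
    have hβ : β = 1 - α := by linarith
    subst hβ
    ring
  rw [key]
  rcases hab with h | h
  · positivity
  · have : 0 < (a.re - b.re) ^ 2 := by
      have := sub_ne_zero.2 h
      positivity
    positivity

omit [NeZero T] in
theorem lin_os {a b z : ℂ} (hz : z ∈ openSegment ℝ a b) (f g c : ℝ) :
    (f * a.re + g * a.im ≤ c → f * b.re + g * b.im ≤ c → f * z.re + g * z.im ≤ c) ∧
    (f * a.re + g * a.im < c → f * b.re + g * b.im ≤ c → f * z.re + g * z.im < c) ∧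
    (f * a.re + g * a.im ≤ c → f * b.re + g * b.im < c → f * z.re + g * z.im < c) := by
  obtain ⟨α, β, h1, h2, h3, e1, e2⟩ := os_aff hz
  have key : f * z.re + g * z.im - c =
      α * (f * a.re + g * a.im - c) + β * (f * b.re + g * b.im - c) := by
    rw [e1, e2]
    linear_combination c * h3
  refine ⟨fun ha hb => ?_, fun ha hb => ?_, fun ha hb => ?_⟩
  · nlinarith [mul_nonneg h1.le (sub_nonneg.2 ha), mul_nonneg h2.le (sub_nonneg.2 hb)]
  · nlinarith [mul_pos h1 (sub_pos.2 ha), mul_nonneg h2.le (sub_nonneg.2 hb)]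
  · nlinarith [mul_nonneg h1.le (sub_nonneg.2 ha), mul_pos h2 (sub_pos.2 hb)]

theorem spos_re_ne {x y : VV T} (hxy : x ≠ y) {b b' : Bool} (hx : φ p x = spos p b (p.ι x))
    (hy : φ p y = spos p b' (p.ι y)) : (spos p b (p.ι x)).re ≠ (spos p b' (p.ι y)).re := by
  intro h
  apply hxy
  apply φ_inj p
  rw [hx, hy]
  apply Complex.ext h
  simp only [spos] at h ⊢
  rw [h]

theorem ze_special {j : ZMod T} (h0 : rr p j = 0) {c : LC} {s : Bool}
    (hne : (c, s) ≠ (p.c0, p.s0)) {z : ℂ}
    (hz : z ∈ openSegment ℝ (φ p (ea j c s)) (φ p (em j c))) :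
    ZE T p.L p.δ (etag p j c s) z := by
  have hT := T_real p
  have hδ := p.hδ
  have hm := φ_em_sp p h0 c
  have hne' : ea j c s ≠ em j c := by simp [ea, em]
  have l := lin_os hz
  have ps := (psi_os (T := (T : ℝ)) (L := p.L) hz).2
  have hg := hgt_os hδ hz
  simp only [etag, if_pos h0]
  by_cases hx0 : apex c.1 s = 0
  · have hmid := midA_zero hne hx0
    have ha : φ p (ea j c s) = ⟨0, 1000 * (T : ℝ)⟩ := by rw [ea, hx0, φ_top p h0]
    rw [hmid] at hm
    obtain ⟨b1, b2, b3, b4, b5⟩ := spos_A p (p.ι_lt (em j c))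
    rw [← hm] at b1 b2 b3 b4 b5
    rw [hx0, inA_zero, hmid]
    simp only [if_true, ZE]
    rw [ha] at l ps hg
    refine ⟨?_, ps (by simp only [psi]; linarith) b4, hg ?_ b5.ge (Or.inl ?_)⟩
    · have := (l 1 0 0).2.2 (by simp) (by linarith)
      linarith
    · simp only [hgt]; nlinarith
    · simp only [hgt]; nlinarith
  by_cases hx1 : apex c.1 s = 21
  · have hmid := midA_last hne hx1
    have ha : φ p (ea j c s) = ⟨0, 1000⟩ := by rw [ea, hx1, φ_bot p h0]
    rw [hmid] at hm
    obtain ⟨b1, b2, b3, b4, b5⟩ := spos_B p (p.ι_lt (em j c))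
    rw [← hm] at b1 b2 b3 b4 b5
    rw [hx1, inA_last, hmid]
    simp only [if_true, ZE, Bool.false_eq_true, if_false]
    rw [ha] at l hg
    refine ⟨?_, ?_, ?_, ?_, hg ?_ b5.ge (Or.inl ?_)⟩
    · have := (l (-1) 0 0).1 (by simp) (by linarith)
      linarith
    · have := (l 1 0 1).1 (by simp) (by linarith)
      linarith
    · have := (l 0 (-1) 0).1 (by simp) (by linarith)
      linarith
    · have := (l 0 1 1000).2.2 (by simp) (by linarith)
      linarith
    · simp only [hgt]; nlinarith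
    · simp only [hgt]; nlinarith
  have ha : φ p (ea j c s) = spos p (inA p.c0.1 (apex c.1 s)) (p.ι (ea j c s)) :=
    φ_sp p h0 hx0 hx1
  have hre := spos_re_ne p hne' ha hm
  rw [← ha, ← hm] at hre
  have zA := spos_A p (p.ι_lt (ea j c s))
  have zB := spos_B p (p.ι_lt (ea j c s))
  have mA := spos_A p (p.ι_lt (em j c))
  have mB := spos_B p (p.ι_lt (em j c))
  cases h1 : inA p.c0.1 (apex c.1 s) <;> cases h2 : midA p.c0 p.s0 c <;>
    rw [h1] at ha <;> rw [h2] at hm
  · rw [← ha] at zB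
    rw [← hm] at mB
    obtain ⟨a1, a2, a3, a4, a5⟩ := zB
    obtain ⟨b1, b2, b3, b4, b5⟩ := mB
    simp only [if_true, ZE, Bool.false_eq_true, if_false]
    refine ⟨?_, ?_, ?_, ?_, hg a5.ge b5.ge (Or.inr hre)⟩
    · have := (l (-1) 0 0).1 (by linarith) (by linarith)
      linarith
    · have := (l 1 0 1).1 (by linarith) (by linarith)
      linarith
    · have := (l 0 (-1) 0).1 (by linarith) (by linarith)
      linarith
    · have := (l 0 1 1000).2.2 (by linarith) (by linarith)
      linarith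
  · rw [← ha] at zB
    rw [← hm] at mA
    obtain ⟨a1, a2, a3, a4, a5⟩ := zB
    obtain ⟨b1, b2, b3, b4, b5⟩ := mA
    simp only [ZE, Bool.false_eq_true, if_false]
    refine ⟨?_, ?_, ?_, hg a5.ge b5.ge (Or.inr hre)⟩
    · have := (l 1 0 1).1 (by linarith) (by linarith)
      linarith
    · have := (l 0 (-1) 0).1 (by linarith) (by linarith)
      linarith
    · have := (l 0 1 1).2.2 (by linarith) (by linarith)
      linarith
  · rw [← ha] at zA
    rw [← hm] at mB
    obtain ⟨a1, a2, a3, a4, a5⟩ := zA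
    obtain ⟨b1, b2, b3, b4, b5⟩ := mB
    simp only [ZE, Bool.true_eq_false, if_false]
    refine ⟨?_, ?_, ?_, hg a5.ge b5.ge (Or.inr hre)⟩
    · have := (l 1 0 1).1 (by linarith) (by linarith)
      linarith
    · have := (l 0 (-1) 0).1 (by linarith) (by linarith)
      linarith
    · have := (l 0 1 1).2.2 (by linarith) (by linarith)
      linarith
  · rw [← ha] at zA
    rw [← hm] at mA
    obtain ⟨a1, a2, a3, a4, a5⟩ := zA
    obtain ⟨b1, b2, b3, b4, b5⟩ := mA
    simp only [if_true, ZE]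
    refine ⟨?_, ps a4 b4, hg a5.ge b5.ge (Or.inr hre)⟩
    have := (l 1 0 0).2.2 (by linarith) (by linarith)
    linarith

theorem ze_normal {j : ZMod T} (h0 : rr p j ≠ 0) {c : LC} {s : Bool} {z : ℂ}
    (hz : z ∈ openSegment ℝ (φ p (ea j c s)) (φ p (em j c))) :
    ZE T p.L p.δ (etag p j c s) z := by
  have hT := T_real p
  obtain ⟨r1, r2⟩ := rr_real p h0
  have l := lin_os hz
  have ps := (psi_os (T := (T : ℝ)) (L := p.L) hz).1
  obtain ⟨t0, t1⟩ := par_bound c.1 c.2
  obtain ⟨b1, b2, b3, b4⟩ := lm_bound c.1 t0 t1.le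
  have e1 : (lm c.1 (par c.1 c.2.val) + off (rr p j)).re = (lm c.1 (par c.1 c.2.val)).re := by
    simp [off]
  have e2 : (lm c.1 (par c.1 c.2.val) + off (rr p j)).im =
      (lm c.1 (par c.1 c.2.val)).im + 1000 * (rr p j : ℝ) := by simp [off]
  have pm : psi T p.L (lm c.1 (par c.1 c.2.val) + off (rr p j)) < 0 :=
    psi_neg p (by linarith) (by linarith)
  have pf : psi T p.L ⟨0, -((rr p j : ℝ) + 1)⟩ < 0 :=
    psi_neg p (by simp only; linarith) (by simp only; linarith)
  have pu : psi T p.L ⟨-(1001 * (rr p j : ℝ) + 501), 1000 * (rr p j : ℝ) + 500⟩ < 0 :=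
    psi_neg p (by simp only; linarith) (by simp only; linarith)
  have pw : psi T p.L ⟨1001 * (rr p j : ℝ) + 501, 1000 * (rr p j : ℝ) + 500⟩ < 0 :=
    psi_neg p (by simp only; linarith) (by simp only; linarith)
  simp only [etag, if_neg h0]
  rcases apex_cases c.1 s with ⟨-, h1, h2, h3⟩ | ⟨h1, h2⟩ | ⟨h1, h2⟩ | ⟨h1, h2, h3⟩ | ⟨h1, h2, h3⟩
  · simp only [if_neg h1, if_neg h2, if_neg h3, ZE]
    have ha : φ p (ea j c s) = lp (apex c.1 s) + off (rr p j) := φ_core p h0 h2 h3
    rw [ha, φ_em_norm p h0 h1] at l ps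
    obtain ⟨a1, a2, a3, a4, a5⟩ := lp_bound h2 h3
    have f1 : (lp (apex c.1 s) + off (rr p j)).re = (lp (apex c.1 s)).re := by simp [off]
    have f2 : (lp (apex c.1 s) + off (rr p j)).im =
        (lp (apex c.1 s)).im + 1000 * (rr p j : ℝ) := by simp [off]
    refine ⟨r1, r2, ?_, ?_, ?_, ?_, ps ?_ pm⟩
    · have := (l 0 (-1) (-(1000 * (rr p j : ℝ)))).2.2 (by linarith) (by linarith)
      linarith
    · have := (l 0 1 (1000 * (rr p j : ℝ) + 1000)).2.2 (by linarith) (by linarith)
      linarith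
    · have := (l (-1) 0 700).1 (by linarith) (by linarith)
      linarith
    · have := (l 1 0 700).1 (by linarith) (by linarith)
      linarith
    · rcases lp_last_cases (apex c.1 s) with h | h
      · have := a5 h
        exact (psi_neg p (by linarith) (by linarith)).le
      · have hL0 := L_pos p
        unfold psi
        rw [f1, f2, h]
        nlinarith
  · have h3 : c.1 ≠ 38 := by rcases h2 with h | h <;> rw [h] <;> decide
    simp only [if_neg h3, if_pos h1, ZE]
    have ha : φ p (ea j c s) =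
        ⟨-(1001 * (rr p j : ℝ) + 501), 1000 * (rr p j : ℝ) + 500⟩ := by
      rw [ea, h1, φ_U p h0]
    rw [ha, φ_em_norm p h0 h3] at l ps
    have b5 := lm_left h2 (par c.1 c.2.val)
    refine ⟨r1, r2, ?_, ?_, ?_, ?_, ps pu.le pm⟩
    · have := (l 0 (-1) (-(1000 * (rr p j : ℝ)))).2.2 (by simp only; linarith) (by linarith)
      linarith
    · have := (l 0 1 (1000 * (rr p j : ℝ) + 1000)).2.2 (by simp only; linarith) (by linarith)
      linarith
    · have := (l 1 0 (-700)).2.1 (by simp only; linarith) (by linarith)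
      linarith
    · have := (l (-1) (-1) ((rr p j : ℝ) + 1)).2.2 (by simp only; linarith) (by linarith)
      linarith
  · have h3 : c.1 ≠ 38 := by rcases h2 with h | h <;> rw [h] <;> decide
    have h4 : apex c.1 s ≠ 19 := by rw [h1]; decide
    simp only [if_neg h3, if_neg h4, if_pos h1, ZE]
    have ha : φ p (ea j c s) =
        ⟨1001 * (rr p j : ℝ) + 501, 1000 * (rr p j : ℝ) + 500⟩ := by
      rw [ea, h1, φ_W p h0]
    rw [ha, φ_em_norm p h0 h3] at l ps
    have b5 := lm_right h2 (par c.1 c.2.val)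
    refine ⟨r1, r2, ?_, ?_, ?_, ?_, ps pw.le pm⟩
    · have := (l 0 (-1) (-(1000 * (rr p j : ℝ)))).2.2 (by simp only; linarith) (by linarith)
      linarith
    · have := (l 0 1 (1000 * (rr p j : ℝ) + 1000)).2.2 (by simp only; linarith) (by linarith)
      linarith
    · have := (l (-1) 0 (-700)).2.1 (by simp only; linarith) (by linarith)
      linarith
    · have := (l 1 (-1) ((rr p j : ℝ) + 1)).2.2 (by simp only; linarith) (by linarith)
      linarith
  · subst h2
    simp only [if_pos h1, Bool.false_eq_true, if_false, ZE]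
    have ha : φ p (ea j c false) =
        ⟨-(1001 * (rr p j : ℝ) + 501), 1000 * (rr p j : ℝ) + 500⟩ := by
      rw [ea, h3, φ_U p h0]
    rw [ha, φ_em_loop p h0 h1] at l ps
    refine ⟨r1, r2, ?_, ?_, ?_, ps pu.le pf⟩
    · have a1 := (l 1 1 (-((rr p j : ℝ) + 1))).1 (by simp only; linarith) (by simp only; linarith)
      have a2 := (l (-1) (-1) ((rr p j : ℝ) + 1)).1 (by simp only; linarith)
        (by simp only; linarith)
      linarith
    · have := (l 1 0 0).2.1 (by simp only; linarith) (by simp only; linarith)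
      linarith
    · have := (l 0 1 (1000 * (rr p j : ℝ) + 500)).2.2 (by simp only; linarith)
        (by simp only; linarith)
      linarith
  · subst h2
    simp only [if_pos h1, if_true, ZE]
    have ha : φ p (ea j c true) =
        ⟨1001 * (rr p j : ℝ) + 501, 1000 * (rr p j : ℝ) + 500⟩ := by
      rw [ea, h3, φ_W p h0]
    rw [ha, φ_em_loop p h0 h1] at l ps
    refine ⟨r1, r2, ?_, ?_, ?_, ps pw.le pf⟩
    · have a1 := (l (-1) 1 (-((rr p j : ℝ) + 1))).1 (by simp only; linarith)
        (by simp only; linarith)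
      have a2 := (l 1 (-1) ((rr p j : ℝ) + 1)).1 (by simp only; linarith)
        (by simp only; linarith)
      linarith
    · have := (l (-1) 0 0).2.1 (by simp only; linarith) (by simp only; linarith)
      linarith
    · have := (l 0 1 (1000 * (rr p j : ℝ) + 500)).2.2 (by simp only; linarith)
        (by simp only; linarith)
      linarith

theorem ze_mem {j : ZMod T} {c : LC} {s : Bool} (hne : (j, c, s) ≠ (p.j0, p.c0, p.s0)) {z : ℂ}
    (hz : z ∈ openSegment ℝ (φ p (ea j c s)) (φ p (em j c))) :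
    ZE T p.L p.δ (etag p j c s) z := by
  by_cases h0 : rr p j = 0
  · refine ze_special p h0 (fun h => hne ?_) hz
    rw [(rr_zero p).1 h0, h]
  · exact ze_normal p h0 hz

end UB

end Pool.Agent.P.MP_324c94_co
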