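import Mathlib

set_option autoImplicit false

namespace Pool.Agent.P.MP_324c94_co.Geo

open Complex Set

/-- a nowhere vanishing continuous function on a simply connected space has a continuous log -/
lemma exists_log {A : Type} [TopologicalSpace A] [SimplyConnectedSpace A]
    [LocallyPathConnectedSpace A] (g : A → ℂ) (hg : Continuous g) (h0 : ∀ x, g x ≠ 0) :
    ∃ L : A → ℂ, Continuous L ∧ ∀ x, exp (L x) = g x := by
  obtain ⟨x₀⟩ : Nonempty A := inferInstance
  rcases isCoveringMapOn_exp.existsUnique_continuousMap_lifts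
    (⟨g, hg⟩ : C(A, ℂ)) (a₀ := x₀) (exp_log (h0 x₀)) (fun x ↦ by simpa using h0 x)
    with ⟨f, ⟨-, hf⟩, -⟩
  exact ⟨f, f.continuous, fun x ↦ by simpa using congr($hf x)⟩

/-- two continuous logs of the same function on the line have the same increments -/
lemma log_unique (L M : ℝ → ℂ) (hL : Continuous L) (hM : Continuous M)
    (h : ∀ s, exp (L s) = exp (M s)) : L 1 - L 0 = M 1 - M 0 := by
  have hc : Continuous fun s => L s + (M 0 - L 0) := by fun_prop
  have he : exp (M 0 - L 0) = 1 := by rw [exp_sub, h 0, div_self (exp_ne_zero _)]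
  have key : (fun s => L s + (M 0 - L 0)) = M := by
    refine isCoveringMap_exp.eq_of_comp_eq hc hM ?_ 0 (by simp)
    funext s
    simp only [Function.comp_apply, Subtype.mk.injEq]
    rw [exp_add, he, mul_one, h s]
  have h1 : L 1 + (M 0 - L 0) = M 1 := congrFun key 1
  rw [← h1]; ring

/-- winding datum of a path with respect to a point -/
def IsK {x y : ℂ} (γ : Path x y) (z : ℂ) (n : ℤ) : Prop :=
  ∃ L : ℝ → ℂ, Continuous L ∧ (∀ s, exp (L s) = γ.extend s - z) ∧
    L 1 - L 0 = log (y - z) - log (x - z) + n * (2 * Real.pi * I)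

lemma two_pi_I_ne : (2 * Real.pi * I : ℂ) ≠ 0 := by
  simp [Real.pi_ne_zero]

lemma IsK.unique {x y : ℂ} {γ : Path x y} {z : ℂ} {n m : ℤ} (hn : IsK γ z n) (hm : IsK γ z m) :
    n = m := by
  obtain ⟨L, hL, hLe, hL1⟩ := hn
  obtain ⟨M, hM, hMe, hM1⟩ := hm
  have h := log_unique L M hL hM (fun s => by rw [hLe, hMe])
  rw [hL1, hM1] at h
  have h2 : (n : ℂ) * (2 * Real.pi * I) = m * (2 * Real.pi * I) := by linear_combination h
  have h3 : (n : ℂ) = m := mul_right_cancel₀ two_pi_I_ne h2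
  exact_mod_cast h3

lemma isK_of_log {x y : ℂ} (γ : Path x y) (z : ℂ) (L : ℝ → ℂ) (hL : Continuous L)
    (hLe : ∀ s, exp (L s) = γ.extend s - z) : ∃ n : ℤ, IsK γ z n ∧
      L 1 - L 0 = log (y - z) - log (x - z) + n * (2 * Real.pi * I) := by
  have h0 : exp (L 0) = x - z := by simpa using hLe 0
  have h1 : exp (L 1) = y - z := by simpa using hLe 1
  have hx : x - z ≠ 0 := h0 ▸ exp_ne_zero _
  have hy : y - z ≠ 0 := h1 ▸ exp_ne_zero _
  have : exp (L 1 - L 0) = exp (log (y - z) - log (x - z)) := by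
    rw [exp_sub, exp_sub, h0, h1, exp_log hx, exp_log hy]
  obtain ⟨n, hn⟩ := exp_eq_exp_iff_exists_int.mp this
  exact ⟨n, ⟨L, hL, hLe, hn⟩, hn⟩

open Classical in
/-- integer winding datum -/
noncomputable def KZ {x y : ℂ} (γ : Path x y) (z : ℂ) : ℤ :=
  if h : ∃ n, IsK γ z n then h.choose else 0

lemma KZ_eq {x y : ℂ} {γ : Path x y} {z : ℂ} {n : ℤ} (h : IsK γ z n) : KZ γ z = n := by
  have h' : ∃ n, IsK γ z n := ⟨n, h⟩
  rw [KZ, dif_pos h']
  exact h'.choose_spec.unique h

open Classical in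
/-- tournament on points -/
noncomputable def tau (w : ℂ) : ℤ := if arg (-w) = arg w - Real.pi then 0 else 1

lemma log_sub_log_neg {w : ℂ} (hw : w ≠ 0) :
    log w - log (-w) = Real.pi * I * (1 - 2 * (tau w : ℂ)) := by
  have hn : ‖-w‖ = ‖w‖ := norm_neg w
  by_cases h : arg (-w) = arg w - Real.pi
  · simp only [tau, if_pos h, log, hn, h]
    push_cast; ring
  · have h2 : arg (-w) = arg w + Real.pi := by
      rw [arg_neg_eq_arg_add_pi_iff]
      rw [arg_neg_eq_arg_sub_pi_iff] at h
      push Not at h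
      rcases lt_or_eq_of_le h.1 with h1 | h1
      · exact Or.inl h1
      · right
        refine ⟨h1, lt_of_le_of_ne (h.2 h1) ?_⟩
        intro h3
        exact hw (Complex.ext h3.symm h1)
    simp only [tau, if_neg h, log, hn]
    rw [h2]
    push_cast; ring

lemma tau_add {w : ℂ} (hw : w ≠ 0) : tau w + tau (-w) = 1 := by
  have h1 := log_sub_log_neg hw
  have h2 := log_sub_log_neg (neg_ne_zero.mpr hw)
  rw [neg_neg] at h2
  have h3 : ((tau w + tau (-w) : ℤ) : ℂ) * (2 * Real.pi * I) = ((1 : ℤ) : ℂ) * (2 * Real.pi * I) := by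
    push_cast; linear_combination h1 + h2
  exact_mod_cast mul_right_cancel₀ two_pi_I_ne h3

/-- the integral identity for two disjoint paths -/
lemma disjoint_int {a b c d : ℂ} (α : Path a b) (β : Path c d)
    (h : ∀ s t, α s ≠ β t) :
    KZ α c - KZ α d - KZ β a + KZ β b + tau (a - c) - tau (a - d) - tau (b - c) + tau (b - d)
      = 0 := by
  have hne : ∀ s t : ℝ, α.extend s - β.extend t ≠ 0 := by
    intro s t
    have h1 : α.extend s ∈ range α := by rw [← α.extend_range]; exact mem_range_self s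
    have h2 : β.extend t ∈ range β := by rw [← β.extend_range]; exact mem_range_self t
    obtain ⟨s', hs'⟩ := h1
    obtain ⟨t', ht'⟩ := h2
    rw [← hs', ← ht']
    exact sub_ne_zero.mpr (h s' t')
  obtain ⟨Θ, hΘ, hΘe⟩ := exists_log (A := ℝ × ℝ) (fun p => α.extend p.1 - β.extend p.2)
    (by fun_prop) (fun p => hne p.1 p.2)
  obtain ⟨n1, k1, e1⟩ := isK_of_log α c (fun s => Θ (s, 0)) (by fun_prop)
    (fun s => by simpa using hΘe (s, 0))
  obtain ⟨n2, k2, e2⟩ := isK_of_log α d (fun s => Θ (s, 1)) (by fun_prop)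
    (fun s => by simpa using hΘe (s, 1))
  obtain ⟨n3, k3, e3⟩ := isK_of_log β a (fun t => Θ (0, t) + Real.pi * I) (by fun_prop)
    (fun t => by rw [exp_add, exp_pi_mul_I, hΘe (0, t)]; simp)
  obtain ⟨n4, k4, e4⟩ := isK_of_log β b (fun t => Θ (1, t) + Real.pi * I) (by fun_prop)
    (fun t => by rw [exp_add, exp_pi_mul_I, hΘe (1, t)]; simp)
  rw [KZ_eq k1, KZ_eq k2, KZ_eq k3, KZ_eq k4]
  have hac : a - c ≠ 0 := by simpa using hne 0 0
  have had : a - d ≠ 0 := by simpa using hne 0 1
  have hbc : b - c ≠ 0 := by simpa using hne 1 0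
  have hbd : b - d ≠ 0 := by simpa using hne 1 1
  have l1 := log_sub_log_neg hac
  have l2 := log_sub_log_neg had
  have l3 := log_sub_log_neg hbc
  have l4 := log_sub_log_neg hbd
  rw [neg_sub] at l1 l2 l3 l4
  have h3 : ((n1 - n2 - n3 + n4 + tau (a - c) - tau (a - d) - tau (b - c) + tau (b - d) : ℤ) : ℂ)
      * (2 * Real.pi * I) = ((0 : ℤ) : ℂ) * (2 * Real.pi * I) := by
    push_cast
    linear_combination -e1 + e2 + e3 - e4 + l1 - l2 - l3 + l4
  exact_mod_cast mul_right_cancel₀ two_pi_I_ne h3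

/-- parity of the winding datum -/
noncomputable def K {x y : ℂ} (γ : Path x y) (z : ℂ) : ZMod 2 := (KZ γ z : ZMod 2)

/-- tournament, mod 2 -/
noncomputable def tt (p z : ℂ) : ZMod 2 := (tau (p - z) : ZMod 2)

lemma tt_add {p z : ℂ} (h : p ≠ z) : tt p z + tt z p = 1 := by
  have := tau_add (sub_ne_zero.mpr h)
  rw [neg_sub] at this
  simp only [tt]
  exact_mod_cast congrArg (fun n : ℤ => (n : ZMod 2)) this

/-- the van Kampen cochain vanishes on disjoint paths -/
theorem disjoint_par {a b c d : ℂ} (α : Path a b) (β : Path c d) (h : ∀ s t, α s ≠ β t) :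
    K α c + K α d + K β a + K β b + tt a c + tt a d + tt b c + tt b d = 0 := by
  have := congrArg (fun n : ℤ => (n : ZMod 2)) (disjoint_int α β h)
  simp only [Int.cast_add, Int.cast_sub, Int.cast_zero] at this
  simp only [K, tt]
  simp only [CharTwo.sub_eq_add] at this
  linear_combination this

end Pool.Agent.P.MP_324c94_co.Geo
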