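import Pool.Agent.P.MP_324c94_co.LBData

/-! The charging argument: lower bound for the weighted chain. -/

set_option linter.unusedSectionVars false

namespace Pool.Agent.P.MP_324c94_co
namespace LB
open Finset

variable {T : ℕ} [NeZero T]

omit [NeZero T] in
theorem cast_ne {m : ℕ} (h0 : 0 < m) (h : m < T) : (m : ZMod T) ≠ 0 := fun he =>
  absurd (Nat.le_of_dvd h0 ((ZMod.natCast_eq_zero_iff m T).1 he)) (by omega)

theorem emb_inj (hT : 2 ≤ T) (i : ZMod T) {z z' : Fin 22} (h : emb i z = emb i z') : z = z' := by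
  have h1 : (1 : ZMod T) ≠ 0 := by simpa using cast_ne (T := T) (m := 1) one_pos (by omega)
  unfold emb at h
  split_ifs at h with a b b
  · simpa [Fin.ext_iff] using h
  · simp [h1] at h
  · simp [h1] at h
  · omega

omit [NeZero T] in
theorem emb_ne {i j : ZMod T} (hj : j ≠ i) {z : Fin 22} (h0 : z ≠ 0) (h1 : z ≠ 21)
    (z' : Fin 22) : emb i z ≠ emb j z' := by
  intro h
  unfold emb at h
  split_ifs at h with a b b
  · exact hj (congrArg Prod.fst h).symm
  · have := congrArg (fun p => p.2.val) h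
    exact h0 (Fin.ext (by simpa using this))
  · omega
  · omega

/-- Two edges without common end whose sets meet. -/
def Cr (I : BE T → Set ℂ) (b b' : BE T) : Prop :=
  EndsDisj btl bhd b b' ∧ (I b ∩ I b').Nonempty

omit [NeZero T] in
theorem Cr.symm {I : BE T → Set ℂ} {b b' : BE T} (h : Cr I b b') : Cr I b' b :=
  ⟨⟨h.1.1.symm, h.1.2.2.1.symm, h.1.2.1.symm, h.1.2.2.2.symm⟩, Set.inter_comm _ _ ▸ h.2⟩

open Classical in
/-- A tile is good if all its folded pairs cross. -/
noncomputable def gd (I : BE T → Set ℂ) (j : ZMod T) : Bool :=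
  decide (∀ x y, fold x y = true → Cr I (j, x) (j, y))

/-- The claim `k` of the tile `i` is active. -/
def Act (I : BE T → Set ℂ) (i : ZMod T) (k : ℕ) : Prop :=
  ∃ (x : Fin 41) (b : BE T), (Cr I (i, x) b ∧ adm k x b.2 (gd I b.1) = true) ∧
    (k < 13 ∨ b.1 = i)

open Classical in
/-- The charge of an ordered pair of edges. -/
noncomputable def chg (I : BE T → Set ℂ) (b b' : BE T) : ℕ :=
  if Cr I b b' then cap (gd I b.1) (gd I b'.1) b.2 b'.2 else 0

theorem total (I : BE T → Set ℂ) :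
    2 * ∑ i, ∑ p : Fin 41 × BE T, chg I (i, p.1) p.2 ≤ wcross btl bhd bw I := by
  have h1 : ∑ i, ∑ p : Fin 41 × BE T, chg I (i, p.1) p.2 = ∑ b, ∑ b', chg I b b' := by
    simp only [Fintype.sum_prod_type (f := fun p : Fin 41 × BE T => chg I (_, p.1) p.2)]
    exact (Fintype.sum_prod_type (f := fun b : BE T => ∑ b', chg I b b')).symm
  rw [h1, two_mul]
  nth_rewrite 2 [sum_comm]
  rw [← sum_add_distrib, wcross]
  refine sum_le_sum fun b _ => ?_
  rw [← sum_add_distrib]
  refine sum_le_sum fun b' _ => ?_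
  by_cases h : Cr I b b'
  · rw [chg, chg, if_pos h, if_pos h.symm, if_pos (show EndsDisj btl bhd b b' ∧ _ from h)]
    exact cap_le _ _ _ _
  · rw [chg, chg, if_neg h, if_neg fun h' => h h'.symm]
    exact Nat.zero_le _

theorem load_le (g g' : Bool) (x y : Fin 41) :
    ∑ k ∈ range 30 with adm k x y g' = true, om g k ≤ cap g g' x y := by
  refine le_trans (le_of_eq ?_) (load_le' g' x y _ (List.mem_singleton_self _) g)
  change (((List.range 30).filter fun k => decide (adm k x y g' = true)).map (om g)).sum = _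
  simp only [Bool.decide_eq_true]

open Classical in
theorem claims (I : BE T → Set ℂ) (i : ZMod T) :
    ∑ k ∈ range 30 with Act I i k, om (gd I i) k ≤ ∑ p : Fin 41 × BE T, chg I (i, p.1) p.2 := by
  have : ∀ k, ∃ p : Fin 41 × BE T, Act I i k →
      Cr I (i, p.1) p.2 ∧ adm k p.1 p.2.2 (gd I p.2.1) = true := fun k => by
    by_cases h : Act I i k
    · obtain ⟨x, b, h⟩ := h
      exact ⟨(x, b), fun _ => h.1⟩
    · exact ⟨(0, (0, 0)), fun h' => absurd h' h⟩
  choose π hπ using this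
  rw [← sum_fiberwise _ π]
  refine sum_le_sum fun p _ => ?_
  unfold chg
  split_ifs with h
  · refine le_trans (sum_le_sum_of_subset fun k hk => ?_) (load_le _ _ _ _)
    simp only [mem_filter] at hk ⊢
    exact ⟨hk.1.1, hk.2 ▸ (hπ k hk.1.2).2⟩
  · refine (sum_eq_zero fun k hk => ?_).le
    simp only [mem_filter] at hk
    exact absurd (hk.2 ▸ (hπ k hk.1.2).1) h

section wit
variable (hT : 2 ≤ T) {P : BV T → ℂ} {I : BE T → Set ℂ}
  (hI : ∀ b, IsPathConnected (I b) ∧ P (btl b) ∈ I b ∧ P (bhd b) ∈ I b) (i : ZMod T)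

omit [NeZero T] in
theorem gd_cr {j : ZMod T} {x y : Fin 41} (h : (gd I j && fold x y) = true) :
    Cr I (j, x) (j, y) := by
  simp only [Bool.and_eq_true, gd, decide_eq_true_eq] at h
  exact h.1 x y h.2

/-- The curve `c` in all the other tiles. -/
def Far (I : BE T → Set ℂ) (i : ZMod T) (c : ℕ) : Set ℂ :=
  {p | ∃ j, j ≠ i ∧ p ∈ U (fun x => I (j, x)) (cv c (gd I j))}

include hT hI in
theorem far_joined {c : ℕ} (h2 : 2 ≤ c) (hc : c < 13) :
    JoinedIn (Far I i c) (P (emb i 21)) (P (emb i 0)) := by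
  have h1 : ∀ j, j ≠ i → JoinedIn (Far I i c) (P (emb j 0)) (P (emb j 21)) := fun j hj => by
    have hs : Sys ltl lhd (fun x y => gd I j && fold x y) (fun z => P (emb j z))
        (fun x => I (j, x)) := ⟨fun x => hI (j, x), fun x y h => (gd_cr h).2⟩
    exact (hs.joined (cv_ok c hc h2 _)).mono fun p hp => ⟨j, hj, hp⟩
  have h3 : ∀ j : ZMod T, emb j 21 = emb (j + 1) 0 := fun j => rfl
  have h4 : ∀ m : ℕ, m + 1 < T →
      JoinedIn (Far I i c) (P (emb i 21)) (P (emb (i + (m + 1 : ℕ)) 21)) := fun m => by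
    induction m with
    | zero =>
      intro hm
      have := h1 (i + (0 + 1 : ℕ)) (by simpa using cast_ne (T := T) (m := 1) one_pos hm)
      rw [h3 i]
      simpa using this
    | succ m ih =>
      intro hm
      refine (ih (by omega)).trans ?_
      have := h1 (i + (m + 1 + 1 : ℕ)) fun he =>
        cast_ne (T := T) (Nat.succ_pos (m + 1)) hm (by simpa using he)
      rw [h3 (i + (m + 1 : ℕ))]
      rwa [Nat.cast_add (m + 1) 1, Nat.cast_one, ← add_assoc] at this ⊢
  have := h4 (T - 2) (by omega)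
  rw [h3 (i + _), add_assoc, ← Nat.cast_add_one, show T - 2 + 1 + 1 = T by omega,
    ZMod.natCast_self, add_zero] at this
  exact this

/-- The sets attached to the edges of the tile `i` and to the far part. -/
def JJ (P : BV T → ℂ) (I : BE T → Set ℂ) (i : ZMod T) (c : ℕ) (x : Option (Fin 41)) : Set ℂ :=
  x.elim (pathComponentIn (Far I i c) (P (emb i 21))) fun x => I (i, x)

include hT hI in
theorem sys {c : ℕ} (h2 : 2 ≤ c) (hc : c < 13) :
    Sys tl' hd' (fold' (gd I i)) (fun z => P (emb i z)) (JJ P I i c) := by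
  have h := far_joined hT hI i h2 hc
  refine ⟨fun x => ?_, fun x y hxy => ?_⟩
  · obtain _ | x := x
    · exact ⟨isPathConnected_pathComponentIn h.source_mem, mem_pathComponentIn_self h.source_mem, h⟩
    · exact hI (i, x)
  · obtain _ | x := x
    · simp [fold'] at hxy
    obtain _ | y := y
    · simp [fold'] at hxy
    exact (gd_cr hxy).2

omit [NeZero T] in
theorem act_of_fine {ks : List ℕ} {x : Fin 41} {b : BE T} (h : Cr I (i, x) b)
    (hf : fine ks x b.2 (gd I b.1) = true) (hk : ∀ k ∈ ks, k < 13 ∨ b.1 = i) :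
    ∃ k ∈ ks, Act I i k := by
  obtain ⟨k, hk', h'⟩ := List.any_eq_true.1 hf
  exact ⟨k, hk', x, b, ⟨h, h'⟩, hk k hk'⟩

omit [NeZero T] in
theorem act_far {ks : List ℕ} {c : ℕ} {x : Fin 41} (h : farok ks c x = true) {p : ℂ}
    (hp : p ∈ I (i, x)) (hp' : p ∈ JJ P I i c none) : ∃ k ∈ ks, Act I i k := by
  obtain ⟨j, hj, y, hy, hpy⟩ := pathComponentIn_subset hp'
  simp only [farok, vd, Bool.and_eq_true, bne_iff_ne, List.all_eq_true] at h
  obtain ⟨⟨⟨⟨⟨a1, a2⟩, a3⟩, a4⟩, h1⟩, h2⟩ := h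
  refine (act_of_fine i (ks := ks.filter (· < 13)) (x := x) (b := (j, y))
    ⟨⟨emb_ne hj a2 a1 _, emb_ne hj a2 a1 _, emb_ne hj a4 a3 _, emb_ne hj a4 a3 _⟩, p, hp, hpy⟩ ?_
    fun k hk => Or.inl (by simpa using (List.mem_filter.1 hk).2)).imp
      fun k hk => ⟨(List.mem_filter.1 hk.1).1, hk.2⟩
  dsimp only
  cases hg : gd I j
  · exact h2 y (hg ▸ hy)
  · exact h1 y (hg ▸ hy)

include hT in
theorem act_res {ks : List ℕ} {c : ℕ} {x y : Option (Fin 41)} (h : res ks (gd I i) c x y = true)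
    {p : ℂ} (hp : p ∈ JJ P I i c x) (hp' : p ∈ JJ P I i c y) : ∃ k ∈ ks, Act I i k := by
  obtain _ | x := x <;> obtain _ | y := y
  · simp [res] at h
  · exact act_far i h hp' hp
  · exact act_far i h hp hp'
  simp only [res, vd, Bool.and_eq_true, bne_iff_ne, Bool.or_eq_true] at h
  obtain ⟨⟨⟨⟨a1, a2⟩, a3⟩, a4⟩, h⟩ := h
  have hc : Cr I (i, x) (i, y) := ⟨⟨fun e => a1 (emb_inj hT i e), fun e => a2 (emb_inj hT i e),
    fun e => a3 (emb_inj hT i e), fun e => a4 (emb_inj hT i e)⟩, p, hp, hp'⟩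
  rcases h with h | h
  · exact act_of_fine i hc h fun _ _ => Or.inr rfl
  · exact act_of_fine i hc.symm h fun _ _ => Or.inr rfl

include hT hI in
theorem wit33 (h33 : K33Stmt) {ks : List ℕ} {c : ℕ} {v : List (Fin 22)} {L : List (List ℕ)}
    (h : Ok33 (gd I i) ks c v L) (h2 : 2 ≤ c) (hc : c < 13) : ∃ k ∈ ks, Act I i k := by
  obtain ⟨p, q, p', q', a, b, z, ⟨x, hx, hz⟩, y, hy, hz'⟩ := h33 _ _ _ fun p q =>
    (sys hT hI i h2 hc).joined (h.1 p q)
  exact act_res hT i (h.2 p q p' q' a b x hx y hy) hz hz'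

include hT hI in
theorem wit5 (h5 : K5Stmt) {c : ℕ} (h : Ok5 (gd I i) c) (h2 : 2 ≤ c) (hc : c < 13) :
    ∃ k ∈ [0, 1, c], Act I i k := by
  obtain ⟨p, q, p', q', a1, a2, a3, a4, a5, a6, z, ⟨x, hx, hz⟩, y, hy, hz'⟩ :=
    h5 (fun p => P (emb i (v5 p))) (fun p q => U (JJ P I i c) (L5 c p q)) fun p q hpq =>
      (sys hT hI i h2 hc).joined (h.1 p q hpq)
  exact act_res hT i (h.2 p q p' q' a1 a2 a3 a4 a5 a6 x hx y hy) hz hz'

omit [NeZero T] in
theorem gd_of_act (h : ∀ k < 21, 13 ≤ k → Act I i k) : gd I i = true := by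
  have : ∀ x y, fold x y = true → ∃ k < 21, 13 ≤ k ∧ pr[k - 13]? = some (x, y) := by
    decide +kernel
  simp only [gd, decide_eq_true_eq]
  intro x y hxy
  obtain ⟨k, h1, h2, h3⟩ := this x y hxy
  obtain ⟨x', ⟨j, y'⟩, ⟨h4, h5⟩, h6⟩ := h k h1 h2
  obtain rfl : j = i := h6.resolve_left (by omega)
  rw [adm, if_neg (by omega), if_neg (by omega), if_neg (by omega), h3] at h5
  simp only [Bool.and_eq_true, beq_iff_eq, Option.some.injEq, Prod.mk.injEq] at h5
  rw [h5.2.1, h5.2.2]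
  exact h4

include hT hI in
open Classical in
theorem enough (h33 : K33Stmt) (h5 : K5Stmt) :
    13051 ≤ ∑ k ∈ range 30 with Act I i k, om (gd I i) k := by
  obtain ⟨s, hs⟩ : ∃ s : ℕ → ℕ, ∀ k, s k = if Act I i k then 1 else 0 := ⟨_, fun _ => rfl⟩
  have h0 : ∀ ks : List ℕ, (∃ k ∈ ks, Act I i k) → 1 ≤ (ks.map s).sum := fun ks ⟨k, hk, h⟩ =>
    List.single_le_sum (fun _ _ => Nat.zero_le _) _ (List.mem_map.2 ⟨k, hk, by simp [hs, h]⟩)
  have e : ∑ k ∈ range 30 with Act I i k, om (gd I i) k =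
      ∑ k ∈ range 30, om (gd I i) k * s k := by
    rw [sum_filter]; exact sum_congr rfl fun k _ => by simp [hs]
  have a1 := h0 _ (wit33 hT hI i h33 (okA _) (by omega) (by omega))
  have a2 := h0 _ (wit33 hT hI i h33 (okB _) (by omega) (by omega))
  have a3 := h0 _ (wit33 hT hI i h33 (okA' _) (by omega) (by omega))
  have a4 := h0 _ (wit33 hT hI i h33 (okB' _) (by omega) (by omega))
  have b1 := h0 _ (wit5 hT hI i h5 (okM _).1 (by omega) (by omega))
  have b2 := h0 _ (wit5 hT hI i h5 (okM _).2.1 (by omega) (by omega))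
  have b3 := h0 _ (wit5 hT hI i h5 (okM _).2.2.1 (by omega) (by omega))
  have b4 := h0 _ (wit5 hT hI i h5 (okM _).2.2.2 (by omega) (by omega))
  have l := fun a b => h0 _ (wit33 hT hI i h33 (okL _ a b) (by omega) (by omega))
  have r := fun a b => h0 _ (wit33 hT hI i h33 (okR _ a b) (by omega) (by omega))
  have l1 := l false false
  have l2 := l false true
  have l3 := l true false
  have l4 := l true true
  have r1 := r false false
  have r2 := r false true
  have r3 := r true false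
  have r4 := r true true
  simp only [List.map_cons, List.map_nil, List.sum_cons, List.sum_nil, Bool.toNat_false,
    Bool.toNat_true, Nat.reduceAdd, Nat.reduceMul] at a1 a2 a3 a4 b1 b2 b3 b4 l1 l2 l3 l4 r1 r2 r3 r4
  rw [e]
  clear e l r
  cases hg : gd I i
  · have : ∃ k < 21, 13 ≤ k ∧ s k = 0 := by
      by_contra hn
      push Not at hn
      rw [gd_of_act i fun k h1 h2 => by_contra fun h => hn k h1 h2 (by simp [hs, h])] at hg
      exact absurd hg (by simp)
    obtain ⟨k, h1, h2, h3⟩ := this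
    simp only [sum_range_succ, sum_range_zero]
    change _ ≤ 0 + 13051 * s 0 + 1063 * s 1 + 2997 * s 2 + 2997 * s 3 + 2997 * s 4 + 2997 * s 5 +
      20 * s 6 + 20 * s 7 + 20 * s 8 + 20 * s 9 + 0 * s 10 + 0 * s 11 + 0 * s 12 + 441 * s 13 +
      21 * s 14 + 21 * s 15 + 1 * s 16 + 1 * s 17 + 21 * s 18 + 21 * s 19 + 441 * s 20 +
      840 * s 21 + 40 * s 22 + 40 * s 23 + 840 * s 24 + 40 * s 25 + 840 * s 26 + 840 * s 27 +
      40 * s 28 + 1600 * s 29
    rcases Nat.eq_zero_or_pos (s 0) with z0 | z0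
    · rcases Nat.eq_zero_or_pos (s 1) with z1 | z1
      · interval_cases k <;> linarith
      · linarith
    · linarith
  · have c1 := h0 _ (wit5 hT hI i h5 (hg ▸ okS.1) (by omega) (by omega))
    have c2 := h0 _ (wit5 hT hI i h5 (hg ▸ okS.2.1) (by omega) (by omega))
    have c3 := h0 _ (wit5 hT hI i h5 (hg ▸ okS.2.2) (by omega) (by omega))
    simp only [List.map_cons, List.map_nil, List.sum_cons, List.sum_nil] at c1 c2 c3
    simp only [sum_range_succ, sum_range_zero]
    change _ ≤ 0 + 13051 * s 0 + 1063 * s 1 + 3000 * s 2 + 3000 * s 3 + 3000 * s 4 + 3000 * s 5 +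
      20 * s 6 + 20 * s 7 + 20 * s 8 + 20 * s 9 + 1 * s 10 + 1 * s 11 + 1 * s 12 + 441 * s 13 +
      21 * s 14 + 21 * s 15 + 1 * s 16 + 1 * s 17 + 21 * s 18 + 21 * s 19 + 441 * s 20 +
      840 * s 21 + 40 * s 22 + 40 * s 23 + 840 * s 24 + 40 * s 25 + 840 * s 26 + 840 * s 27 +
      40 * s 28 + 1600 * s 29
    rcases Nat.eq_zero_or_pos (s 0) with z0 | z0
    · rcases Nat.eq_zero_or_pos (s 1) with z1 | z1
      · linarith
      · linarith
    · linarith

end wit

end LB

theorem lb (h33 : K33Stmt) (h5 : K5Stmt) : LBStmt := by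
  intro T _ hT P I hI
  refine le_trans (Nat.mul_le_mul_left 2 ?_) (LB.total I)
  have := Finset.card_nsmul_le_sum Finset.univ _ 13051 fun i _ =>
    (LB.enough hT hI i h33 h5).trans (LB.claims I i)
  simpa [ZMod.card] using this

end Pool.Agent.P.MP_324c94_co
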