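import Pool.Agent.P.MP_324c94_co.Defs

/-! Finite data and finite checks for the charging argument. -/

namespace Pool.Agent.P.MP_324c94_co
namespace LB
open Finset

/-! ### Connectivity of lists of edges -/

section lists
variable {E : Type} (tl hd : E → Fin 22) (M : E → E → Bool)

def isEnd (x : E) (z : Fin 22) : Bool := tl x == z || hd x == z

def chain : List E → Bool
  | x :: y :: l => (isEnd tl hd x (tl y) || isEnd tl hd x (hd y) || M x y) && chain (y :: l)
  | _ => true

def joins (L : List E) (z z' : Fin 22) : Bool :=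
  chain tl hd M L && L.any (isEnd tl hd · z) && L.any (isEnd tl hd · z')

def U (J : E → Set ℂ) (L : List E) : Set ℂ := {p | ∃ y ∈ L, p ∈ J y}

/-- A system of path connected sets containing the images of the ends. -/
def Sys (Q : Fin 22 → ℂ) (J : E → Set ℂ) : Prop :=
  (∀ x, IsPathConnected (J x) ∧ Q (tl x) ∈ J x ∧ Q (hd x) ∈ J x) ∧
    ∀ x y, M x y = true → (J x ∩ J y).Nonempty

variable {tl hd M} {Q : Fin 22 → ℂ} {J : E → Set ℂ}

theorem Sys.mem (h : Sys tl hd M Q J) {x : E} {z : Fin 22} (hz : isEnd tl hd x z = true) :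
    Q z ∈ J x := by
  simp only [isEnd, Bool.or_eq_true, beq_iff_eq] at hz
  rcases hz with rfl | rfl
  · exact (h.1 x).2.1
  · exact (h.1 x).2.2

theorem Sys.pc (h : Sys tl hd M Q J) : ∀ (l : List E) (x : E), chain tl hd M (x :: l) = true →
    IsPathConnected (U J (x :: l))
  | [], x, _ => by
    have : U J [x] = J x := by ext p; simp [U]
    rw [this]; exact (h.1 x).1
  | y :: l, x, hc => by
    simp only [chain, Bool.and_eq_true, Bool.or_eq_true] at hc
    have : U J (x :: y :: l) = J x ∪ U J (y :: l) := by ext p; simp [U]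
    rw [this]
    refine (h.1 x).1.union (Sys.pc h l y hc.2) ?_
    rcases hc.1 with (h1 | h1) | h1
    · exact ⟨_, h.mem h1, y, by simp, (h.1 y).2.1⟩
    · exact ⟨_, h.mem h1, y, by simp, (h.1 y).2.2⟩
    · obtain ⟨p, hp, hp'⟩ := h.2 x y h1
      exact ⟨p, hp, y, by simp, hp'⟩

theorem Sys.joined (h : Sys tl hd M Q J) {L : List E} {z z' : Fin 22}
    (hj : joins tl hd M L z z' = true) : JoinedIn (U J L) (Q z) (Q z') := by
  simp only [joins, Bool.and_eq_true, List.any_eq_true] at hj
  obtain ⟨⟨hc, x, hx, hz⟩, y, hy, hz'⟩ := hj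
  obtain _ | ⟨w, l⟩ := L
  · simp at hx
  exact (h.pc l w hc).joinedIn _ ⟨x, hx, h.mem hz⟩ _ ⟨y, hy, h.mem hz'⟩

end lists

/-! ### The finite data -/

/-- The capacity of an ordered pair of edges. -/
def cap (g g' : Bool) (x y : Fin 41) : ℕ :=
  if x.val < 22 then (if y.val < 22 then 13051 else if y.val < 36 then 3000 else
    if g' then 0 else 3)
  else if x.val < 36 then (if x.val < 27 ∧ 27 ≤ y.val ∧ y.val < 32 then lw x * lw y else 0)
  else if y.val < 22 then (if g then lw y else lw y - 3) else if y.val < 36 then lw y else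
    if g && !g' then lw y else 0

theorem cap_le : ∀ (g g' : Bool) (x y : Fin 41),
    cap g g' x y + cap g' g y x ≤ lw x * lw y := by decide +kernel

/-- Pairs of light edges; the first eight are the folded pairs. -/
def pr : List (Fin 41 × Fin 41) :=
  [(22, 30), (22, 31), (23, 30), (23, 31), (25, 28), (25, 29), (26, 28), (26, 29),
    (22, 27), (23, 27), (25, 27), (26, 27), (24, 28), (24, 29), (24, 30), (24, 31), (24, 27)]

def fold (x y : Fin 41) : Bool := (pr.take 8).contains (x, y)

/-- The curves through a tile. -/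
def cv (k : ℕ) (g : Bool) : List (Fin 41) :=
  ([[0, 1, 8, 9, 10, 11], [4, 5, 6, 7, 2, 3], [12, 13, 19, 20, 21, 11], [4, 16, 17, 18, 14, 15],
    [4, 5, 22, 24, 11], [4, 16, 26, 24, 11], [4, 27, 30, 10, 11], [4, 27, 29, 21, 11]] ++
    if g then [[4, 5, 22, 30, 10, 11], [4, 16, 26, 29, 21, 11], [4, 5, 6, 23, 25, 28, 20, 21, 11]]
    else [[4, 5, 22, 23, 32, 36, 37, 33, 31, 30, 10, 11],
      [4, 16, 26, 25, 34, 39, 40, 35, 28, 29, 21, 11],
      [4, 5, 6, 32, 36, 38, 40, 35, 20, 21, 11]] : List (List (Fin 41))).getD (k - 2) []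

/-- The pairs of edges which can be charged by the claim `k`. -/
def adm (k : ℕ) (x y : Fin 41) (g' : Bool) : Bool :=
  if k = 0 then x.val < 22 && y.val < 22
  else if k = 1 then x.val < 22 && 22 ≤ y.val && y.val < 36
  else if k < 13 then (36 ≤ x.val && (cv k g').contains y) ||
    (10 ≤ k && x.val < 22 && 36 ≤ y.val && !g')
  else 22 ≤ x.val && x.val < 27 && pr[k - 13]? == some (x, y)

/-- The weights of the claims. -/
def om (g : Bool) (k : ℕ) : ℕ :=
  ((if g then [13051, 1063, 3000, 3000, 3000, 3000, 20, 20, 20, 20, 1, 1, 1]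
    else [13051, 1063, 2997, 2997, 2997, 2997, 20, 20, 20, 20, 0, 0, 0]) ++
    [441, 21, 21, 1, 1, 21, 21, 441, 840, 40, 40, 840, 40, 840, 840, 40, 1600]).getD k 0

theorem load_le' : ∀ (g' : Bool) (x y : Fin 41),
    ∀ l ∈ [(List.range 30).filter (adm · x y g')], ∀ g, (l.map (om g)).sum ≤ cap g g' x y := by
  decide +kernel

/-! ### Edges of one tile together with the far part (`none`) -/

def tl' (x : Option (Fin 41)) : Fin 22 := x.elim 21 ltl

def hd' (x : Option (Fin 41)) : Fin 22 := x.elim 0 lhd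

def fold' (g : Bool) : Option (Fin 41) → Option (Fin 41) → Bool
  | some x, some y => g && fold x y
  | _, _ => false

def vd (x y : Option (Fin 41)) : Bool :=
  tl' x != tl' y && tl' x != hd' y && hd' x != tl' y && hd' x != hd' y

def fine (ks : List ℕ) (x y : Fin 41) (g : Bool) : Bool := ks.any fun k => adm k x y g

def farok (ks : List ℕ) (c : ℕ) (x : Fin 41) : Bool :=
  vd (some x) none && (cv c true).all (fine (ks.filter (· < 13)) x · true) &&
    (cv c false).all (fine (ks.filter (· < 13)) x · false)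

/-- If the sets of `x` and `y` meet, then one of the claims in `ks` is active. -/
def res (ks : List ℕ) (g : Bool) (c : ℕ) : Option (Fin 41) → Option (Fin 41) → Bool
  | some x, some y => vd (some x) (some y) && (fine ks x y g || fine ks y x g)
  | some x, none => farok ks c x
  | none, some y => farok ks c y
  | none, none => false

def dec (n : ℕ) : Option (Fin 41) := if h : n < 41 then some ⟨n, h⟩ else none

def br (L : List (List ℕ)) (n : ℕ) : List (Option (Fin 41)) := (L.getD n []).map dec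

/-- Check of a witness built on the complete bipartite graph. -/
def Ok33 (g : Bool) (ks : List ℕ) (c : ℕ) (v : List (Fin 22)) (L : List (List ℕ)) : Prop :=
  (∀ p q : Fin 3, joins tl' hd' (fold' g) (br L (3 * p + q)) (v.getD p 0) (v.getD (3 + q) 0)) ∧
  ∀ p q p' q' : Fin 3, p ≠ p' → q ≠ q' → ∀ x ∈ br L (3 * p + q), ∀ y ∈ br L (3 * p' + q'),
    res ks g c x y

instance (g : Bool) (ks : List ℕ) (c : ℕ) (v : List (Fin 22)) (L : List (List ℕ)) :
    Decidable (Ok33 g ks c v L) := by unfold Ok33; infer_instance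

/-- The branches of the witness built on the complete graph. -/
def L5 (c : ℕ) (p q : Fin 5) : List (Option (Fin 41)) :=
  br [[4], [41, 11], [0, 1], [12, 13], (cv c true).tail.dropLast.map Fin.val, [5, 6, 7],
    [16, 17, 18], [8, 9, 10], [19, 20, 21], [2, 37, 38, 40, 14]] (p * (9 - p) / 2 + q - p - 1)

def v5 : Fin 5 → Fin 22 := ![0, 1, 2, 4, 11]

/-- Check of a witness built on the complete graph. -/
def Ok5 (g : Bool) (c : ℕ) : Prop :=
  (∀ p q : Fin 5, p < q → joins tl' hd' (fold' g) (L5 c p q) (v5 p) (v5 q)) ∧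
  ∀ p q p' q' : Fin 5, p < q → p' < q' → p ≠ p' → p ≠ q' → q ≠ p' → q ≠ q' →
    ∀ x ∈ L5 c p q, ∀ y ∈ L5 c p' q', res [0, 1, c] g c x y

instance (g : Bool) (c : ℕ) : Decidable (Ok5 g c) := by unfold Ok5; infer_instance

theorem cv_ok : ∀ c < 13, 2 ≤ c → ∀ g : Bool,
    joins ltl lhd (fun x y => g && fold x y) (cv c g) 0 21 := by decide +kernel

theorem okA : ∀ g, Ok33 g [0, 2] 2 [5, 0, 2, 10, 4, 21]
    [[37, 38, 39], [2], [3], [12], [0, 1], [41], [13, 19, 20, 21], [8, 9, 10], [11]] := by
  decide +kernel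

theorem okB : ∀ g, Ok33 g [0, 3] 3 [3, 1, 21, 12, 0, 4]
    [[36, 38, 40], [0], [1], [16, 17, 18, 14], [4], [5, 6, 7], [15], [41], [2, 3]] := by
  decide +kernel

theorem okA' : ∀ g, Ok33 g [0, 4] 4 [12, 0, 2, 3, 11, 21]
    [[40, 38, 36], [14], [15], [0], [12, 13], [41], [1, 8, 9, 10], [19, 20, 21], [11]] := by
  decide +kernel

theorem okB' : ∀ g, Ok33 g [0, 5] 5 [10, 1, 21, 5, 0, 11]
    [[39, 38, 37], [12], [13], [5, 6, 7, 2], [4], [16, 17, 18], [3], [41], [14, 15]] := by
  decide +kernel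

theorem okM : ∀ g, Ok5 g 6 ∧ Ok5 g 7 ∧ Ok5 g 8 ∧ Ok5 g 9 := by decide +kernel

theorem okS : Ok5 true 10 ∧ Ok5 true 11 ∧ Ok5 true 12 := by decide +kernel

/-- Left clauses. -/
theorem okL : ∀ g a b : Bool, Ok33 g
    [0, 1, 13 + 2 * a.toNat + b.toNat, 21 + a.toNat, 27 + b.toNat, 29] 2
    [1, 4, 2, if a then 7 else 6, if b then 8 else 9, 11]
    [if a then [5, 6] else [5], [27, 30 + b.toNat], [16, 17, 18],
      if a then [7] else [6, 7], if b then [8] else [8, 9], [1, 0, 12, 13],
      [24, 22 + a.toNat], if b then [9, 10] else [10], [19, 20, 21]] := by decide +kernel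

/-- Right clauses. -/
theorem okR : ∀ g a b : Bool, Ok33 g
    [0, 1, 17 + 2 * a.toNat + b.toNat, 23 + a.toNat, 25 + b.toNat, 29] 2
    [1, 11, 2, if a then 13 else 14, if b then 16 else 15, 4]
    [if a then [16] else [16, 17], [27, 28 + b.toNat], [5, 6, 7],
      if a then [17, 18] else [18], if b then [19, 20] else [19], [13, 12, 0, 1],
      [24, 25 + a.toNat], if b then [21] else [20, 21], [8, 9, 10]] := by decide +kernel

end LB
end Pool.Agent.P.MP_324c94_co
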