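import Pool.Agent.P.MP_324c94_co.Defs

/-!
Assembly of the counterexample from the interface statements.
-/

namespace Pool.Agent.P.MP_324c94_co

theorem lw_pos : ∀ x : Fin 41, 0 < lw x := by decide

theorem lower_bound (hNE : NEStmt) (hSEL : SELStmt) (hLB : LBStmt) (T : ℕ) [NeZero T]
    (hT : 2 ≤ T) : T * 13051 ≤ cr (GT T) := by
  have hmem : cr (GT T) ∈ crSet (GT T) := Nat.sInf_mem (hNE _ (GT T))
  obtain ⟨P, I, hI, hle⟩ := hSEL (BV T) (BE T) btl bhd bw (fun b => lw_pos b.2) _ hmem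
  have := hLB T hT P I hI
  omega

theorem main (hNE : NEStmt) (hSEL : SELStmt) (hLB : LBStmt) (hUB : UBStmt) :
    ¬ (∀ ε : ℝ, 0 < ε → ∃ N : ℕ, ∀ (V : Type), Finite V → ∀ (c : SimpleGraph V → ℕ),
      (∀ H : SimpleGraph V, c H = sInf (crSet H)) →
      ∀ G : SimpleGraph V, N ≤ c G →
        ∃ e : Sym2 V, e ∈ G.edgeSet ∧
          (1 - ε) * (c G : ℝ) ≤ (c (G.deleteEdges {e}) : ℝ)) := by
  intro h
  obtain ⟨C, hC⟩ := hUB
  obtain ⟨N, hN⟩ := h (1 / 26102) (by norm_num)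
  set T : ℕ := N + 2 * C + 2 with hTdef
  have : NeZero T := ⟨by omega⟩
  have hT : 2 ≤ T := by omega
  have hlow := lower_bound hNE hSEL hLB T hT
  obtain ⟨e, he, hle⟩ := hN _ inferInstance cr (fun _ => rfl) (GT T) (by omega)
  obtain ⟨k, hk, hkle⟩ := hC T hT e he
  have h1 : cr ((GT T).deleteEdges {e}) ≤ k := Nat.sInf_le hk
  have h2 : (cr ((GT T).deleteEdges {e}) : ℝ) ≤ T * 13050 + C := by
    exact_mod_cast h1.trans hkle
  have h3 : (T : ℝ) * 13051 ≤ cr (GT T) := by exact_mod_cast hlow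
  have h4 : (2 * C + 2 : ℝ) ≤ T := by
    have : 2 * C + 2 ≤ T := by omega
    exact_mod_cast this
  nlinarith

end Pool.Agent.P.MP_324c94_co
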