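import Pool.Agent.P.MP_324c94_co.Defs

/-!
Selection of one copy of every weighted edge by averaging.
-/

namespace Pool.Agent.P.MP_324c94_co

namespace SEL

open Set

/-- Averaging over one coordinate. -/
lemma sum_update {BE : Type} [Fintype BE] [DecidableEq BE] (w : BE → ℕ) (b : BE)
    (G : (∀ c, Fin (w c)) → ℕ) :
    ∑ κ, G κ * w b = ∑ κ, ∑ i : Fin (w b), G (Function.update κ b i) := by
  let σ : ((∀ c, Fin (w c)) × Fin (w b)) → ((∀ c, Fin (w c)) × Fin (w b)) :=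
    fun p => (Function.update p.1 b p.2, p.1 b)
  have hσ : Function.Involutive σ := by
    rintro ⟨κ, i⟩
    simp [σ]
  have h1 : ∑ p : (∀ c, Fin (w c)) × Fin (w b), G p.1 =
      ∑ p : (∀ c, Fin (w c)) × Fin (w b), G (σ p).1 :=
    (Equiv.sum_comp hσ.toPerm (fun p => G p.1)).symm
  rw [Fintype.sum_prod_type, Fintype.sum_prod_type] at h1
  rw [← h1]
  refine Finset.sum_congr rfl fun κ _ => ?_
  simp [mul_comm]

/-- Averaging over two different coordinates. -/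
lemma sum_two {BE : Type} [Fintype BE] [DecidableEq BE] (w : BE → ℕ) {b b' : BE} (h : b ≠ b')
    (F : Fin (w b) → Fin (w b') → ℕ) :
    ∑ κ : (∀ c, Fin (w c)), F (κ b) (κ b') * (w b * w b') =
      ∑ _κ : (∀ c, Fin (w c)), ∑ i, ∑ j, F i j := by
  have h1 : ∑ κ : (∀ c, Fin (w c)), F (κ b) (κ b') * (w b * w b') =
      ∑ κ : (∀ c, Fin (w c)), (F (κ b) (κ b') * w b') * w b :=
    Finset.sum_congr rfl fun κ _ => by ring
  rw [h1, sum_update w b (fun κ => F (κ b) (κ b') * w b')]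
  simp only [Function.update_self, Function.update_of_ne h.symm]
  rw [Finset.sum_comm]
  have h2 : ∀ i : Fin (w b), ∑ κ : (∀ c, Fin (w c)), F i (κ b') * w b' =
      ∑ _κ : (∀ c, Fin (w c)), ∑ j, F i j := by
    intro i
    rw [sum_update w b' (fun κ => F i (κ b'))]
    simp only [Function.update_self]
  simp only [h2]
  rw [Finset.sum_comm]

/-- Some selection is at most the average. -/
lemma avg {BE : Type} [Fintype BE] (w : BE → ℕ) (hw : ∀ b, 0 < w b)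
    (g : (Σ b, Fin (w b)) → (Σ b, Fin (w b)) → ℕ) (hg : ∀ x y, x.1 = y.1 → g x y = 0) :
    ∃ κ : (∀ b, Fin (w b)), ∑ b, ∑ b', g ⟨b, κ b⟩ ⟨b', κ b'⟩ * (w b * w b') ≤
      ∑ x, ∑ y, g x y := by
  classical
  have hne : (Finset.univ : Finset (∀ b, Fin (w b))).Nonempty :=
    ⟨fun b => ⟨0, hw b⟩, Finset.mem_univ _⟩
  have key : ∑ κ : (∀ b, Fin (w b)), ∑ b, ∑ b', g ⟨b, κ b⟩ ⟨b', κ b'⟩ * (w b * w b') =
      ∑ _κ : (∀ b, Fin (w b)), ∑ x, ∑ y, g x y := by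
    have e1 : ∀ b b' : BE, ∑ κ : (∀ b, Fin (w b)), g ⟨b, κ b⟩ ⟨b', κ b'⟩ * (w b * w b') =
        ∑ _κ : (∀ b, Fin (w b)), ∑ i : Fin (w b), ∑ j : Fin (w b'), g ⟨b, i⟩ ⟨b', j⟩ := by
      intro b b'
      by_cases h : b = b'
      · subst h
        refine Finset.sum_congr rfl fun κ _ => ?_
        rw [hg _ _ rfl, zero_mul]
        symm
        exact Finset.sum_eq_zero fun i _ => Finset.sum_eq_zero fun j _ => hg _ _ rfl
      · exact sum_two w h (fun i j => g ⟨b, i⟩ ⟨b', j⟩)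
    rw [Finset.sum_comm]
    have e2 : ∀ b : BE,
        ∑ κ : (∀ b, Fin (w b)), ∑ b', g ⟨b, κ b⟩ ⟨b', κ b'⟩ * (w b * w b') =
        ∑ _κ : (∀ b, Fin (w b)), ∑ b', ∑ i : Fin (w b), ∑ j : Fin (w b'), g ⟨b, i⟩ ⟨b', j⟩ := by
      intro b
      rw [Finset.sum_comm]
      simp only [e1]
      rw [Finset.sum_comm]
    simp only [e2]
    rw [Finset.sum_comm]
    refine Finset.sum_congr rfl fun κ _ => ?_
    rw [Fintype.sum_sigma]
    refine Finset.sum_congr rfl fun b _ => ?_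
    rw [Finset.sum_comm]
    refine Finset.sum_congr rfl fun i _ => ?_
    rw [Fintype.sum_sigma]
  obtain ⟨κ, -, hκ⟩ := Finset.exists_le_of_sum_le hne key.le
  exact ⟨κ, hκ⟩

/-- The data of one drawn edge. -/
def Drawn {V : Type} (φ : V → ℂ) (γ : Sym2 V → ℝ → ℂ) (e : Sym2 V) : Prop :=
  ContinuousOn (γ e) (Set.Icc (0 : ℝ) 1) ∧
    (∃ u v : V, e = s(u, v) ∧ γ e 0 = φ u ∧ γ e 1 = φ v) ∧
    ∀ t : ℝ, 0 < t → t < 1 → ∀ w : V, γ e t ≠ φ w

lemma Drawn.pathConnected {V : Type} {φ : V → ℂ} {γ : Sym2 V → ℝ → ℂ} {e : Sym2 V}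
    (h : Drawn φ γ e) : IsPathConnected (γ e '' Icc (0 : ℝ) 1) :=
  ((convex_Icc (0 : ℝ) 1).isPathConnected ⟨0, by simp⟩).image' h.1

lemma Drawn.end_mem {V : Type} {φ : V → ℂ} {γ : Sym2 V → ℝ → ℂ} {e : Sym2 V}
    (h : Drawn φ γ e) {y : V} (hy : y ∈ e) : φ y ∈ γ e '' Icc (0 : ℝ) 1 := by
  obtain ⟨u, v, rfl, h0, h1⟩ := h.2.1
  rcases Sym2.mem_iff.1 hy with rfl | rfl
  · exact ⟨0, by simp, h0⟩
  · exact ⟨1, by simp, h1⟩

lemma Drawn.cases {V : Type} {φ : V → ℂ} {γ : Sym2 V → ℝ → ℂ} {e : Sym2 V}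
    (h : Drawn φ γ e) {z : ℂ} (hz : z ∈ γ e '' Icc (0 : ℝ) 1) :
    (∃ s : ℝ, 0 < s ∧ s < 1 ∧ γ e s = z) ∨ ∃ y ∈ e, φ y = z := by
  obtain ⟨s, ⟨hs0, hs1⟩, rfl⟩ := hz
  obtain ⟨u, v, he, h0, h1⟩ := h.2.1
  rcases hs0.eq_or_lt with rfl | hs0
  · exact Or.inr ⟨u, by rw [he]; simp, h0.symm⟩
  rcases hs1.eq_or_lt with rfl | hs1
  · exact Or.inr ⟨v, by rw [he]; simp, h1.symm⟩
  exact Or.inl ⟨s, hs0, hs1, rfl⟩

/-- A common point of two drawn edges without common end is interior to both. -/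
lemma interior_of_disj {V : Type} {φ : V → ℂ} {γ : Sym2 V → ℝ → ℂ} (hφ : Function.Injective φ)
    {e e' : Sym2 V} (h : Drawn φ γ e) (h' : Drawn φ γ e') (hd : ∀ y, y ∈ e → y ∉ e')
    {z : ℂ} (hz : z ∈ γ e '' Icc (0 : ℝ) 1) (hz' : z ∈ γ e' '' Icc (0 : ℝ) 1) :
    (∃ s : ℝ, 0 < s ∧ s < 1 ∧ γ e s = z) ∧ ∃ t : ℝ, 0 < t ∧ t < 1 ∧ γ e' t = z := by
  rcases h.cases hz with hs | ⟨y, hy, rfl⟩
  · rcases h'.cases hz' with ht | ⟨y, hy, rfl⟩
    · exact ⟨hs, ht⟩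
    · obtain ⟨s, hs0, hs1, hs⟩ := hs
      exact absurd hs (h.2.2 s hs0 hs1 y)
  · rcases h'.cases hz' with ⟨t, ht0, ht1, ht⟩ | ⟨y', hy', hyy⟩
    · exact absurd ht (h'.2.2 t ht0 ht1 y)
    · exact absurd (hφ hyy ▸ hy') (hd y hy)

lemma mem_edgeSet {BV BE : Type} (tl hd : BE → BV) (w : BE → ℕ) (x : Σ b, Fin (w b)) {a : BV}
    (ha : a = tl x.1 ∨ a = hd x.1) :
    s((Sum.inl a : SV BV BE w), Sum.inr x) ∈ (subG tl hd w).edgeSet := by
  rw [SimpleGraph.mem_edgeSet, subG, SimpleGraph.fromRel_adj]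
  refine ⟨by simp, Or.inl ⟨x.1, x.2, rfl, ?_⟩⟩
  rcases ha with rfl | rfl
  · exact Or.inl rfl
  · exact Or.inr rfl

end SEL

open Set SEL in
theorem sel : SELStmt := by
  classical
  intro BV BE _ tl hd w hw k hk
  obtain ⟨φ, γ, hφ, hγ, hX⟩ := hk
  have hD : ∀ (x : Σ b, Fin (w b)) (a : BV), (a = tl x.1 ∨ a = hd x.1) →
      Drawn φ γ s((Sum.inl a : SV BV BE w), Sum.inr x) := fun x a ha =>
    have h := hγ _ (mem_edgeSet tl hd w x ha)
    ⟨h.1, h.2.2.1, h.2.2.2⟩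
  set X : Set (Sym2 (SV BV BE w) × Sym2 (SV BV BE w) × ℂ) :=
    {p | p.1 ∈ (subG tl hd w).edgeSet ∧ p.2.1 ∈ (subG tl hd w).edgeSet ∧
        p.1 ≠ p.2.1 ∧
        (∃ s : ℝ, 0 < s ∧ s < 1 ∧ γ p.1 s = p.2.2) ∧
        (∃ t : ℝ, 0 < t ∧ t < 1 ∧ γ p.2.1 t = p.2.2)} with hXdef
  let J : (Σ b, Fin (w b)) → Set ℂ := fun x =>
    γ s(Sum.inl (tl x.1), Sum.inr x) '' Icc (0 : ℝ) 1 ∪
      γ s(Sum.inl (hd x.1), Sum.inr x) '' Icc (0 : ℝ) 1
  have hJ : ∀ x z, z ∈ J x → ∃ a, (a = tl x.1 ∨ a = hd x.1) ∧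
      z ∈ γ s(Sum.inl a, Sum.inr x) '' Icc (0 : ℝ) 1 := by
    intro x z hz
    rcases hz with hz | hz
    · exact ⟨_, Or.inl rfl, hz⟩
    · exact ⟨_, Or.inr rfl, hz⟩
  let M : (Σ b, Fin (w b)) → (Σ b, Fin (w b)) → Prop := fun x y =>
    EndsDisj tl hd x.1 y.1 ∧ (J x ∩ J y).Nonempty
  have hM : ∀ x y, M x y → ∃ p ∈ X, ∃ a a' : BV, p.1 = s(Sum.inl a, Sum.inr x) ∧
      p.2.1 = s(Sum.inl a', Sum.inr y) := by
    rintro x y ⟨hE, z, hz, hz'⟩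
    obtain ⟨a, ha, hz⟩ := hJ x z hz
    obtain ⟨a', ha', hz'⟩ := hJ y z hz'
    have haa : a ≠ a' := by
      obtain ⟨h1, h2, h3, h4⟩ := hE
      rcases ha with rfl | rfl <;> rcases ha' with rfl | rfl <;> assumption
    have hxy : x ≠ y := by
      rintro rfl
      exact hE.1 rfl
    have hdis : ∀ u : SV BV BE w, u ∈ s((Sum.inl a : SV BV BE w), Sum.inr x) →
        u ∉ s((Sum.inl a' : SV BV BE w), Sum.inr y) := by
      intro u hu hu'
      rcases Sym2.mem_iff.1 hu with rfl | rfl <;> rcases Sym2.mem_iff.1 hu' with h | h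
      · exact haa (Sum.inl.inj h)
      · exact Sum.inl_ne_inr h
      · exact Sum.inr_ne_inl h
      · exact hxy (Sum.inr.inj h)
    obtain ⟨h1, h2⟩ := interior_of_disj hφ (hD x a ha) (hD y a' ha') hdis hz hz'
    refine ⟨(s(Sum.inl a, Sum.inr x), s(Sum.inl a', Sum.inr y), z),
      ⟨mem_edgeSet tl hd w x ha, mem_edgeSet tl hd w y ha', ?_, h1, h2⟩, a, a', rfl, rfl⟩
    intro h
    exact hdis (Sum.inl a) (by simp) (by
      have h' : s((Sum.inl a : SV BV BE w), Sum.inr x) = s(Sum.inl a', Sum.inr y) := h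
      rw [← h']; simp)
  have hM' : ∀ x y, ∃ p : Sym2 (SV BV BE w) × Sym2 (SV BV BE w) × ℂ, M x y → p ∈ X ∧
      ∃ a a' : BV, p.1 = s(Sum.inl a, Sum.inr x) ∧ p.2.1 = s(Sum.inl a', Sum.inr y) := by
    intro x y
    by_cases h : M x y
    · obtain ⟨p, hp⟩ := hM x y h
      exact ⟨p, fun _ => hp⟩
    · exact ⟨(s(Sum.inr x, Sum.inr x), s(Sum.inr x, Sum.inr x), 0), fun h' => absurd h' h⟩
  choose f hf using hM'
  have hcount : ∑ x, ∑ y, (if M x y then 1 else 0) ≤ 2 * k := by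
    rw [← Fintype.sum_prod_type', Finset.sum_boole]
    have hle : (↑(Finset.univ.filter fun p : (Σ b, Fin (w b)) × (Σ b, Fin (w b)) =>
        M p.1 p.2) : Set ((Σ b, Fin (w b)) × (Σ b, Fin (w b)))).encard ≤ X.encard := by
      refine Set.encard_le_encard_of_injOn (f := fun p => f p.1 p.2) ?_ ?_
      · intro p hp
        exact (hf _ _ (by simpa using hp)).1
      · rintro ⟨x, y⟩ hp ⟨x', y'⟩ hp' h
        obtain ⟨-, a, b, h1, h2⟩ := hf x y (by simpa using hp)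
        obtain ⟨-, a', b', h1', h2'⟩ := hf x' y' (by simpa using hp')
        have h : f x y = f x' y' := h
        rw [h, h1'] at h1
        rw [h, h2'] at h2
        simp only [Sym2.eq, Sym2.rel_iff', Prod.mk.injEq, Sum.inl.injEq, Sum.inr.injEq,
          Prod.swap_prod_mk, reduceCtorEq, and_self, or_false] at h1 h2
        exact Prod.ext h1.2.symm h2.2.symm
    rw [hX, Set.encard_coe_eq_coe_finsetCard] at hle
    exact_mod_cast hle
  obtain ⟨κ, hκ⟩ := avg w hw (fun x y => if M x y then 1 else 0) (by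
    intro x y hxy
    rw [if_neg]
    rintro ⟨hE, -⟩
    exact hE.1 (by rw [hxy]))
  refine ⟨fun a => φ (Sum.inl a), fun b => J ⟨b, κ b⟩, fun b => ⟨?_, ?_, ?_⟩, ?_⟩
  · have h1 := hD ⟨b, κ b⟩ _ (Or.inl rfl)
    have h2 := hD ⟨b, κ b⟩ _ (Or.inr rfl)
    exact h1.pathConnected.union h2.pathConnected
      ⟨φ (Sum.inr ⟨b, κ b⟩), h1.end_mem (by simp), h2.end_mem (by simp)⟩
  · exact Or.inl ((hD ⟨b, κ b⟩ _ (Or.inl rfl)).end_mem (by simp))
  · exact Or.inr ((hD ⟨b, κ b⟩ _ (Or.inr rfl)).end_mem (by simp))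
  · refine le_trans (le_of_eq ?_) (hκ.trans hcount)
    unfold wcross
    refine Finset.sum_congr rfl fun b _ => Finset.sum_congr rfl fun b' _ => ?_
    by_cases h : M ⟨b, κ b⟩ ⟨b', κ b'⟩
    · rw [if_pos h, if_pos h, one_mul]
    · rw [if_neg h, if_neg h, zero_mul]

end Pool.Agent.P.MP_324c94_co
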