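import Pool.Agent.P.MP_324c94_co.Defs

/-!
Straight-line drawings: counting the crossings.
-/

namespace Pool.Agent.P.MP_324c94_co

namespace SL

theorem mem_os {A B z : ℂ} :
    z ∈ openSegment ℝ A B ↔ ∃ t : ℝ, 0 < t ∧ t < 1 ∧ A + (t : ℂ) * (B - A) = z := by
  rw [openSegment_eq_image']
  constructor
  · rintro ⟨t, ⟨h0, h1⟩, rfl⟩
    exact ⟨t, h0, h1, by simp⟩
  · rintro ⟨t, h0, h1, rfl⟩
    exact ⟨t, ⟨h0, h1⟩, by simp⟩

/-- A point of the line with parameter strictly between two parameters lies in the open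
segment between the corresponding points. -/
theorem between {A d : ℂ} {a b c : ℝ} (h1 : a < c) (h2 : c < b) :
    A + (c : ℂ) * d ∈ openSegment ℝ (A + (a : ℂ) * d) (A + (b : ℂ) * d) := by
  have hab : 0 < b - a := by linarith
  refine mem_os.2 ⟨(c - a) / (b - a), div_pos (by linarith) hab,
    (div_lt_one hab).2 (by linarith), ?_⟩
  have : ((b : ℂ) - a) ≠ 0 := by exact_mod_cast hab.ne'
  push_cast
  field_simp
  ring

theorem line_case {A d : ℂ} {a b s : ℝ} (hs0 : 0 < s) (hs1 : s < 1) (has : a < s) (hsb : s < b)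
    (hA : A ∉ openSegment ℝ (A + (a : ℂ) * d) (A + (b : ℂ) * d))
    (hB : A + d ∉ openSegment ℝ (A + (a : ℂ) * d) (A + (b : ℂ) * d))
    (hC : A + (a : ℂ) * d ∉ openSegment ℝ A (A + d))
    (hD : A + (b : ℂ) * d ∉ openSegment ℝ A (A + d)) : a = 0 ∧ b = 1 := by
  have e0 : A + ((0 : ℝ) : ℂ) * d = A := by simp
  have e1 : A + ((1 : ℝ) : ℂ) * d = A + d := by simp
  constructor
  · rcases lt_trichotomy a 0 with h | h | h
    · refine absurd ?_ hA
      have := between (A := A) (d := d) h (by linarith : (0 : ℝ) < b)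
      rwa [e0] at this
    · exact h
    · refine absurd ?_ hC
      have := between (A := A) (d := d) h (by linarith : a < 1)
      rwa [e0, e1] at this
  · rcases lt_trichotomy b 1 with h | h | h
    · refine absurd ?_ hD
      have := between (A := A) (d := d) (by linarith : (0 : ℝ) < b) h
      rwa [e0, e1] at this
    · exact h
    · refine absurd ?_ hB
      have := between (A := A) (d := d) (by linarith : a < 1) h
      rwa [e1] at this

/-- Two open segments with two common points, none containing an end of the other, have the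
same ends. -/
theorem two_points {A B C D z w : ℂ} (hA : A ∉ openSegment ℝ C D) (hB : B ∉ openSegment ℝ C D)
    (hC : C ∉ openSegment ℝ A B) (hD : D ∉ openSegment ℝ A B)
    (hz : z ∈ openSegment ℝ A B) (hz' : z ∈ openSegment ℝ C D)
    (hw : w ∈ openSegment ℝ A B) (hw' : w ∈ openSegment ℝ C D) (hne : z ≠ w) :
    (C = A ∧ D = B) ∨ (C = B ∧ D = A) := by
  obtain ⟨s1, hs10, hs11, e1⟩ := mem_os.1 hz
  obtain ⟨t1, ht10, ht11, f1⟩ := mem_os.1 hz'
  obtain ⟨s2, -, -, e2⟩ := mem_os.1 hw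
  obtain ⟨t2, -, -, f2⟩ := mem_os.1 hw'
  have ht : t1 - t2 ≠ 0 := by
    intro h
    apply hne
    rw [← f1, ← f2, sub_eq_zero.1 h]
  have hs : s1 - s2 ≠ 0 := by
    intro h
    apply hne
    rw [← e1, ← e2, sub_eq_zero.1 h]
  have htc : ((t1 : ℂ) - t2) ≠ 0 := by exact_mod_cast ht
  obtain ⟨l, hl⟩ : ∃ l : ℝ, l = (s1 - s2) / (t1 - t2) := ⟨_, rfl⟩
  have hl0 : l ≠ 0 := hl ▸ div_ne_zero hs ht
  obtain ⟨d, rfl⟩ : ∃ d, B = A + d := ⟨B - A, by ring⟩
  have hDC : D - C = (l : ℂ) * d := by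
    rw [hl]
    push_cast
    field_simp
    linear_combination f1 - f2 - e1 + e2
  have hCe : C = A + ((s1 - t1 * l : ℝ) : ℂ) * d := by
    push_cast
    linear_combination f1 - e1 - (t1 : ℂ) * hDC
  have hDe : D = A + ((s1 + (1 - t1) * l : ℝ) : ℂ) * d := by
    push_cast
    linear_combination f1 - e1 + (1 - (t1 : ℂ)) * hDC
  rcases lt_or_gt_of_ne hl0 with h | h
  · right
    rw [openSegment_symm] at hA hB
    rw [hCe, hDe] at hA hB
    rw [hCe] at hC
    rw [hDe] at hD
    have := line_case hs10 hs11 (by nlinarith) (by nlinarith) hA hB hD hC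
    rw [hCe, hDe, this.1, this.2]
    simp
  · left
    rw [hCe, hDe] at hA hB
    rw [hCe] at hC
    rw [hDe] at hD
    have := line_case hs10 hs11 (by nlinarith) (by nlinarith) hA hB hC hD
    rw [hCe, hDe, this.1, this.2]
    simp

/-- Two open segments with a common end that meet, none containing an end of the other, have
the same ends. -/
theorem common_end {A B D z : ℂ} (hB : B ∉ openSegment ℝ A D) (hD : D ∉ openSegment ℝ A B)
    (hz : z ∈ openSegment ℝ A B) (hz' : z ∈ openSegment ℝ A D) : B = D := by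
  obtain ⟨s, hs0, hs1, e⟩ := mem_os.1 hz
  obtain ⟨t, ht0, ht1, f⟩ := mem_os.1 hz'
  have hsc : (s : ℂ) ≠ 0 := by exact_mod_cast hs0.ne'
  have htc : (t : ℂ) ≠ 0 := by exact_mod_cast ht0.ne'
  rcases lt_trichotomy s t with h | h | h
  · refine absurd (mem_os.2 ⟨s / t, div_pos hs0 ht0, (div_lt_one ht0).2 h, ?_⟩) hD
    push_cast
    field_simp
    linear_combination e - f
  · subst h
    have : (s : ℂ) * (B - D) = 0 := by linear_combination e - f
    exact sub_eq_zero.1 ((mul_eq_zero.1 this).resolve_left hsc)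
  · refine absurd (mem_os.2 ⟨t / s, div_pos ht0 hs0, (div_lt_one hs0).2 h, ?_⟩) hB
    push_cast
    field_simp
    linear_combination f - e

/-- A finite set with a fixed point free involution has even size. -/
theorem even_card {α : Type} (X : Finset α) (σ : α → α) (h1 : ∀ x ∈ X, σ x ∈ X)
    (h2 : ∀ x, σ (σ x) = x) (h3 : ∀ x ∈ X, σ x ≠ x) : Even X.card := by
  have : ∑ _x ∈ X, (1 : ZMod 2) = 0 :=
    Finset.sum_involution (fun x _ => σ x) (fun _ _ => by decide) (fun x hx _ => h3 x hx)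
      (fun x hx => h1 x hx) (fun x _ => h2 x)
  rw [Finset.sum_const, nsmul_eq_mul, mul_one] at this
  exact (ZMod.natCast_eq_zero_iff_even).1 this

end SL

open SL in
theorem sl : SLStmt := by
  intro V _ H φ hφ hop Q n hQ hmem
  have hex : ∀ e : Sym2 V, ∃ u v : V, e = s(u, v) := fun e =>
    Sym2.ind (fun u v => ⟨u, v, rfl⟩) e
  choose a b hab using hex
  have hadj : ∀ e ∈ H.edgeSet, H.Adj (a e) (b e) := fun e he => by
    rw [hab e] at he
    exact he
  let γ : Sym2 V → ℝ → ℂ := fun e t => φ (a e) + (t : ℂ) * (φ (b e) - φ (a e))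
  let X : Set (Sym2 V × Sym2 V × ℂ) := {p | p.1 ∈ H.edgeSet ∧ p.2.1 ∈ H.edgeSet ∧
        p.1 ≠ p.2.1 ∧
        (∃ s : ℝ, 0 < s ∧ s < 1 ∧ γ p.1 s = p.2.2) ∧
        (∃ t : ℝ, 0 < t ∧ t < 1 ∧ γ p.2.1 t = p.2.2)}
  let π : Sym2 V × Sym2 V × ℂ → Sym2 V × Sym2 V := fun p => (p.1, p.2.1)
  have hinj : Set.InjOn π X := by
    rintro ⟨e, f, z⟩ ⟨he, hf, hef, hz, hz'⟩ ⟨e', f', w⟩ ⟨-, -, -, hw, hw'⟩ hp
    obtain ⟨rfl, rfl⟩ := Prod.mk.inj hp
    by_contra hne
    have hzw : z ≠ w := fun h => hne (by rw [h])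
    rcases two_points (hop _ _ (hadj f hf) (a e)) (hop _ _ (hadj f hf) (b e))
      (hop _ _ (hadj e he) (a f)) (hop _ _ (hadj e he) (b f)) (mem_os.2 hz) (mem_os.2 hz')
      (mem_os.2 hw) (mem_os.2 hw') hzw with ⟨h1, h2⟩ | ⟨h1, h2⟩
    · apply hef
      show e = f
      rw [hab e, hab f, hφ h1, hφ h2]
    · apply hef
      show e = f
      rw [hab e, hab f, hφ h1, hφ h2, Sym2.eq_swap]
  have hmaps : ∀ p ∈ X, π p ∈ (Q : Set (Sym2 V × Sym2 V)) := by
    rintro ⟨e, f, z⟩ ⟨he, hf, hef, hz, hz'⟩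
    have hz1 := mem_os.2 hz
    have hz2 := mem_os.2 hz'
    have he1 := hop _ _ (hadj e he)
    have he2 := hop _ _ (hadj e he).symm
    have hf1 := hop _ _ (hadj f hf)
    have hf2 := hop _ _ (hadj f hf).symm
    have hef' : s(a e, b e) ≠ s(a f, b f) := by
      rw [← hab e, ← hab f]
      exact hef
    have hz1' := hz1
    have hz2' := hz2
    rw [openSegment_symm] at hz1' hz2'
    show (e, f) ∈ Q
    rw [hab e, hab f]
    refine hmem _ _ _ _ (hadj e he) (hadj f hf) ?_ ?_ ?_ ?_ ⟨z, hz1, hz2⟩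
    · intro h
      apply hef'
      rw [← h] at hz2 hf1
      rw [hφ (common_end (hf1 _) (he1 _) hz1 hz2), h]
    · intro h
      apply hef'
      rw [← h] at hz2' hf2
      rw [hφ (common_end (hf2 _) (he1 _) hz1 hz2'), h, Sym2.eq_swap]
    · intro h
      apply hef'
      rw [← h] at hz2 hf1
      rw [hφ (common_end (hf1 _) (he2 _) hz1' hz2), h, Sym2.eq_swap]
    · intro h
      apply hef'
      rw [← h] at hz2' hf2
      rw [hφ (common_end (hf2 _) (he2 _) hz1' hz2'), h]
  have hfin : X.Finite := Set.Finite.of_injOn hmaps hinj Q.finite_toSet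
  have hcard : hfin.toFinset.card ≤ Q.card :=
    Finset.card_le_card_of_injOn π (fun p hp => hmaps p (by simpa using hp))
      (by simpa using hinj)
  have heven : Even hfin.toFinset.card := by
    refine even_card _ (fun p => (p.2.1, p.1, p.2.2)) ?_ (fun _ => rfl) ?_
    · intro p hp
      rw [Set.Finite.mem_toFinset] at hp ⊢
      exact ⟨hp.2.1, hp.1, hp.2.2.1.symm, hp.2.2.2.2, hp.2.2.2.1⟩
    · intro p hp h
      rw [Set.Finite.mem_toFinset] at hp
      exact hp.2.2.1 (congrArg Prod.fst h).symm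
  obtain ⟨k, hk⟩ := heven
  refine ⟨k, ⟨φ, γ, hφ, ?_, ?_⟩, by omega⟩
  · intro e he
    have hne : φ (b e) - φ (a e) ≠ 0 := sub_ne_zero.2 fun h => (hadj e he).ne (hφ h).symm
    refine ⟨by fun_prop, ?_, ⟨a e, b e, hab e, by simp [γ], by simp [γ]⟩, ?_⟩
    · intro s _ t _ hst
      have : (s : ℂ) = t := mul_right_cancel₀ hne (add_left_cancel hst)
      exact_mod_cast this
    · intro t h0 h1 w hw
      exact hop _ _ (hadj e he) w (mem_os.2 ⟨t, h0, h1, hw⟩)
  · show X.encard = _
    rw [hfin.encard_eq_coe_toFinset_card, hk]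
    push_cast
    ring

open SL in
theorem ne : NEStmt := by
  classical
  intro V _ H
  obtain ⟨N, ⟨i⟩⟩ := Finite.exists_equiv_fin V
  let r : V → ℝ := fun v => ((i v : ℕ) : ℝ)
  have hr : Function.Injective r := fun u v h =>
    i.injective (Fin.ext (Nat.cast_injective (R := ℝ) h))
  let φ : V → ℂ := fun v => ⟨r v, r v ^ 2⟩
  have hφ : Function.Injective φ := fun u v h => hr (congrArg Complex.re h)
  let _ := Fintype.ofFinite (Sym2 V × Sym2 V)
  obtain ⟨k, hk, -⟩ := sl V H φ hφ (by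
    intro u v huv x hx
    obtain ⟨t, h0, h1, e⟩ := mem_os.1 hx
    have e1 := congrArg Complex.re e
    have e2 := congrArg Complex.im e
    simp [φ] at e1 e2
    have h3 : t * (1 - t) * (r u - r v) ^ 2 = 0 := by
      rw [← e1] at e2
      linear_combination e2
    have h4 : r u - r v ≠ 0 := sub_ne_zero.2 fun h => huv.ne (hr h)
    have h5 : 0 < t * (1 - t) * (r u - r v) ^ 2 := by
      have : 0 < 1 - t := by linarith
      positivity
    exact h5.ne' h3) Finset.univ (Finset.univ : Finset (Sym2 V × Sym2 V)).card (by omega)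
    (fun _ _ _ _ _ _ _ _ _ _ _ => Finset.mem_univ _)
  exact ⟨k, hk⟩

end Pool.Agent.P.MP_324c94_co
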