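import Pool.Agent.P.MP_324c94_co.Defs

/-!
Local geometry of the folded drawing of one tile.
-/

namespace Pool.Agent.P.MP_324c94_co

namespace Tile

/-- Integer positions of the local vertices. -/
def lpz : Fin 22 → ℤ × ℤ :=
  ![(0, 0), (0, 100), (0, 900), (-600, 300), (-400, 500), (-600, 700), (-200, 200), (-300, 300),
    (-300, 700), (-200, 800), (600, 300), (400, 500), (600, 700), (200, 200), (300, 300),
    (300, 700), (200, 800), (0, 650), (0, 350), (-2000, 500), (2000, 500), (0, 1000)]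

/-- First end of the segment carrying the subdividing vertices of an edge. -/
def m0z : Fin 41 → ℤ × ℤ :=
  ![(-300, 150), (-500, 400), (-500, 600), (-300, 850), (0, 50), (-100, 150), (-250, 250),
    (-350, 400), (-350, 600), (-250, 750), (-100, 850), (0, 950), (300, 150), (500, 400),
    (500, 600), (300, 850), (100, 150), (250, 250), (350, 400), (350, 600), (250, 750),
    (100, 850), (-150, 312), (-225, 387), (0, 775), (225, 387), (150, 312), (0, 225), (225, 612),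
    (150, 687), (-150, 687), (-225, 612), (-450, 300), (-450, 700), (450, 300), (450, 700),
    (-700, 320), (-700, 680), (0, 500), (700, 320), (700, 680)]

/-- Second end of the segment carrying the subdividing vertices of an edge. -/
def m1z : Fin 41 → ℤ × ℤ :=
  ![(-300, 154), (-500, 404), (-500, 604), (-300, 854), (4, 50), (-100, 154), (-250, 254),
    (-346, 400), (-346, 600), (-250, 754), (-100, 854), (4, 950), (300, 154), (500, 404),
    (500, 604), (300, 854), (100, 154), (250, 254), (354, 400), (354, 600), (250, 754),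
    (100, 854), (-146, 312), (-221, 387), (4, 775), (229, 387), (154, 312), (4, 225), (229, 612),
    (154, 687), (-146, 687), (-221, 612), (-450, 304), (-450, 704), (450, 304), (450, 704),
    (-700, 324), (-700, 684), (4, 500), (700, 324), (700, 684)]

/-- An integer point as a complex number. -/
def toC (p : ℤ × ℤ) : ℂ := ⟨(p.1 : ℝ), (p.2 : ℝ)⟩

/-- Position of a local vertex. -/
def lp (x : Fin 22) : ℂ := toC (lpz x)

/-- The point with parameter `θ` between two integer points. -/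
def mix (p q : ℤ × ℤ) (θ : ℝ) : ℂ :=
  ⟨(1 - θ) * (p.1 : ℝ) + θ * (q.1 : ℝ), (1 - θ) * (p.2 : ℝ) + θ * (q.2 : ℝ)⟩

/-- Position of a subdividing vertex. -/
def lm (e : Fin 41) (θ : ℝ) : ℂ := mix (m0z e) (m1z e) θ

/-- The base vertex of a half edge. -/
def apex (e : Fin 41) (s : Bool) : Fin 22 := if s then lhd e else ltl e

/-- Triangles with integer corners. -/
abbrev Tri := (ℤ × ℤ) × (ℤ × ℤ) × (ℤ × ℤ)

/-- The triangle containing all copies of a half edge. -/
def tri (e : Fin 41) (s : Bool) : Tri := (lpz (apex e s), m0z e, m1z e)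

/-- Value of a linear functional. -/
def dot (f p : ℤ × ℤ) : ℤ := f.1 * p.1 + f.2 * p.2

/-- The functional `f` separates the open segments of `T` from the triangle `S`. -/
def sepf (f : ℤ × ℤ) (T S : Tri) : Bool :=
  let th := min (dot f S.1) (min (dot f S.2.1) (dot f S.2.2))
  let a := dot f T.1
  let b := dot f T.2.1
  let c := dot f T.2.2
  decide (a ≤ th) && decide (b ≤ th) && decide (c ≤ th) &&
    (decide (a < th) || (decide (b < th) && decide (c < th)))

/-- A normal vector of a segment. -/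
def nrm (p q : ℤ × ℤ) : ℤ × ℤ := (q.2 - p.2, p.1 - q.1)

/-- Candidate functionals from the sides of a triangle. -/
def cands (T : Tri) : List (ℤ × ℤ) :=
  [nrm T.1 T.2.1, nrm T.2.1 T.1, nrm T.1 T.2.2, nrm T.2.2 T.1, nrm T.2.1 T.2.2, nrm T.2.2 T.2.1]

/-- Some candidate functional separates. -/
def sep (T S : Tri) : Bool :=
  ([(1, 0), (-1, 0), (0, 1), (0, -1)] ++ cands T ++ cands S).any fun f => sepf f T S

theorem sep_sound {T S : Tri} (h : sep T S = true) {θ θ' : ℝ} (h0 : 0 ≤ θ) (h1 : θ ≤ 1)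
    (h0' : 0 ≤ θ') (h1' : θ' ≤ 1) {z : ℂ} (hz : z ∈ openSegment ℝ (toC T.1) (mix T.2.1 T.2.2 θ))
    (hz' : z ∈ segment ℝ (toC S.1) (mix S.2.1 S.2.2 θ')) : False := by
  obtain ⟨f, -, hf⟩ := List.any_eq_true.1 h
  simp only [sepf, Bool.and_eq_true, Bool.or_eq_true, decide_eq_true_eq] at hf
  obtain ⟨⟨⟨ha, hb⟩, hc⟩, hd⟩ := hf
  set th := min (dot f S.1) (min (dot f S.2.1) (dot f S.2.2)) with hth
  have s1 : th ≤ dot f S.1 := min_le_left _ _
  have s2 : th ≤ dot f S.2.1 := (min_le_right _ _).trans (min_le_left _ _)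
  have s3 : th ≤ dot f S.2.2 := (min_le_right _ _).trans (min_le_right _ _)
  obtain ⟨a, b, ha0, hb0, hab, rfl⟩ := hz
  obtain ⟨c, d, hc0, hd0, hcd, heq⟩ := hz'
  have e1 := congrArg Complex.re heq
  have e2 := congrArg Complex.im heq
  simp only [toC, mix, Complex.add_re, Complex.add_im, Complex.smul_re, Complex.smul_im,
    smul_eq_mul] at e1 e2
  have key : c * (dot f S.1 : ℝ) + d * ((1 - θ') * (dot f S.2.1 : ℝ) + θ' * (dot f S.2.2 : ℝ)) =
      a * (dot f T.1 : ℝ) + b * ((1 - θ) * (dot f T.2.1 : ℝ) + θ * (dot f T.2.2 : ℝ)) := by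
    simp only [dot]
    push_cast
    linear_combination (f.1 : ℝ) * e1 + (f.2 : ℝ) * e2
  have s1' : (th : ℝ) ≤ dot f S.1 := by exact_mod_cast s1
  have s2' : (th : ℝ) ≤ dot f S.2.1 := by exact_mod_cast s2
  have s3' : (th : ℝ) ≤ dot f S.2.2 := by exact_mod_cast s3
  have ha' : (dot f T.1 : ℝ) ≤ th := by exact_mod_cast ha
  have hb' : (dot f T.2.1 : ℝ) ≤ th := by exact_mod_cast hb
  have hc' : (dot f T.2.2 : ℝ) ≤ th := by exact_mod_cast hc
  have m1 : (th : ℝ) ≤ (1 - θ') * (dot f S.2.1 : ℝ) + θ' * (dot f S.2.2 : ℝ) := by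
    nlinarith [mul_nonneg (sub_nonneg.2 h1') (sub_nonneg.2 s2'), mul_nonneg h0' (sub_nonneg.2 s3')]
  have m2 : (th : ℝ) ≤ c * (dot f S.1 : ℝ) +
      d * ((1 - θ') * (dot f S.2.1 : ℝ) + θ' * (dot f S.2.2 : ℝ)) := by
    have : (th : ℝ) = c * th + d * th := by rw [← add_mul, hcd, one_mul]
    nlinarith [mul_nonneg hc0 (sub_nonneg.2 s1'), mul_nonneg hd0 (sub_nonneg.2 m1)]
  have m3 : (1 - θ) * (dot f T.2.1 : ℝ) + θ * (dot f T.2.2 : ℝ) ≤ th := by
    nlinarith [mul_nonneg (sub_nonneg.2 h1) (sub_nonneg.2 hb'), mul_nonneg h0 (sub_nonneg.2 hc')]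
  have hth2 : (th : ℝ) = a * th + b * th := by rw [← add_mul, hab, one_mul]
  rcases hd with hd | ⟨hd1, hd2⟩
  · have : (dot f T.1 : ℝ) < th := by exact_mod_cast hd
    nlinarith [mul_pos ha0 (sub_pos.2 this), mul_nonneg hb0.le (sub_nonneg.2 m3)]
  · have h2 : (dot f T.2.1 : ℝ) < th := by exact_mod_cast hd1
    have h3 : (dot f T.2.2 : ℝ) < th := by exact_mod_cast hd2
    have m4 : (1 - θ) * (dot f T.2.1 : ℝ) + θ * (dot f T.2.2 : ℝ) < th := by
      rcases eq_or_lt_of_le h0 with h | h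
      · subst h; simpa using h2
      · nlinarith [mul_nonneg (sub_nonneg.2 h1) (sub_pos.2 h2).le, mul_pos h (sub_pos.2 h3)]
    nlinarith [mul_nonneg ha0.le (sub_nonneg.2 ha'), mul_pos hb0 (sub_pos.2 m4)]

/-- The half edge does not end at one of the two outer vertices. -/
def isCore (e : Fin 41) (s : Bool) : Bool := apex e s != 19 && apex e s != 20

/-- The pairs of edges that cross in the folded drawing. -/
def fold : List (Fin 41 × Fin 41) :=
  [(22, 30), (22, 31), (23, 30), (23, 31), (25, 28), (25, 29), (26, 28), (26, 29)]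

/-- Pairs of half edges that may cross. -/
def allowed (e : Fin 41) (s : Bool) (e' : Fin 41) (s' : Bool) : Bool :=
  fold.contains (e, e') && apex e s == 17 && apex e' s' == 18

theorem chkEE : ∀ (e : Fin 41) (s : Bool) (e' : Fin 41) (s' : Bool),
    (isCore e s && isCore e' s' && apex e s != apex e' s' && !allowed e s e' s' &&
      !allowed e' s' e s) = true → sep (tri e s) (tri e' s') = true := by
  decide +kernel

theorem chkEV : ∀ (e : Fin 41) (s : Bool) (x : Fin 22),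
    isCore e s = true → sep (tri e s) (lpz x, lpz x, lpz x) = true := by
  decide +kernel

theorem chkEM : ∀ (e : Fin 41) (s : Bool) (e' : Fin 41),
    isCore e s = true → e' ≠ 38 → sep (tri e s) (m0z e', m0z e', m1z e') = true := by
  decide +kernel

theorem chkMV : ∀ (e : Fin 41) (x : Fin 22),
    e ≠ 38 → sep (m0z e, m0z e, m1z e) (lpz x, lpz x, lpz x) = true := by
  decide +kernel

theorem chkMM : ∀ (e e' : Fin 41),
    e ≠ e' → e ≠ 38 → e' ≠ 38 → sep (m0z e, m0z e, m1z e) (m0z e', m0z e', m1z e') = true := by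
  decide +kernel

theorem lpz_inj : ∀ x y : Fin 22, lpz x = lpz y → x = y := by decide +kernel

theorem m0_ne_m1 : ∀ e : Fin 41, m0z e ≠ m1z e := by decide +kernel

theorem lpz_bound : ∀ x : Fin 22, x ≠ 19 → x ≠ 20 →
    -600 ≤ (lpz x).1 ∧ (lpz x).1 ≤ 600 ∧ 0 ≤ (lpz x).2 ∧ (lpz x).2 ≤ 1000 ∧
      (x ≠ 21 → (lpz x).2 ≤ 900) := by decide +kernel

theorem mz_bound : ∀ e : Fin 41,
    (-700 ≤ (m0z e).1 ∧ (m0z e).1 ≤ 700 ∧ 1 ≤ (m0z e).2 ∧ (m0z e).2 ≤ 999) ∧
    (-700 ≤ (m1z e).1 ∧ (m1z e).1 ≤ 700 ∧ 1 ≤ (m1z e).2 ∧ (m1z e).2 ≤ 999) := by decide +kernel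

theorem mem_open_mix (p q : ℤ × ℤ) {θ : ℝ} (h0 : 0 ≤ θ) (h1 : θ < 1) :
    ∃ τ : ℝ, 0 ≤ τ ∧ τ ≤ 1 ∧ mix p q θ ∈ openSegment ℝ (toC p) (mix p q τ) := by
  rcases eq_or_lt_of_le h0 with h | h
  · subst h
    refine ⟨0, le_rfl, zero_le_one, 1 / 2, 1 / 2, by norm_num, by norm_num, by norm_num, ?_⟩
    apply Complex.ext <;> simp [toC, mix] <;> ring
  · refine ⟨1, zero_le_one, le_rfl, 1 - θ, θ, by linarith, h, by ring, ?_⟩
    apply Complex.ext <;> simp [toC, mix]

theorem toC_inj {p q : ℤ × ℤ} (h : toC p = toC q) : p = q := by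
  have e1 := congrArg Complex.re h
  have e2 := congrArg Complex.im h
  simp only [toC] at e1 e2
  exact Prod.ext (by exact_mod_cast e1) (by exact_mod_cast e2)

theorem lp_inj {x y : Fin 22} (h : lp x = lp y) : x = y := lpz_inj x y (toC_inj h)

theorem lm_ne_lp {e : Fin 41} (he : e ≠ 38) (x : Fin 22) {θ : ℝ} (h0 : 0 ≤ θ) (h1 : θ < 1) :
    lm e θ ≠ lp x := by
  intro h
  obtain ⟨τ, t0, t1, hm⟩ := mem_open_mix (m0z e) (m1z e) h0 h1
  refine sep_sound (chkMV e x he) t0 t1 le_rfl zero_le_one hm ?_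
  have : mix (m0z e) (m1z e) θ = toC (lpz x) := h
  rw [this]
  exact left_mem_segment _ _ _

theorem lm_inj {e e' : Fin 41} (he : e ≠ 38) (he' : e' ≠ 38) {θ θ' : ℝ} (h0 : 0 ≤ θ) (h1 : θ < 1)
    (h0' : 0 ≤ θ') (h1' : θ' < 1) (h : lm e θ = lm e' θ') : e = e' ∧ θ = θ' := by
  have hee : e = e' := by
    by_contra hne
    obtain ⟨τ, t0, t1, hm⟩ := mem_open_mix (m0z e) (m1z e) h0 h1
    refine sep_sound (chkMM e e' hne he he') t0 t1 h0' h1'.le hm ?_
    have : mix (m0z e) (m1z e) θ = mix (m0z e') (m1z e') θ' := h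
    rw [this]
    exact right_mem_segment _ _ _
  subst hee
  refine ⟨rfl, ?_⟩
  have e1 := congrArg Complex.re h
  have e2 := congrArg Complex.im h
  simp only [lm, mix] at e1 e2
  by_contra hne
  have hne' : θ - θ' ≠ 0 := sub_ne_zero.2 hne
  apply m0_ne_m1 e
  have a1 : (θ - θ') * (((m0z e).1 : ℝ) - (m1z e).1) = 0 := by linarith
  have a2 : (θ - θ') * (((m0z e).2 : ℝ) - (m1z e).2) = 0 := by linarith
  have b1 := sub_eq_zero.1 ((mul_eq_zero.1 a1).resolve_left hne')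
  have b2 := sub_eq_zero.1 ((mul_eq_zero.1 a2).resolve_left hne')
  exact Prod.ext (by exact_mod_cast b1) (by exact_mod_cast b2)

theorem core_vertex {e : Fin 41} {s : Bool} (hc : isCore e s = true) (x : Fin 22) {θ : ℝ}
    (h0 : 0 ≤ θ) (h1 : θ ≤ 1) : lp x ∉ openSegment ℝ (lp (apex e s)) (lm e θ) := fun h =>
  sep_sound (chkEV e s x hc) h0 h1 le_rfl zero_le_one h (left_mem_segment _ _ _)

theorem core_mid {e : Fin 41} {s : Bool} (hc : isCore e s = true) {e' : Fin 41} (he' : e' ≠ 38)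
    {θ θ' : ℝ} (h0 : 0 ≤ θ) (h1 : θ ≤ 1) (h0' : 0 ≤ θ') (h1' : θ' ≤ 1) :
    lm e' θ' ∉ openSegment ℝ (lp (apex e s)) (lm e θ) := fun h =>
  sep_sound (chkEM e s e' hc he') h0 h1 h0' h1' h (right_mem_segment _ _ _)

theorem core_core {e e' : Fin 41} {s s' : Bool} (hc : isCore e s = true) (hc' : isCore e' s' = true)
    (hne : apex e s ≠ apex e' s') {θ θ' : ℝ} (h0 : 0 ≤ θ) (h1 : θ ≤ 1) (h0' : 0 ≤ θ') (h1' : θ' ≤ 1)
    {z : ℂ} (hz : z ∈ openSegment ℝ (lp (apex e s)) (lm e θ))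
    (hz' : z ∈ openSegment ℝ (lp (apex e' s')) (lm e' θ')) :
    allowed e s e' s' = true ∨ allowed e' s' e s = true := by
  by_contra hcon
  rw [not_or] at hcon
  refine sep_sound (chkEE e s e' s' ?_) h0 h1 h0' h1' hz (openSegment_subset_segment _ _ _ hz')
  simp [hc, hc', hne, hcon.1, hcon.2]

theorem lp_bound {x : Fin 22} (h1 : x ≠ 19) (h2 : x ≠ 20) :
    -600 ≤ (lp x).re ∧ (lp x).re ≤ 600 ∧ 0 ≤ (lp x).im ∧ (lp x).im ≤ 1000 ∧
      (x ≠ 21 → (lp x).im ≤ 900) := by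
  obtain ⟨a, b, c, d, f⟩ := lpz_bound x h1 h2
  simp only [lp, toC]
  refine ⟨by exact_mod_cast a, by exact_mod_cast b, by exact_mod_cast c, by exact_mod_cast d,
    fun h => by exact_mod_cast f h⟩

theorem lm_bound (e : Fin 41) {θ : ℝ} (h0 : 0 ≤ θ) (h1 : θ ≤ 1) :
    -700 ≤ (lm e θ).re ∧ (lm e θ).re ≤ 700 ∧ 1 ≤ (lm e θ).im ∧ (lm e θ).im ≤ 999 := by
  obtain ⟨⟨a1, a2, a3, a4⟩, b1, b2, b3, b4⟩ := mz_bound e
  have a1' : (-700 : ℝ) ≤ (m0z e).1 := by exact_mod_cast a1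
  have a2' : ((m0z e).1 : ℝ) ≤ 700 := by exact_mod_cast a2
  have a3' : (1 : ℝ) ≤ (m0z e).2 := by exact_mod_cast a3
  have a4' : ((m0z e).2 : ℝ) ≤ 999 := by exact_mod_cast a4
  have b1' : (-700 : ℝ) ≤ (m1z e).1 := by exact_mod_cast b1
  have b2' : ((m1z e).1 : ℝ) ≤ 700 := by exact_mod_cast b2
  have b3' : (1 : ℝ) ≤ (m1z e).2 := by exact_mod_cast b3
  have b4' : ((m1z e).2 : ℝ) ≤ 999 := by exact_mod_cast b4
  have h2 : 0 ≤ 1 - θ := by linarith
  simp only [lm, mix]
  refine ⟨?_, ?_, ?_, ?_⟩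
  · nlinarith [mul_nonneg h2 (sub_nonneg.2 a1'), mul_nonneg h0 (sub_nonneg.2 b1')]
  · nlinarith [mul_nonneg h2 (sub_nonneg.2 a2'), mul_nonneg h0 (sub_nonneg.2 b2')]
  · nlinarith [mul_nonneg h2 (sub_nonneg.2 a3'), mul_nonneg h0 (sub_nonneg.2 b3')]
  · nlinarith [mul_nonneg h2 (sub_nonneg.2 a4'), mul_nonneg h0 (sub_nonneg.2 b4')]

theorem lm_left {e : Fin 41} (h : e = 36 ∨ e = 37) (θ : ℝ) : (lm e θ).re = -700 := by
  rcases h with rfl | rfl
  · have h0 : m0z 36 = (-700, 320) := by decide +kernel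
    have h1 : m1z 36 = (-700, 324) := by decide +kernel
    simp only [lm, mix, h0, h1]; push_cast; ring
  · have h0 : m0z 37 = (-700, 680) := by decide +kernel
    have h1 : m1z 37 = (-700, 684) := by decide +kernel
    simp only [lm, mix, h0, h1]; push_cast; ring

theorem lm_right {e : Fin 41} (h : e = 39 ∨ e = 40) (θ : ℝ) : (lm e θ).re = 700 := by
  rcases h with rfl | rfl
  · have h0 : m0z 39 = (700, 320) := by decide +kernel
    have h1 : m1z 39 = (700, 324) := by decide +kernel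
    simp only [lm, mix, h0, h1]; push_cast; ring
  · have h0 : m0z 40 = (700, 680) := by decide +kernel
    have h1 : m1z 40 = (700, 684) := by decide +kernel
    simp only [lm, mix, h0, h1]; push_cast; ring

theorem apex_cases : ∀ (e : Fin 41) (s : Bool),
    (isCore e s = true ∧ e ≠ 38 ∧ apex e s ≠ 19 ∧ apex e s ≠ 20) ∨
    (apex e s = 19 ∧ (e = 36 ∨ e = 37)) ∨ (apex e s = 20 ∧ (e = 39 ∨ e = 40)) ∨
    (e = 38 ∧ s = false ∧ apex e s = 19) ∨ (e = 38 ∧ s = true ∧ apex e s = 20) := by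
  decide +kernel

end Tile

end Pool.Agent.P.MP_324c94_co
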