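import Pool.Agent.P.MP_324c94_co.Edges

/-!
The upper bound for the crossing number after deleting an edge.
-/

namespace Pool.Agent.P.MP_324c94_co

namespace UB

open Tile

variable {T : ℕ}

/-- The edge given by a half edge. -/
def sym (d : ZMod T × LC × Bool) : Sym2 (VV T) := s(ea d.1 d.2.1 d.2.2, em d.1 d.2.1)

theorem rel_desc {u v : VV T}
    (h : ∃ (b : BE T) (k : Fin (bw b)), v = Sum.inr ⟨b, k⟩ ∧
      (u = Sum.inl (btl b) ∨ u = Sum.inl (bhd b))) :
    ∃ j c s, u = ea j c s ∧ v = em j c := by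
  obtain ⟨⟨j, e⟩, k, h1, h2 | h2⟩ := h
  · exact ⟨j, ⟨e, k⟩, false, h2, h1⟩
  · exact ⟨j, ⟨e, k⟩, true, h2, h1⟩

theorem adj_desc {u v : VV T} (h : (GT T).Adj u v) :
    ∃ j c s, (u = ea j c s ∧ v = em j c) ∨ (u = em j c ∧ v = ea j c s) := by
  rw [GT, subG, SimpleGraph.fromRel_adj] at h
  rcases h.2 with h | h
  · obtain ⟨j, c, s, h1, h2⟩ := rel_desc h
    exact ⟨j, c, s, Or.inl ⟨h1, h2⟩⟩
  · obtain ⟨j, c, s, h1, h2⟩ := rel_desc h
    exact ⟨j, c, s, Or.inr ⟨h2, h1⟩⟩

theorem edge_desc {e : Sym2 (VV T)} (h : e ∈ (GT T).edgeSet) : ∃ d, e = sym d := by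
  induction e using Sym2.ind with
  | _ u v =>
    obtain ⟨j, c, s, ⟨rfl, rfl⟩ | ⟨rfl, rfl⟩⟩ := adj_desc h
    · exact ⟨(j, c, s), rfl⟩
    · exact ⟨(j, c, s), Sym2.eq_swap⟩

theorem adj_del {d0 : ZMod T × LC × Bool} {u v : VV T}
    (h : ((GT T).deleteEdges {sym d0}).Adj u v) :
    ∃ j c s, (j, c, s) ≠ d0 ∧ s(u, v) = sym (j, c, s) ∧
      (∀ f : VV T → ℂ, openSegment ℝ (f u) (f v) = openSegment ℝ (f (ea j c s)) (f (em j c))) ∧
      (ea j c s = u ∨ ea j c s = v) := by
  rw [SimpleGraph.deleteEdges_adj] at h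
  obtain ⟨j, c, s, ⟨rfl, rfl⟩ | ⟨rfl, rfl⟩⟩ := adj_desc h.1
  · refine ⟨j, c, s, ?_, rfl, fun _ => rfl, Or.inl rfl⟩
    rintro rfl
    exact h.2 rfl
  · refine ⟨j, c, s, ?_, Sym2.eq_swap, fun _ => openSegment_symm _ _ _, Or.inr rfl⟩
    rintro rfl
    exact h.2 Sym2.eq_swap

theorem mem_cutD {c0 : LC} {s0 : Bool} {d : LC × Bool} : d ∈ cutD c0 s0 ↔
    d ≠ (c0, s0) ∧ inA c0.1 (apex d.1.1 d.2) ≠ midA c0 s0 d.1 := by
  simp only [cutD, Finset.mem_filter, Finset.mem_univ, true_and]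

attribute [local irreducible] cutD

variable (p : Par T)

theorem etag_core {j : ZMod T} {c : LC} {s : Bool} {r : ℕ} (h : etag p j c s = .core r) :
    rr p j = r ∧ rr p j ≠ 0 ∧ isCore c.1 s = true ∧ c.1 ≠ 38 ∧ apex c.1 s ≠ 19 ∧
      apex c.1 s ≠ 20 := by
  unfold etag at h
  split_ifs at h with h0 h1 h2 h3 h4 h5 h6
  exact ⟨by injection h, h0, by simp [isCore, h5, h6], h3, h5, h6⟩

theorem etag_left {j : ZMod T} {c : LC} {s : Bool} {r : ℕ}
    (h : etag p j c s = .WL r ∨ etag p j c s = .LL r) : rr p j = r ∧ apex c.1 s = 19 := by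
  unfold etag at h
  rcases h with h | h
  · split_ifs at h with h0 h1 h2 h3 h4 h5 h6
    exact ⟨by injection h, h5⟩
  · split_ifs at h with h0 h1 h2 h3 h4 h5 h6
    rw [Bool.not_eq_true] at h4
    exact ⟨by injection h, by rw [h3, h4]; decide⟩

theorem etag_right {j : ZMod T} {c : LC} {s : Bool} {r : ℕ}
    (h : etag p j c s = .WR r ∨ etag p j c s = .LR r) : rr p j = r ∧ apex c.1 s = 20 := by
  unfold etag at h
  rcases h with h | h
  · split_ifs at h with h0 h1 h2 h3 h4 h5 h6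
    exact ⟨by injection h, h6⟩
  · split_ifs at h with h0 h1 h2 h3 h4 h5 h6
    exact ⟨by injection h, by rw [h3, h4]; decide⟩

/-- The only copy of the long edge. -/
def cf : LC := ⟨38, ⟨0, lt_of_lt_of_eq Nat.one_pos lw38.symm⟩⟩

theorem etag_LL {j : ZMod T} {c : LC} {s : Bool} {r : ℕ} (h : etag p j c s = .LL r) :
    c = cf ∧ s = false := by
  unfold etag at h
  split_ifs at h with h0 h1 h2 h3 h4 h5 h6
  rw [Bool.not_eq_true] at h4
  refine ⟨?_, h4⟩
  obtain ⟨e, k⟩ := c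
  simp only at h3
  subst h3
  have hk : k.val < 1 := lt_of_lt_of_eq k.2 lw38
  have : k = ⟨0, lt_of_lt_of_eq Nat.one_pos lw38.symm⟩ := Fin.ext (by simp only; omega)
  rw [this, cf]

theorem etag_special {j : ZMod T} {c : LC} {s : Bool} (h : (etag p j c s).special) :
    j = p.j0 := by
  unfold etag at h
  by_cases h0 : rr p j = 0
  · exact (rr_zero p).1 h0
  · rw [if_neg h0] at h
    split_ifs at h <;> exact h.elim

theorem etag_cut {j : ZMod T} {c : LC} {s : Bool} (hne : (j, c, s) ≠ (p.j0, p.c0, p.s0))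
    (h : etag p j c s = .cut) : j = p.j0 ∧ (c, s) ∈ cutD p.c0 p.s0 := by
  have hj : j = p.j0 := etag_special p (by rw [h]; trivial)
  refine ⟨hj, ?_⟩
  unfold etag at h
  split_ifs at h with h0 h1 h2 h3 h4 h5 h6
  refine mem_cutD.2 ⟨?_, h1⟩
  intro h2
  apply hne
  rw [hj, h2]

theorem os_shift {a b o z : ℂ} (h : z ∈ openSegment ℝ (a + o) (b + o)) :
    z - o ∈ openSegment ℝ a b := by
  obtain ⟨α, β, h1, h2, h3, rfl⟩ := h
  refine ⟨α, β, h1, h2, h3, ?_⟩
  have : o = α • o + β • o := by rw [← add_smul, h3, one_smul]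
  rw [smul_add, smul_add]
  linear_combination (exp := 1) this

variable [NeZero T]

theorem core_os {j : ZMod T} {c : LC} {s : Bool} {r : ℕ} (h : etag p j c s = .core r) {z : ℂ}
    (hz : z ∈ openSegment ℝ (φ p (ea j c s)) (φ p (em j c))) :
    z - off r ∈ openSegment ℝ (Tile.lp (apex c.1 s)) (lm c.1 (par c.1 c.2.val)) := by
  obtain ⟨h1, h0, -, h3, h4, h5⟩ := etag_core p h
  rw [ea, φ_core p h0 h4 h5, φ_em_norm p h0 h3, h1] at hz
  exact os_shift hz

theorem no_vertex {j : ZMod T} {c : LC} {s : Bool} (hne : (j, c, s) ≠ (p.j0, p.c0, p.s0))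
    (x : VV T) : φ p x ∉ openSegment ℝ (φ p (ea j c s)) (φ p (em j c)) := by
  intro hz
  have hT := T_real p
  obtain ⟨r, h1, h2⟩ := zev (by linarith) (ze_mem p hne hz) (zv_mem p x)
  have hz' := core_os p h1 hz
  have hc := (etag_core p h1).2.2.1
  obtain ⟨t0, t1⟩ := par_bound c.1 c.2
  rcases tag_core p h2 with ⟨j', a, -, -, h3⟩ | ⟨j', e, k, -, -, he, h3⟩
  · rw [h3, add_sub_cancel_right] at hz'
    exact core_vertex hc _ t0 t1.le hz'
  · rw [h3, add_sub_cancel_right] at hz'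
    exact core_mid hc he t0 t1.le (par_bound e k).1 (par_bound e k).2.le hz'

/-- The pairs of copies of two local edges. -/
def pairs (q : Fin 41 × Fin 41) : Finset ((LC × Bool) × (LC × Bool)) :=
  (Finset.univ : Finset (Fin (lw q.1) × Fin (lw q.2))).image fun k =>
    ((⟨q.1, k.1⟩, lhd q.1 == 17), (⟨q.2, k.2⟩, lhd q.2 == 18))

/-- The pairs of half edges which cross in the folded drawing. -/
def foldD : Finset ((LC × Bool) × (LC × Bool)) := fold.toFinset.biUnion pairs

theorem fold_sum : ∑ q ∈ fold.toFinset, lw q.1 * lw q.2 = 968 := by decide +kernel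

theorem foldD_card : foldD.card ≤ 968 := by
  rw [← fold_sum]
  refine Finset.card_biUnion_le.trans (Finset.sum_le_sum fun q _ => ?_)
  refine Finset.card_image_le.trans ?_
  simp

theorem side_eq : ∀ (e : Fin 41) (s : Bool),
    (apex e s = 17 → s = (lhd e == 17)) ∧ (apex e s = 18 → s = (lhd e == 18)) := by
  decide +kernel

theorem mem_foldD {c c' : LC} {s s' : Bool} (h : allowed c.1 s c'.1 s' = true) :
    ((c, s), (c', s')) ∈ foldD := by
  simp only [allowed, Bool.and_eq_true, beq_iff_eq, List.contains_iff_mem] at h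
  obtain ⟨⟨h1, h2⟩, h3⟩ := h
  refine Finset.mem_biUnion.2 ⟨(c.1, c'.1), List.mem_toFinset.2 h1, ?_⟩
  refine Finset.mem_image.2 ⟨(c.2, c'.2), Finset.mem_univ _, ?_⟩
  rw [(side_eq _ _).1 h2, (side_eq _ _).2 h3]

attribute [local irreducible] foldD

/-- All pairs of local half edges. -/
def allD : Finset ((LC × Bool) × (LC × Bool)) := Finset.univ

theorem mem_allD (q : (LC × Bool) × (LC × Bool)) : q ∈ allD := by
  simp only [allD, Finset.mem_univ]

attribute [local irreducible] allD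

/-- Descriptors of half edges. -/
abbrev DD (T : ℕ) : Type := ZMod T × LC × Bool

/-- Pairs inside the special tile. -/
def Q1 : Finset (DD T × DD T) :=
  allD.image fun q => ((p.j0, q.1), (p.j0, q.2))

/-- Folded pairs and pairs of a long edge with a cut edge. -/
def Q2 : Finset (DD T × DD T) :=
  ((Finset.univ : Finset (ZMod T)) ×ˢ foldD).image (fun q => ((q.1, q.2.1), (q.1, q.2.2))) ∪
  ((Finset.univ : Finset (ZMod T)) ×ˢ cutD p.c0 p.s0).image
    (fun q => ((q.1, cf, false), (p.j0, q.2)))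

theorem Q2_card : (Q2 p).card ≤ T * 13050 := by
  refine (Finset.card_union_le _ _).trans ?_
  have h1 := foldD_card
  have h2 := cutD_card p.c0 p.s0
  refine (add_le_add Finset.card_image_le Finset.card_image_le).trans ?_
  rw [Finset.card_product, Finset.card_product, Finset.card_univ, ZMod.card]
  nlinarith

/-- All pairs of half edges that may cross. -/
def QD : Finset (DD T × DD T) := Q1 p ∪ (Q2 p ∪ (Q2 p).image Prod.swap)

theorem QD_card : (QD p).card ≤ 2 * (T * 13050 + allD.card) := by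
  have h1 : (Q1 p).card ≤ allD.card := Finset.card_image_le
  have h2 := Q2_card p
  have h3 : ((Q2 p).image Prod.swap).card ≤ (Q2 p).card := Finset.card_image_le
  have h4 := Finset.card_union_le (Q1 p) (Q2 p ∪ (Q2 p).image Prod.swap)
  have h5 := Finset.card_union_le (Q2 p) ((Q2 p).image Prod.swap)
  unfold QD
  omega

theorem mem_QD_fold (j : ZMod T) {d d' : LC × Bool} (h : (d, d') ∈ foldD) :
    ((j, d), (j, d')) ∈ Q2 p :=
  Finset.mem_union_left _ (Finset.mem_image.2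
    ⟨(j, d, d'), Finset.mem_product.2 ⟨Finset.mem_univ _, h⟩, rfl⟩)

theorem mem_QD_cut (j : ZMod T) {d : LC × Bool} (h : d ∈ cutD p.c0 p.s0) :
    ((j, cf, false), (p.j0, d)) ∈ Q2 p :=
  Finset.mem_union_right _ (Finset.mem_image.2
    ⟨(j, d), Finset.mem_product.2 ⟨Finset.mem_univ _, h⟩, rfl⟩)

theorem mem_left {q : DD T × DD T} (h : q ∈ Q2 p) : q ∈ QD p :=
  Finset.mem_union_right _ (Finset.mem_union_left _ h)

theorem mem_right {d d' : DD T} (h : (d', d) ∈ Q2 p) : (d, d') ∈ QD p :=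
  Finset.mem_union_right _ (Finset.mem_union_right _ (Finset.mem_image.2 ⟨_, h, rfl⟩))

theorem cross_mem {j j' : ZMod T} {c c' : LC} {s s' : Bool}
    (hne : (j, c, s) ≠ (p.j0, p.c0, p.s0)) (hne' : (j', c', s') ≠ (p.j0, p.c0, p.s0))
    (hap : ea j c s ≠ ea j' c' s') {z : ℂ}
    (hz : z ∈ openSegment ℝ (φ p (ea j c s)) (φ p (em j c)))
    (hz' : z ∈ openSegment ℝ (φ p (ea j' c' s')) (φ p (em j' c'))) :
    ((j, c, s), (j', c', s')) ∈ QD p := by
  have hsp : (etag p j c s).special → (etag p j' c' s').special →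
      ((j, c, s), (j', c', s')) ∈ QD p := by
    intro h1 h2
    rw [etag_special p h1, etag_special p h2]
    exact Finset.mem_union_left _
      (Finset.mem_image.2 ⟨((c, s), (c', s')), mem_allD _, rfl⟩)
  have hsame : ∀ r x, rr p j = r ∧ apex c.1 s = x → rr p j' = r ∧ apex c'.1 s' = x → False := by
    rintro r x ⟨h1, h2⟩ ⟨h3, h4⟩
    apply hap
    rw [ea, ea, h2, h4, rr_inj p (h1.trans h3.symm)]
  rcases zee (ze_mem p hne hz) (ze_mem p hne' hz') with h | h | ⟨r, h, h'⟩ | ⟨r, h, h'⟩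
  · rcases ht : etag p j c s with r | r | r | r | r | _ | _ | _ <;> rw [ht] at h
    · obtain ⟨a1, -, a2, -⟩ := etag_core p ht
      obtain ⟨b1, -, b2, -⟩ := etag_core p h.symm
      obtain rfl : j = j' := rr_inj p (a1.trans b1.symm)
      have hx : apex c.1 s ≠ apex c'.1 s' := fun e => hsame r _ ⟨a1, e⟩ ⟨b1, rfl⟩
      rcases core_core a2 b2 hx (par_bound c.1 c.2).1 (par_bound c.1 c.2).2.le
        (par_bound c'.1 c'.2).1 (par_bound c'.1 c'.2).2.le (core_os p ht hz)
        (core_os p h.symm hz') with e | e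
      · exact mem_left p (mem_QD_fold p j (mem_foldD e))
      · exact mem_right p (mem_QD_fold p j (mem_foldD e))
    · exact (hsame r _ (etag_left p (Or.inl ht)) (etag_left p (Or.inl h.symm))).elim
    · exact (hsame r _ (etag_right p (Or.inl ht)) (etag_right p (Or.inl h.symm))).elim
    · exact (hsame r _ (etag_left p (Or.inr ht)) (etag_left p (Or.inr h.symm))).elim
    · exact (hsame r _ (etag_right p (Or.inr ht)) (etag_right p (Or.inr h.symm))).elim
    · exact hsp (by rw [ht]; trivial) (by rw [← h]; trivial)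
    · exact hsp (by rw [ht]; trivial) (by rw [← h]; trivial)
    · exact hsp (by rw [ht]; trivial) (by rw [← h]; trivial)
  · exact hsp h.1 h.2
  · obtain ⟨rfl, rfl⟩ := etag_LL p h
    obtain ⟨rfl, h2⟩ := etag_cut p hne' h'
    exact mem_left p (mem_QD_cut p j h2)
  · obtain ⟨rfl, rfl⟩ := etag_LL p h'
    obtain ⟨rfl, h2⟩ := etag_cut p hne h
    exact mem_right p (mem_QD_cut p j' h2)

theorem exists_par (hT : 2 ≤ T) (d : DD T) : ∃ p : Par T, (p.j0, p.c0, p.s0) = d := by
  obtain ⟨M, ⟨f⟩⟩ := Finite.exists_equiv_fin (VV T)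
  have hL : (0 : ℝ) < 1001000 * (T : ℝ) ^ 2 + 1 + M := by positivity
  refine ⟨⟨d.1, d.2.1, d.2.2, fun x => (f x).val, M, 1001000 * (T : ℝ) ^ 2 + 1,
    1 / (2 * (1001000 * (T : ℝ) ^ 2 + 1 + M) ^ 2), hT, ?_, fun x => (f x).2, by linarith,
    by positivity, ?_⟩, rfl⟩
  · intro x y h
    exact f.injective (Fin.ext h)
  · field_simp
    norm_num

omit [NeZero T] in
theorem ub' (hSL : SLStmt) : UBStmt := by
  classical
  refine ⟨allD.card, fun T _ hT e he => ?_⟩
  obtain ⟨d0, rfl⟩ := edge_desc he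
  obtain ⟨p, rfl⟩ := exists_par hT d0
  refine hSL (VV T) _ (φ p) (φ_inj p) ?_ ((QD p).image fun q => (sym q.1, sym q.2)) _
    (Finset.card_image_le.trans (QD_card p)) ?_
  · intro u v huv x
    obtain ⟨j, c, s, hne, -, hos, -⟩ := adj_del huv
    rw [hos]
    exact no_vertex p hne x
  · intro u v u' v' huv huv' h1 h2 h3 h4 ⟨z, hz, hz'⟩
    obtain ⟨j, c, s, hne, hs, hos, ha⟩ := adj_del huv
    obtain ⟨j', c', s', hne', hs', hos', ha'⟩ := adj_del huv'
    rw [hos] at hz
    rw [hos'] at hz'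
    have hap : ea j c s ≠ ea j' c' s' := by
      rcases ha with ha | ha <;> rcases ha' with ha' | ha' <;> rw [ha, ha'] <;> assumption
    rw [hs, hs']
    exact Finset.mem_image.2 ⟨_, cross_mem p hne hne' hap hz hz', rfl⟩

end UB

theorem ub (hSL : SLStmt) : UBStmt := UB.ub' hSL

end Pool.Agent.P.MP_324c94_co
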