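import Pool.Agent.P.MP_324c94_co.Defs
import Pool.Agent.P.MP_324c94_co.Geo

set_option autoImplicit false

namespace Pool.Agent.P.MP_324c94_co

namespace VK

open Set

lemma abs33 (k k' : Fin 3 → Fin 3 → Fin 3 → ZMod 2)
    (taa tab tba tbb : Fin 3 → Fin 3 → ZMod 2)
    (hbb : ∀ i j, i ≠ j → tbb i j + tbb j i = 1)
    (h : ∀ i j i' j', i ≠ i' → j ≠ j' →
      k i j i' + k' i j j' + k i' j' i + k' i' j' j + taa i i' + tab i j' + tba j i' + tbb j j'
        = 0) : False := by
  have e0 := h 0 0 1 1 (by decide) (by decide)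
  have e1 := h 0 0 1 2 (by decide) (by decide)
  have e2 := h 0 0 2 1 (by decide) (by decide)
  have e3 := h 0 0 2 2 (by decide) (by decide)
  have e4 := h 0 1 1 0 (by decide) (by decide)
  have e5 := h 0 1 1 2 (by decide) (by decide)
  have e6 := h 0 1 2 0 (by decide) (by decide)
  have e7 := h 0 1 2 2 (by decide) (by decide)
  have e8 := h 0 2 1 0 (by decide) (by decide)
  have e9 := h 0 2 1 1 (by decide) (by decide)
  have e10 := h 0 2 2 0 (by decide) (by decide)
  have e11 := h 0 2 2 1 (by decide) (by decide)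
  have e12 := h 1 0 2 1 (by decide) (by decide)
  have e13 := h 1 0 2 2 (by decide) (by decide)
  have e14 := h 1 1 2 0 (by decide) (by decide)
  have e15 := h 1 1 2 2 (by decide) (by decide)
  have e16 := h 1 2 2 0 (by decide) (by decide)
  have e17 := h 1 2 2 1 (by decide) (by decide)
  have b01 := hbb 0 1 (by decide)
  have b02 := hbb 0 2 (by decide)
  have b12 := hbb 1 2 (by decide)
  have hf : (1 : ZMod 2) = 0 := by
    linear_combination (norm := skip) e0 + e1 + e2 + e3 + e4 + e5 + e6 + e7 + e8 +
      e9 + e10 + e11 + e12 + e13 + e14 + e15 + e16 + e17 - b01 - b02 - b12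
    ring_nf
    reduce_mod_char
  exact absurd hf (by decide)

lemma abs5 (k : Fin 5 → Fin 5 → Fin 5 → ZMod 2) (t : Fin 5 → Fin 5 → ZMod 2)
    (ht : ∀ i j, i < j → t i j + t j i = 1)
    (h : ∀ i j i' j', i < j → i' < j' → i ≠ i' → i ≠ j' → j ≠ i' → j ≠ j' →
      k i j i' + k i j j' + k i' j' i + k i' j' j + t i i' + t i j' + t j i' + t j j' = 0) :
    False := by
  have e0 := h 0 1 2 3 (by decide) (by decide) (by decide) (by decide) (by decide) (by decide)
  have e1 := h 0 1 2 4 (by decide) (by decide) (by decide) (by decide) (by decide) (by decide)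
  have e2 := h 0 1 3 4 (by decide) (by decide) (by decide) (by decide) (by decide) (by decide)
  have e3 := h 0 2 1 3 (by decide) (by decide) (by decide) (by decide) (by decide) (by decide)
  have e4 := h 0 2 1 4 (by decide) (by decide) (by decide) (by decide) (by decide) (by decide)
  have e5 := h 0 2 3 4 (by decide) (by decide) (by decide) (by decide) (by decide) (by decide)
  have e6 := h 0 3 1 2 (by decide) (by decide) (by decide) (by decide) (by decide) (by decide)
  have e7 := h 0 3 1 4 (by decide) (by decide) (by decide) (by decide) (by decide) (by decide)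
  have e8 := h 0 3 2 4 (by decide) (by decide) (by decide) (by decide) (by decide) (by decide)
  have e9 := h 0 4 1 2 (by decide) (by decide) (by decide) (by decide) (by decide) (by decide)
  have e10 := h 0 4 1 3 (by decide) (by decide) (by decide) (by decide) (by decide) (by decide)
  have e11 := h 0 4 2 3 (by decide) (by decide) (by decide) (by decide) (by decide) (by decide)
  have e12 := h 1 2 3 4 (by decide) (by decide) (by decide) (by decide) (by decide) (by decide)
  have e13 := h 1 3 2 4 (by decide) (by decide) (by decide) (by decide) (by decide) (by decide)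
  have e14 := h 1 4 2 3 (by decide) (by decide) (by decide) (by decide) (by decide) (by decide)
  have b23 := ht 2 3 (by decide)
  have b24 := ht 2 4 (by decide)
  have b34 := ht 3 4 (by decide)
  have hf : (1 : ZMod 2) = 0 := by
    linear_combination (norm := skip) e0 + e1 + e2 + e3 + e4 + e5 + e6 + e7 +
      e8 + e9 + e10 + e11 + e12 + e13 + e14 - b23 - b24 - b34
    ring_nf
    reduce_mod_char
  exact absurd hf (by decide)

end VK

theorem k33 : K33Stmt := by
  intro a b S hS
  by_contra hcon
  push Not at hcon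
  have hd : ∀ i j i' j', i ≠ i' → j ≠ j' → ∀ s t, (hS i j).somePath s ≠ (hS i' j').somePath t := by
    intro i j i' j' hi hj s t hst
    have h1 := (hS i j).somePath_mem s
    have h2 := (hS i' j').somePath_mem t
    rw [← hst] at h2
    have h3 : (hS i j).somePath s ∈ S i j ∩ S i' j' := ⟨h1, h2⟩
    rw [hcon i j i' j' hi hj] at h3
    exact h3
  refine VK.abs33 (fun i j i' => Geo.K (hS i j).somePath (a i'))
    (fun i j j' => Geo.K (hS i j).somePath (b j'))
    (fun i j => Geo.tt (a i) (a j)) (fun i j => Geo.tt (a i) (b j))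
    (fun i j => Geo.tt (b i) (a j)) (fun i j => Geo.tt (b i) (b j)) ?_ ?_
  · intro i j hij
    refine Geo.tt_add ?_
    simpa using hd 0 i 1 j (by decide) hij 1 1
  · intro i j i' j' hi hj
    exact Geo.disjoint_par _ _ (hd i j i' j' hi hj)

theorem k5 : K5Stmt := by
  intro a S hS
  by_contra hcon
  push Not at hcon
  have hd : ∀ i j i' j' (h : i < j) (h' : i' < j'), i ≠ i' → i ≠ j' → j ≠ i' → j ≠ j' →
      ∀ s t, (hS i j h).somePath s ≠ (hS i' j' h').somePath t := by
    intro i j i' j' h h' h1 h2 h3 h4 s t hst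
    have h5 := (hS i j h).somePath_mem s
    have h6 := (hS i' j' h').somePath_mem t
    rw [← hst] at h6
    have h7 : (hS i j h).somePath s ∈ S i j ∩ S i' j' := ⟨h5, h6⟩
    rw [hcon i j i' j' h h' h1 h2 h3 h4] at h7
    exact h7
  have hne : ∀ i j, i < j → a i ≠ a j := by
    have key : ∀ i j : Fin 5, i < j → ∃ x y : Fin 5, x ≠ i ∧ y ≠ j ∧ x ≠ y ∧ x ≠ j ∧ y ≠ i := by
      decide
    intro i j hij
    obtain ⟨x, y, hx, hy, hxy, hxj, hyi⟩ := key i j hij
    rcases lt_or_gt_of_ne hx with h1 | h1 <;> rcases lt_or_gt_of_ne hy with h2 | h2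
    · simpa using hd x i y j h1 h2 hxy hxj hyi.symm hij.ne 1 1
    · simpa using hd x i j y h1 h2 hxj hxy hij.ne hyi.symm 1 0
    · simpa using hd i x y j h1 h2 hyi.symm hij.ne hxy hxj 0 1
    · simpa using hd i x j y h1 h2 hij.ne hyi.symm hxj hxy 0 0
  refine VK.abs5 (fun i j i' => if h : i < j then Geo.K (hS i j h).somePath (a i') else 0)
    (fun i j => Geo.tt (a i) (a j)) ?_ ?_
  · intro i j hij
    exact Geo.tt_add (hne i j hij)
  · intro i j i' j' h h' h1 h2 h3 h4
    simp only [dif_pos h, dif_pos h']
    exact Geo.disjoint_par _ _ (hd i j i' j' h h' h1 h2 h3 h4)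

end Pool.Agent.P.MP_324c94_co
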