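import Pool.Agent.P.MP_324c94_co.Main
import Pool.Agent.P.MP_324c94_co.UB
import Pool.Agent.P.MP_324c94_co.SL
import Pool.Agent.P.MP_324c94_co.SEL
import Pool.Agent.P.MP_324c94_co.VK
import Pool.Agent.P.MP_324c94_co.LB

/-!
The two bounds for the widest and for the narrowest notion of drawing.
-/

set_option autoImplicit false

namespace Pool.Agent.P.MP_324c94_co.Var

open Set

/-- Selection of one copy of every weighted edge, for arbitrary path connected sets. -/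
theorem sel {BV BE : Type} [Finite BV] [Fintype BE] (tl hd : BE → BV) (w : BE → ℕ)
    (hw : ∀ b, 0 < w b) (φ : SV BV BE w → ℂ) (I : Sym2 (SV BV BE w) → Set ℂ)
    (h : ∀ e ∈ (subG tl hd w).edgeSet, IsPathConnected (I e) ∧ ∀ x ∈ e, φ x ∈ I e) :
    ∃ (P : BV → ℂ) (J : BE → Set ℂ),
      (∀ b, IsPathConnected (J b) ∧ P (tl b) ∈ J b ∧ P (hd b) ∈ J b) ∧
      wcross tl hd w J ≤ {p : Sym2 (SV BV BE w) × Sym2 (SV BV BE w) |
        p.1 ∈ (subG tl hd w).edgeSet ∧ p.2 ∈ (subG tl hd w).edgeSet ∧ (∀ x ∈ p.1, x ∉ p.2) ∧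
        (I p.1 ∩ I p.2).Nonempty}.ncard := by
  classical
  set X := {p : Sym2 (SV BV BE w) × Sym2 (SV BV BE w) |
    p.1 ∈ (subG tl hd w).edgeSet ∧ p.2 ∈ (subG tl hd w).edgeSet ∧ (∀ x ∈ p.1, x ∉ p.2) ∧
    (I p.1 ∩ I p.2).Nonempty}
  let J : (Σ b, Fin (w b)) → Set ℂ := fun x =>
    I s(Sum.inl (tl x.1), Sum.inr x) ∪ I s(Sum.inl (hd x.1), Sum.inr x)
  have hJ : ∀ x z, z ∈ J x → ∃ a, (a = tl x.1 ∨ a = hd x.1) ∧ z ∈ I s(Sum.inl a, Sum.inr x) := by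
    rintro x z (hz | hz)
    · exact ⟨_, Or.inl rfl, hz⟩
    · exact ⟨_, Or.inr rfl, hz⟩
  let M : (Σ b, Fin (w b)) → (Σ b, Fin (w b)) → Prop := fun x y =>
    EndsDisj tl hd x.1 y.1 ∧ (J x ∩ J y).Nonempty
  have hM : ∀ x y, ∃ a a' : BV, M x y →
      (s(Sum.inl a, Sum.inr x), s(Sum.inl a', Sum.inr y)) ∈ X := by
    intro x y
    by_cases hxy : M x y
    · obtain ⟨hE, z, hz, hz'⟩ := hxy
      obtain ⟨a, ha, hz⟩ := hJ x z hz
      obtain ⟨a', ha', hz'⟩ := hJ y z hz'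
      have haa : a ≠ a' := by
        obtain ⟨h1, h2, h3, h4⟩ := hE
        rcases ha with rfl | rfl <;> rcases ha' with rfl | rfl <;> assumption
      have hxy : x ≠ y := by
        rintro rfl
        exact hE.1 rfl
      refine ⟨a, a', fun _ => ⟨SEL.mem_edgeSet tl hd w x ha, SEL.mem_edgeSet tl hd w y ha',
        fun u hu hu' => ?_, z, hz, hz'⟩⟩
      rcases Sym2.mem_iff.1 hu with rfl | rfl <;> rcases Sym2.mem_iff.1 hu' with e | e
      · exact haa (Sum.inl.inj e)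
      · exact Sum.inl_ne_inr e
      · exact Sum.inr_ne_inl e
      · exact hxy (Sum.inr.inj e)
    · exact ⟨tl x.1, tl x.1, fun e => (hxy e).elim⟩
  choose a a' hf using hM
  have hcount : ∑ x, ∑ y, (if M x y then 1 else 0) ≤ X.ncard := by
    rw [← Fintype.sum_prod_type', Finset.sum_boole, Nat.cast_id, ← Set.ncard_coe_finset]
    refine Set.ncard_le_ncard_of_injOn (fun p => (s(Sum.inl (a p.1 p.2), Sum.inr p.1),
      s(Sum.inl (a' p.1 p.2), Sum.inr p.2))) (fun p hp => hf _ _ (by simpa using hp)) ?_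
    rintro ⟨x, y⟩ - ⟨x', y'⟩ - e
    simp only [Sym2.eq, Sym2.rel_iff', Prod.mk.injEq, Sum.inl.injEq, Sum.inr.injEq,
      Prod.swap_prod_mk, reduceCtorEq, and_self, or_false] at e
    exact Prod.ext e.1.2 e.2.2
  obtain ⟨κ, hκ⟩ := SEL.avg w hw (fun x y => if M x y then 1 else 0) (by
    intro x y hxy
    rw [if_neg]
    rintro ⟨hE, -⟩
    exact hE.1 (by rw [hxy]))
  have h1 := fun b => h _ (SEL.mem_edgeSet tl hd w ⟨b, κ b⟩ (Or.inl rfl))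
  have h2 := fun b => h _ (SEL.mem_edgeSet tl hd w ⟨b, κ b⟩ (Or.inr rfl))
  refine ⟨fun a => φ (Sum.inl a), fun b => J ⟨b, κ b⟩, fun b => ⟨(h1 b).1.union (h2 b).1
    ⟨φ (Sum.inr ⟨b, κ b⟩), (h1 b).2 _ (by simp), (h2 b).2 _ (by simp)⟩,
    Or.inl ((h1 b).2 _ (by simp)), Or.inr ((h2 b).2 _ (by simp))⟩,
    le_trans (le_of_eq ?_) (hκ.trans hcount)⟩
  unfold wcross
  refine Finset.sum_congr rfl fun b _ => Finset.sum_congr rfl fun b' _ => ?_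
  by_cases e : M ⟨b, κ b⟩ ⟨b', κ b'⟩
  · rw [if_pos e, if_pos e, one_mul]
  · rw [if_neg e, if_neg e, zero_mul]

/-- In a straight-line drawing different edges whose open segments meet have no common end. -/
theorem disj {V : Type} {H : SimpleGraph V} {φ : V → ℂ} (hφ : Function.Injective φ)
    (h : ∀ u v, H.Adj u v → ∀ x, φ x ∉ openSegment ℝ (φ u) (φ v)) {u v u' v' : V}
    (h1 : H.Adj u v) (h2 : H.Adj u' v') (hne : s(u, v) ≠ s(u', v')) {z : ℂ}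
    (hz : z ∈ openSegment ℝ (φ u) (φ v)) (hz' : z ∈ openSegment ℝ (φ u') (φ v')) :
    u ≠ u' ∧ u ≠ v' ∧ v ≠ u' ∧ v ≠ v' := by
  have key : ∀ {a b c : V}, H.Adj a b → H.Adj a c → z ∈ openSegment ℝ (φ a) (φ b) →
      z ∈ openSegment ℝ (φ a) (φ c) → b = c := fun hb hc e e' =>
    hφ (SL.common_end (h _ _ hc _) (h _ _ hb _) e e')
  have s1 := openSegment_symm ℝ (φ u) (φ v) ▸ hz
  have s2 := openSegment_symm ℝ (φ u') (φ v') ▸ hz'
  refine ⟨?_, ?_, ?_, ?_⟩ <;> rintro rfl <;> apply hne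
  · rw [key h1 h2 hz hz']
  · rw [key h1 h2.symm hz s2, Sym2.eq_swap]
  · rw [key h1.symm h2 s1 hz', Sym2.eq_swap]
  · rw [key h1.symm h2.symm s1 s2]

theorem ncard_le {V : Type} {H : SimpleGraph V} {φ : V → ℂ} (hφ : Function.Injective φ)
    (h : ∀ u v, H.Adj u v → ∀ x, φ x ∉ openSegment ℝ (φ u) (φ v)) (Q : Finset (Sym2 V × Sym2 V))
    (hQ : ∀ u v u' v', H.Adj u v → H.Adj u' v' → u ≠ u' → u ≠ v' → v ≠ u' → v ≠ v' →
      (openSegment ℝ (φ u) (φ v) ∩ openSegment ℝ (φ u') (φ v')).Nonempty →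
      (s(u, v), s(u', v')) ∈ Q) :
    {p : Sym2 V × Sym2 V | p.1 ≠ p.2 ∧ ∃ u v u' v', H.Adj u v ∧ H.Adj u' v' ∧
      p = (s(u, v), s(u', v')) ∧
      (openSegment ℝ (φ u) (φ v) ∩ openSegment ℝ (φ u') (φ v')).Nonempty}.ncard ≤ Q.card := by
  rw [← Set.ncard_coe_finset]
  refine Set.ncard_le_ncard ?_ (Finset.finite_toSet _)
  rintro _ ⟨h0, u, v, u', v', huv, huv', rfl, z, hz, hz'⟩
  obtain ⟨h1, h2, h3, h4⟩ := disj hφ h huv huv' h0 hz hz'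
  exact hQ u v u' v' huv huv' h1 h2 h3 h4 ⟨z, hz, hz'⟩

attribute [local irreducible] UB.foldD UB.allD UB.cutD in
open UB Tile in
theorem ub : ∃ C : ℕ, ∀ (T : ℕ) [NeZero T], 2 ≤ T → ∀ e ∈ (GT T).edgeSet,
    ∃ φ : SV (BV T) (BE T) bw → ℂ, Function.Injective φ ∧
      (∀ u v, ((GT T).deleteEdges {e}).Adj u v → ∀ x, φ x ∉ openSegment ℝ (φ u) (φ v)) ∧
      {p : Sym2 (SV (BV T) (BE T) bw) × Sym2 (SV (BV T) (BE T) bw) | p.1 ≠ p.2 ∧ ∃ u v u' v',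
        ((GT T).deleteEdges {e}).Adj u v ∧ ((GT T).deleteEdges {e}).Adj u' v' ∧
        p = (s(u, v), s(u', v')) ∧
        (openSegment ℝ (φ u) (φ v) ∩ openSegment ℝ (φ u') (φ v')).Nonempty}.ncard ≤
        2 * (T * 13050 + C) := by
  classical
  obtain ⟨C, hC⟩ : ∃ C : ℕ, ∀ (T : ℕ) [NeZero T] (p : Par T),
      (QD p).card ≤ 2 * (T * 13050 + C) := ⟨_, fun _ _ p => QD_card p⟩
  refine ⟨C, fun T _ hT e he => ?_⟩
  obtain ⟨d0, rfl⟩ := edge_desc he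
  obtain ⟨p, rfl⟩ := exists_par hT d0
  have hv : ∀ u v, ((GT T).deleteEdges {sym (p.j0, p.c0, p.s0)}).Adj u v →
      ∀ x, φ p x ∉ openSegment ℝ (φ p u) (φ p v) := by
    intro u v huv x
    obtain ⟨j, c, s, hne, -, hos, -⟩ := adj_del huv
    rw [hos]
    exact no_vertex p hne x
  refine ⟨φ p, φ_inj p, hv, (ncard_le (φ_inj p) hv ((QD p).image fun q => (sym q.1, sym q.2))
    ?_).trans (Finset.card_image_le.trans (hC T p))⟩
  intro u v u' v' huv huv' h1 h2 h3 h4 ⟨z, hz, hz'⟩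
  obtain ⟨j, c, s, hne, hs, hos, ha⟩ := adj_del huv
  obtain ⟨j', c', s', hne', hs', hos', ha'⟩ := adj_del huv'
  rw [hos] at hz
  rw [hos'] at hz'
  have hap : ea j c s ≠ ea j' c' s' := by
    rcases ha with ha | ha <;> rcases ha' with ha' | ha' <;> rw [ha, ha'] <;> assumption
  rw [hs, hs']
  exact Finset.mem_image.2 ⟨_, cross_mem p hne hne' hap hz hz', rfl⟩

theorem main : ∃ k₀ : ℕ, ∀ k : ℕ, k₀ ≤ k → ∃ (V : Type) (_ : Finite V) (G : SimpleGraph V),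
    (∀ (φ : V → ℂ) (I : Sym2 V → Set ℂ),
      (∀ e ∈ G.edgeSet, IsPathConnected (I e) ∧ ∀ x ∈ e, φ x ∈ I e) →
      2 * ((1 + 1 / 13051) * k : ℝ) ≤ {p : Sym2 V × Sym2 V | p.1 ∈ G.edgeSet ∧ p.2 ∈ G.edgeSet ∧
        (∀ x ∈ p.1, x ∉ p.2) ∧ (I p.1 ∩ I p.2).Nonempty}.ncard) ∧
    ∀ e ∈ G.edgeSet, ∃ φ : V → ℂ, Function.Injective φ ∧
      (∀ u v, (G.deleteEdges {e}).Adj u v → ∀ x, φ x ∉ openSegment ℝ (φ u) (φ v)) ∧
      {p : Sym2 V × Sym2 V | p.1 ≠ p.2 ∧ ∃ u v u' v', (G.deleteEdges {e}).Adj u v ∧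
        (G.deleteEdges {e}).Adj u' v' ∧ p = (s(u, v), s(u', v')) ∧
        (openSegment ℝ (φ u) (φ v) ∩ openSegment ℝ (φ u') (φ v')).Nonempty}.ncard < 2 * k := by
  obtain ⟨C, hC⟩ := ub
  refine ⟨13050 * (13052 * (13050 + C)) + C + 1, fun k hk => ?_⟩
  obtain ⟨T, h1, h2⟩ : ∃ T, T * 13050 + C < k ∧ k ≤ T * 13050 + C + 13050 :=
    ⟨(k - C - 1) / 13050, by omega, by omega⟩
  have : NeZero T := ⟨by omega⟩
  refine ⟨_, inferInstance, GT T, fun φ I h => ?_, fun e he => ?_⟩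
  · obtain ⟨P, J, hJ, hle⟩ := sel btl bhd bw (fun b => lw_pos b.2) φ I h
    have h3 := (lb k33 k5 T (by omega) P J hJ).trans hle
    have h4 : 13052 * k ≤ 13051 * (T * 13051) := by omega
    have h5 : (13052 * k : ℝ) ≤ 13051 * (T * 13051) := by exact_mod_cast h4
    refine le_trans ?_ (Nat.cast_le.2 h3)
    push_cast
    linarith
  · obtain ⟨φ, a1, a2, a3⟩ := hC T (by omega) e he
    exact ⟨φ, a1, a2, a3.trans_lt (by omega)⟩

end Pool.Agent.P.MP_324c94_co.Var
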