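import Pool.Agent.P.MP_324c94_co.Tile

/-!
Zones of the plane used to separate the parts of the drawing, and the cut through an edge.
-/

namespace Pool.Agent.P.MP_324c94_co

namespace UB

open Tile

/-- Kinds of vertices. -/
inductive VT where
  | core (r : ℕ) | U (r : ℕ) | W (r : ℕ) | F (r : ℕ) | A | B | top

/-- Kinds of edges. -/
inductive ET where
  | core (r : ℕ) | WL (r : ℕ) | WR (r : ℕ) | LL (r : ℕ) | LR (r : ℕ) | out | inn | cut

/-- An affine function separating the outer part of the drawing. -/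
def psi (T L : ℝ) (z : ℂ) : ℝ := L * z.im - 1000 * T * z.re - 1000 * T * L

/-- Height above the parabola. -/
def hgt (δ : ℝ) (z : ℂ) : ℝ := z.im - δ * z.re ^ 2

/-- Zones of vertices. -/
def ZV (T L δ : ℝ) : VT → ℂ → Prop
  | .core r, z => (1 : ℝ) ≤ r ∧ (r : ℝ) + 1 ≤ T ∧ 1000 * (r : ℝ) ≤ z.im ∧
      z.im ≤ 1000 * (r : ℝ) + 999 ∧ -700 ≤ z.re ∧ z.re ≤ 700 ∧ psi T L z < 0
  | .U r, z => (1 : ℝ) ≤ r ∧ (r : ℝ) + 1 ≤ T ∧ z.re = -(1001 * (r : ℝ) + 501) ∧
      z.im = 1000 * (r : ℝ) + 500 ∧ psi T L z < 0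
  | .W r, z => (1 : ℝ) ≤ r ∧ (r : ℝ) + 1 ≤ T ∧ z.re = 1001 * (r : ℝ) + 501 ∧
      z.im = 1000 * (r : ℝ) + 500 ∧ psi T L z < 0
  | .F r, z => (1 : ℝ) ≤ r ∧ (r : ℝ) + 1 ≤ T ∧ z.re = 0 ∧ z.im = -((r : ℝ) + 1) ∧ psi T L z < 0
  | .A, z => z.re < 0 ∧ 0 ≤ z.im ∧ z.im < 1 ∧ 0 ≤ psi T L z ∧ hgt δ z = 0
  | .B, z => 0 ≤ z.re ∧ z.re ≤ 1 ∧ 0 ≤ z.im ∧ z.im < 1 ∧ hgt δ z = 0
  | .top, z => z.re = 0 ∧ z.im = 1000 * T ∧ 0 ≤ psi T L z

/-- Zones of open segments. -/
def ZE (T L δ : ℝ) : ET → ℂ → Prop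
  | .core r, z => (1 : ℝ) ≤ r ∧ (r : ℝ) + 1 ≤ T ∧ 1000 * (r : ℝ) < z.im ∧
      z.im < 1000 * (r : ℝ) + 1000 ∧ -700 ≤ z.re ∧ z.re ≤ 700 ∧ psi T L z < 0
  | .WL r, z => (1 : ℝ) ≤ r ∧ (r : ℝ) + 1 ≤ T ∧ 1000 * (r : ℝ) < z.im ∧
      z.im < 1000 * (r : ℝ) + 1000 ∧ z.re < -700 ∧ -((r : ℝ) + 1) < z.re + z.im ∧ psi T L z < 0
  | .WR r, z => (1 : ℝ) ≤ r ∧ (r : ℝ) + 1 ≤ T ∧ 1000 * (r : ℝ) < z.im ∧
      z.im < 1000 * (r : ℝ) + 1000 ∧ 700 < z.re ∧ -((r : ℝ) + 1) < z.im - z.re ∧ psi T L z < 0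
  | .LL r, z => (1 : ℝ) ≤ r ∧ (r : ℝ) + 1 ≤ T ∧ z.re + z.im = -((r : ℝ) + 1) ∧ z.re < 0 ∧
      z.im < 1000 * (r : ℝ) + 500 ∧ psi T L z < 0
  | .LR r, z => (1 : ℝ) ≤ r ∧ (r : ℝ) + 1 ≤ T ∧ z.im - z.re = -((r : ℝ) + 1) ∧ 0 < z.re ∧
      z.im < 1000 * (r : ℝ) + 500 ∧ psi T L z < 0
  | .out, z => z.re < 0 ∧ 0 ≤ psi T L z ∧ 0 < hgt δ z
  | .inn, z => 0 ≤ z.re ∧ z.re ≤ 1 ∧ 0 ≤ z.im ∧ z.im < 1000 ∧ 0 < hgt δ z
  | .cut, z => z.re ≤ 1 ∧ 0 ≤ z.im ∧ z.im < 1 ∧ 0 < hgt δ z

theorem nat_cases (r r' : ℕ) : r = r' ∨ (r : ℝ) + 1 ≤ r' ∨ (r' : ℝ) + 1 ≤ r := by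
  rcases lt_trichotomy r r' with h | h | h
  · right; left; exact_mod_cast h
  · left; exact h
  · right; right; exact_mod_cast h

theorem zvv {T L δ : ℝ} (hT : 1 ≤ T) {t t' : VT} {z : ℂ} (h : ZV T L δ t z) (h' : ZV T L δ t' z) :
    t = t' := by
  cases t <;> cases t' <;> simp only [ZV] at h h' <;>
    first
    | rfl
    | (exfalso; casesm* _ ∧ _; linarith)
    | (rename_i r r'
       casesm* _ ∧ _
       rcases nat_cases r r' with e | e | e
       · subst e; rfl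
       · exfalso; linarith
       · exfalso; linarith)

theorem zev {T L δ : ℝ} (hT : 1 ≤ T) {t : ET} {t' : VT} {z : ℂ} (h : ZE T L δ t z)
    (h' : ZV T L δ t' z) : ∃ r, t = .core r ∧ t' = .core r := by
  cases t <;> cases t' <;> simp only [ZV, ZE] at h h' <;>
    first
    | (exfalso; casesm* _ ∧ _; linarith)
    | (rename_i r r'
       casesm* _ ∧ _
       rcases nat_cases r r' with e | e | e
       · first | (subst e; exact ⟨_, rfl, rfl⟩) | (subst e; exfalso; linarith)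
       · exfalso; linarith
       · exfalso; linarith)

/-- Kinds of edges of the special tile. -/
def ET.special : ET → Prop
  | .out => True
  | .inn => True
  | .cut => True
  | _ => False

theorem zee {T L δ : ℝ} {t t' : ET} {z : ℂ} (h : ZE T L δ t z) (h' : ZE T L δ t' z) :
    t = t' ∨ (t.special ∧ t'.special) ∨ (∃ r, t = .LL r ∧ t' = .cut) ∨
      (∃ r, t = .cut ∧ t' = .LL r) := by
  cases t <;> cases t' <;> simp only [ZE] at h h' <;>
    first
    | (left; rfl)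
    | (right; left; exact ⟨trivial, trivial⟩)
    | (right; right; left; exact ⟨_, rfl, rfl⟩)
    | (right; right; right; exact ⟨_, rfl, rfl⟩)
    | (exfalso; casesm* _ ∧ _; linarith)
    | (rename_i r r'
       casesm* _ ∧ _
       rcases nat_cases r r' with e | e | e
       · first | (subst e; left; rfl) | (subst e; exfalso; linarith)
       · exfalso; linarith
       · exfalso; linarith)

/-- Levels of the local vertices. -/
def rank : Fin 22 → ℕ :=
  ![0, 1, 12, 5, 6, 8, 2, 4, 9, 11, 5, 6, 8, 2, 4, 9, 11, 3, 10, 6, 7, 13]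

/-- Copies of local edges. -/
abbrev LC : Type := Σ e : Fin 41, Fin (lw e)

/-- The lower side of the cut through the local edge `e0`. -/
def inA (e0 : Fin 41) (x : Fin 22) : Bool := decide (rank x ≤ rank (ltl e0))

/-- The side of the subdividing vertices. -/
def midA (c0 : LC) (s0 : Bool) (c : LC) : Bool :=
  if c = c0 then s0 else if inA c0.1 (lhd c.1) then true
    else (inA c0.1 (ltl c.1) && ltl c.1 == 0)

theorem inA_zero : ∀ e0, inA e0 0 = true := by decide +kernel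

theorem inA_last : ∀ e0, inA e0 21 = false := by decide +kernel

theorem inA_tl : ∀ e0, inA e0 (ltl e0) = true := by decide +kernel

theorem inA_hd : ∀ e0, inA e0 (lhd e0) = false := by decide +kernel

theorem inA_mono : ∀ e0 e, inA e0 (lhd e) = true → inA e0 (ltl e) = true := by decide +kernel

theorem apex_zero : ∀ e s, apex e s = 0 → s = false ∧ ltl e = 0 := by decide +kernel

theorem apex_last : ∀ e s, apex e s = 21 → s = true ∧ lhd e = 21 ∧ ltl e ≠ 0 := by decide +kernel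

theorem cut_sum : ∀ e0, ∑ e : Fin 41,
    (if inA e0 (ltl e) = true ∧ inA e0 (lhd e) = false then lw e else 0) = 12083 := by
  decide +kernel

theorem midA_zero {c0 c : LC} {s0 s : Bool} (hne : (c, s) ≠ (c0, s0)) (h : apex c.1 s = 0) :
    midA c0 s0 c = true := by
  obtain ⟨hs, ht⟩ := apex_zero _ _ h
  unfold midA
  split_ifs with h1 h2
  · subst h1 hs
    cases s0
    · exact absurd rfl hne
    · rfl
  · rfl
  · simp [ht, inA_zero]

theorem midA_last {c0 c : LC} {s0 s : Bool} (hne : (c, s) ≠ (c0, s0)) (h : apex c.1 s = 21) :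
    midA c0 s0 c = false := by
  obtain ⟨hs, ht, ht'⟩ := apex_last _ _ h
  unfold midA
  split_ifs with h1 h2
  · subst h1 hs
    cases s0
    · rfl
    · exact absurd rfl hne
  · rw [ht, inA_last] at h2; exact absurd h2 (by simp)
  · simp [ht']

/-- The half edges of the special tile between the two sides of the cut. -/
def cutD (c0 : LC) (s0 : Bool) : Finset (LC × Bool) :=
  Finset.univ.filter fun d => d ≠ (c0, s0) ∧ inA c0.1 (apex d.1.1 d.2) ≠ midA c0 s0 d.1

theorem card_le_of_graph {α β : Type} (D : Finset (α × β)) (S : Finset α) (f : α → β)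
    (key : ∀ d ∈ D, d.1 ∈ S ∧ d.2 = f d.1) : D.card ≤ S.card := by
  refine Finset.card_le_card_of_injOn (fun d => d.1) (fun d hd => (key d hd).1) ?_
  intro d hd d' hd' h
  have e1 := (key d hd).2
  have e2 := (key d' hd').2
  simp only at h
  exact Prod.ext h (by rw [e1, e2, h])

set_option linter.constructorNameAsVariable false in
theorem cutD_card (c0 : LC) (s0 : Bool) : (cutD c0 s0).card ≤ 12082 := by
  classical
  set S : Finset LC := Finset.univ.filter
    fun c => inA c0.1 (ltl c.1) = true ∧ inA c0.1 (lhd c.1) = false with hS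
  have hcard : S.card = 12083 := by
    rw [← cut_sum c0.1, hS, Finset.card_filter, Fintype.sum_sigma]
    refine Finset.sum_congr rfl fun e _ => ?_
    split_ifs with h <;> simp
  have hc0 : c0 ∈ S := by simp [hS, inA_tl, inA_hd]
  have key : ∀ d ∈ cutD c0 s0, d.1 ∈ S.erase c0 ∧ d.2 = midA c0 s0 d.1 := by
    rintro ⟨c, s⟩ hd
    simp only [cutD, Finset.mem_filter, Finset.mem_univ, true_and] at hd
    obtain ⟨hne, hd⟩ := hd
    have hmono := inA_mono c0.1 c.1
    by_cases hc : c = c0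
    · subst hc
      exfalso
      have h1 := inA_tl c.1
      have h2 := inA_hd c.1
      cases s <;> cases s0 <;> simp_all [midA, apex]
    · simp only [Finset.mem_erase, hS, Finset.mem_filter, Finset.mem_univ, true_and]
      simp only [midA, if_neg hc, apex] at hd ⊢
      cases s <;> cases h1 : inA c0.1 (lhd c.1) <;> cases h2 : inA c0.1 (ltl c.1) <;>
        simp_all
  have : (cutD c0 s0).card ≤ (S.erase c0).card := card_le_of_graph _ _ _ key
  rw [Finset.card_erase_of_mem hc0, hcard] at this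
  exact this

end UB

end Pool.Agent.P.MP_324c94_co
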